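import Mathlib

/-!
Auxiliary results for MP_50e481: explicit powers of a root of `x ^ 6 + x + 2` in characteristic 3.
-/

namespace Q248.Bose729

theorem powers {K : Type} [CommRing K] (θ : K) (hf : θ ^ 6 + θ + 2 = 0) (h3 : (3 : K) = 0) :
    θ ^ 717 = θ ^ 67 + 1 ∧ θ ^ 462 = θ ^ 67 + 2 ∧ θ ^ 635 = θ ^ 37 + 1 ∧ θ ^ 434 = θ ^ 37 + 2 ∧
    θ ^ 364 = 2 ∧ θ ^ 728 = 1 ∧ (∃ B : K, (θ ^ 56 - 1) * B = 1) ∧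
    (∃ B : K, (θ ^ 104 - 1) * B = 1) ∧
    (∑ i ∈ Finset.range 6, (θ ^ 67) ^ 3 ^ i = 0) ∧
    (∑ i ∈ Finset.range 6, ((θ ^ 67) ^ 2) ^ 3 ^ i = 2) ∧
    (∑ i ∈ Finset.range 6, (θ ^ 37) ^ 3 ^ i = 0) ∧
    (∑ i ∈ Finset.range 6, ((θ ^ 37) ^ 2) ^ 3 ^ i = 1) := by
  have e4 : θ ^ 4 = θ ^ 4 := by ring
  have e9 : θ ^ 9 = θ ^ 3 + 2 * θ ^ 4 := by
    have h1 : θ ^ 9 = (θ ^ 4) ^ 2 * θ := by ring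
    rw [h1, e4]
    linear_combination (θ ^ 3) * hf + ((-1) * θ ^ 3 + (-1) * θ ^ 4) * h3
  have e18 : θ ^ 18 = 1 + 2 * θ ^ 3 := by
    have h1 : θ ^ 18 = (θ ^ 9) ^ 2 := by ring
    rw [h1, e9]
    linear_combination (1 + θ + θ ^ 2) * hf + ((-1) + (-1) * θ + (-1) * θ ^ 2 + (-1) * θ ^ 3 + θ ^ 7 + θ ^ 8) * h3
  have e37 : θ ^ 37 = 2 * θ + 2 * θ ^ 2 + θ ^ 4 := by
    have h1 : θ ^ 37 = (θ ^ 18) ^ 2 * θ := by ring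
    rw [h1, e18]
    linear_combination (θ) * hf + ((-1) * θ + (-1) * θ ^ 2 + θ ^ 4 + θ ^ 7) * h3
  have e3 : θ ^ 3 = θ ^ 3 := by ring
  have e7 : θ ^ 7 = θ + 2 * θ ^ 2 := by
    have h1 : θ ^ 7 = (θ ^ 3) ^ 2 * θ := by ring
    rw [h1, e3]
    linear_combination (θ) * hf + ((-1) * θ + (-1) * θ ^ 2) * h3
  have e14 : θ ^ 14 = θ ^ 2 + θ ^ 3 + θ ^ 4 := by
    have h1 : θ ^ 14 = (θ ^ 7) ^ 2 := by ring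
    rw [h1, e7]
    linear_combination (0) * hf + (θ ^ 3 + θ ^ 4) * h3
  have e28 : θ ^ 28 = 2 * θ + 2 * θ ^ 2 + 2 * θ ^ 3 + θ ^ 4 + 2 * θ ^ 5 := by
    have h1 : θ ^ 28 = (θ ^ 14) ^ 2 := by ring
    rw [h1, e14]
    linear_combination (2 * θ + θ ^ 2) * hf + ((-2) * θ + (-2) * θ ^ 2 + (-1) * θ ^ 3 + θ ^ 6) * h3
  have e56 : θ ^ 56 = 1 + 2 * θ + θ ^ 2 + 2 * θ ^ 5 := by
    have h1 : θ ^ 56 = (θ ^ 28) ^ 2 := by ring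
    rw [h1, e28]
    linear_combination (1 + θ ^ 3 + θ ^ 4) * hf + ((-1) + (-1) * θ + θ ^ 2 + 2 * θ ^ 3 + 3 * θ ^ 4 + 3 * θ ^ 5 + 5 * θ ^ 6 + 4 * θ ^ 7 + 3 * θ ^ 8 + θ ^ 9 + θ ^ 10) * h3
  have e8 : θ ^ 8 = θ ^ 2 + 2 * θ ^ 3 := by
    have h1 : θ ^ 8 = (θ ^ 4) ^ 2 := by ring
    rw [h1, e4]
    linear_combination (θ ^ 2) * hf + ((-1) * θ ^ 2 + (-1) * θ ^ 3) * h3
  have e16 : θ ^ 16 = 1 + 2 * θ + θ ^ 4 + θ ^ 5 := by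
    have h1 : θ ^ 16 = (θ ^ 8) ^ 2 := by ring
    rw [h1, e8]
    linear_combination (1) * hf + ((-1) + (-1) * θ + θ ^ 5 + θ ^ 6) * h3
  have e33 : θ ^ 33 = 2 + 2 * θ ^ 3 + θ ^ 4 + θ ^ 5 := by
    have h1 : θ ^ 33 = (θ ^ 16) ^ 2 * θ := by ring
    rw [h1, e16]
    linear_combination ((-1) + θ + θ ^ 3 + 2 * θ ^ 4 + θ ^ 5) * hf + (θ ^ 2 + (-2) * θ ^ 4 + (-1) * θ ^ 5 + 2 * θ ^ 6 + θ ^ 7) * h3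
  have e67 : θ ^ 67 = 2 * θ + θ ^ 3 + 2 * θ ^ 4 := by
    have h1 : θ ^ 67 = (θ ^ 33) ^ 2 * θ := by ring
    rw [h1, e33]
    linear_combination (θ + θ ^ 2 + 2 * θ ^ 3 + 2 * θ ^ 4 + θ ^ 5) * hf + ((-1) * θ ^ 2 + (-2) * θ ^ 3 + θ ^ 6 + θ ^ 7 + θ ^ 8 + θ ^ 9) * h3
  have e74 : θ ^ 74 = 1 + 2 * θ + 2 * θ ^ 2 + θ ^ 3 + θ ^ 4 + θ ^ 5 := by
    have h1 : θ ^ 74 = (θ ^ 37) ^ 2 := by ring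
    rw [h1, e37]
    linear_combination (1 + θ ^ 2) * hf + ((-1) + (-1) * θ + 2 * θ ^ 3 + θ ^ 4 + θ ^ 5 + θ ^ 6) * h3
  have e5 : θ ^ 5 = θ ^ 5 := by ring
  have e10 : θ ^ 10 = θ ^ 4 + 2 * θ ^ 5 := by
    have h1 : θ ^ 10 = (θ ^ 5) ^ 2 := by ring
    rw [h1, e5]
    linear_combination (θ ^ 4) * hf + ((-1) * θ ^ 4 + (-1) * θ ^ 5) * h3
  have e21 : θ ^ 21 = 2 + θ + θ ^ 3 := by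
    have h1 : θ ^ 21 = (θ ^ 10) ^ 2 * θ := by ring
    rw [h1, e10]
    linear_combination ((-1) + θ ^ 3 + θ ^ 4 + θ ^ 5) * hf + ((-1) * θ ^ 3 + (-1) * θ ^ 4 + (-1) * θ ^ 5 + θ ^ 10 + θ ^ 11) * h3
  have e42 : θ ^ 42 = 2 + θ ^ 2 + θ ^ 3 + 2 * θ ^ 4 := by
    have h1 : θ ^ 42 = (θ ^ 21) ^ 2 := by ring
    rw [h1, e21]
    linear_combination (1) * hf + (θ + θ ^ 3) * h3
  have e85 : θ ^ 85 = 2 + θ + 2 * θ ^ 2 + θ ^ 3 := by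
    have h1 : θ ^ 85 = (θ ^ 42) ^ 2 * θ := by ring
    rw [h1, e42]
    linear_combination (2 + 2 * θ + θ ^ 2 + θ ^ 3) * hf + ((-2) + (-1) * θ + (-2) * θ ^ 2 + θ ^ 4 + 3 * θ ^ 5 + θ ^ 7 + θ ^ 8 + θ ^ 9) * h3
  have e6 : θ ^ 6 = 1 + 2 * θ := by
    have h1 : θ ^ 6 = (θ ^ 3) ^ 2 := by ring
    rw [h1, e3]
    linear_combination (1) * hf + ((-1) + (-1) * θ) * h3
  have e13 : θ ^ 13 = θ + θ ^ 2 + θ ^ 3 := by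
    have h1 : θ ^ 13 = (θ ^ 6) ^ 2 * θ := by ring
    rw [h1, e6]
    linear_combination (0) * hf + (θ ^ 2 + θ ^ 3) * h3
  have e26 : θ ^ 26 = 1 + 2 * θ + θ ^ 2 + 2 * θ ^ 3 + 2 * θ ^ 5 := by
    have h1 : θ ^ 26 = (θ ^ 13) ^ 2 := by ring
    rw [h1, e13]
    linear_combination (1) * hf + ((-1) + (-1) * θ + θ ^ 4) * h3
  have e52 : θ ^ 52 = 1 + 2 * θ + θ ^ 2 + θ ^ 4 + θ ^ 5 := by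
    have h1 : θ ^ 52 = (θ ^ 26) ^ 2 := by ring
    rw [h1, e26]
    linear_combination (θ + 2 * θ ^ 2 + θ ^ 4) * hf + (2 * θ ^ 3 + 2 * θ ^ 4 + 2 * θ ^ 5 + 4 * θ ^ 6 + θ ^ 7 + 2 * θ ^ 8 + θ ^ 10) * h3
  have e104 : θ ^ 104 = 1 + 2 * θ ^ 2 + 2 * θ ^ 3 + 2 * θ ^ 4 + 2 * θ ^ 5 := by
    have h1 : θ ^ 104 = (θ ^ 52) ^ 2 := by ring
    rw [h1, e52]
    linear_combination (2 * θ + θ ^ 2 + 2 * θ ^ 3 + θ ^ 4) * hf + ((-1) * θ ^ 3 + (-1) * θ ^ 4 + θ ^ 5 + 2 * θ ^ 6) * h3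
  have e27 : θ ^ 27 = 2 + 2 * θ + 2 * θ ^ 2 + θ ^ 3 + 2 * θ ^ 4 := by
    have h1 : θ ^ 27 = (θ ^ 13) ^ 2 * θ := by ring
    rw [h1, e13]
    linear_combination (2 + θ) * hf + ((-2) + (-2) * θ + (-1) * θ ^ 2 + θ ^ 5) * h3
  have e55 : θ ^ 55 = θ + 2 * θ ^ 4 + θ ^ 5 := by
    have h1 : θ ^ 55 = (θ ^ 27) ^ 2 * θ := by ring
    rw [h1, e27]
    linear_combination (θ ^ 2 + θ ^ 3) * hf + (θ + 2 * θ ^ 2 + 3 * θ ^ 3 + 3 * θ ^ 4 + 5 * θ ^ 5 + 4 * θ ^ 6 + 3 * θ ^ 7 + θ ^ 8 + θ ^ 9) * h3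
  have e111 : θ ^ 111 = 2 * θ + θ ^ 2 + 2 * θ ^ 3 := by
    have h1 : θ ^ 111 = (θ ^ 55) ^ 2 * θ := by ring
    rw [h1, e55]
    linear_combination (2 * θ + θ ^ 3 + θ ^ 4 + θ ^ 5) * hf + ((-2) * θ + (-1) * θ ^ 2 + (-1) * θ ^ 3 + (-1) * θ ^ 4 + (-1) * θ ^ 5 + θ ^ 6 + θ ^ 9 + θ ^ 10) * h3
  have e134 : θ ^ 134 = 1 + θ ^ 2 + 2 * θ ^ 3 + θ ^ 4 + 2 * θ ^ 5 := by
    have h1 : θ ^ 134 = (θ ^ 67) ^ 2 := by ring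
    rw [h1, e67]
    linear_combination (1 + θ + θ ^ 2) * hf + ((-1) + (-1) * θ + (-1) * θ ^ 3 + θ ^ 4 + 2 * θ ^ 5 + θ ^ 7 + θ ^ 8) * h3
  have e170 : θ ^ 170 = 2 + 2 * θ ^ 3 + θ ^ 5 := by
    have h1 : θ ^ 170 = (θ ^ 85) ^ 2 := by ring
    rw [h1, e85]
    linear_combination (1) * hf + (θ + 3 * θ ^ 2 + 2 * θ ^ 3 + 2 * θ ^ 4 + θ ^ 5) * h3
  have e12 : θ ^ 12 = 1 + θ + θ ^ 2 := by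
    have h1 : θ ^ 12 = (θ ^ 6) ^ 2 := by ring
    rw [h1, e6]
    linear_combination (0) * hf + (θ + θ ^ 2) * h3
  have e25 : θ ^ 25 = θ + 2 * θ ^ 2 + 2 * θ ^ 4 + θ ^ 5 := by
    have h1 : θ ^ 25 = (θ ^ 12) ^ 2 * θ := by ring
    rw [h1, e12]
    linear_combination (0) * hf + (θ ^ 3) * h3
  have e50 : θ ^ 50 = 1 + θ ^ 2 + θ ^ 3 + θ ^ 4 := by
    have h1 : θ ^ 50 = (θ ^ 25) ^ 2 := by ring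
    rw [h1, e25]
    linear_combination (1 + θ + θ ^ 2 + θ ^ 3 + θ ^ 4) * hf + ((-1) + (-1) * θ + (-1) * θ ^ 2 + θ ^ 5 + 3 * θ ^ 6 + θ ^ 7 + θ ^ 8 + θ ^ 9) * h3
  have e100 : θ ^ 100 = 1 + 2 * θ + θ ^ 2 + θ ^ 3 + 2 * θ ^ 5 := by
    have h1 : θ ^ 100 = (θ ^ 50) ^ 2 := by ring
    rw [h1, e50]
    linear_combination (2 * θ + θ ^ 2) * hf + ((-2) * θ + (-1) * θ ^ 2 + θ ^ 4 + θ ^ 6) * h3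
  have e201 : θ ^ 201 = 2 + 2 * θ + 2 * θ ^ 2 + 2 * θ ^ 4 := by
    have h1 : θ ^ 201 = (θ ^ 100) ^ 2 * θ := by ring
    rw [h1, e100]
    linear_combination ((-1) + θ ^ 2 + θ ^ 3 + θ ^ 5) * hf + (θ ^ 3 + θ ^ 4 + θ ^ 5 + 2 * θ ^ 6 + 3 * θ ^ 7 + θ ^ 8 + θ ^ 9 + θ ^ 11) * h3
  have e222 : θ ^ 222 = 1 + 2 * θ + θ ^ 2 + θ ^ 3 + θ ^ 5 := by
    have h1 : θ ^ 222 = (θ ^ 111) ^ 2 := by ring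
    rw [h1, e111]
    linear_combination (1) * hf + ((-1) + (-1) * θ + θ ^ 2 + θ ^ 3 + 3 * θ ^ 4 + θ ^ 5 + θ ^ 6) * h3
  have e15 : θ ^ 15 = θ ^ 3 + θ ^ 4 + θ ^ 5 := by
    have h1 : θ ^ 15 = (θ ^ 7) ^ 2 * θ := by ring
    rw [h1, e7]
    linear_combination (0) * hf + (θ ^ 4 + θ ^ 5) * h3
  have e31 : θ ^ 31 = 2 + 2 * θ + θ ^ 2 + θ ^ 3 + 2 * θ ^ 4 + 2 * θ ^ 5 := by
    have h1 : θ ^ 31 = (θ ^ 15) ^ 2 * θ := by ring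
    rw [h1, e15]
    linear_combination ((-1) + θ + 2 * θ ^ 2 + 2 * θ ^ 4 + θ ^ 5) * hf + ((-1) * θ + (-2) * θ ^ 2 + (-1) * θ ^ 3 + (-2) * θ ^ 4 + (-2) * θ ^ 5 + θ ^ 9) * h3
  have e63 : θ ^ 63 = 2 + 2 * θ ^ 3 + 2 * θ ^ 4 := by
    have h1 : θ ^ 63 = (θ ^ 31) ^ 2 * θ := by ring
    rw [h1, e31]
    linear_combination ((-1) + θ + 2 * θ ^ 2 + 2 * θ ^ 3 + 2 * θ ^ 4 + θ ^ 5) * hf + (θ + θ ^ 2 + 3 * θ ^ 5 + 6 * θ ^ 6 + 4 * θ ^ 7 + 2 * θ ^ 8 + 2 * θ ^ 9 + 2 * θ ^ 10 + θ ^ 11) * h3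
  have e127 : θ ^ 127 = 2 * θ + θ ^ 2 + 2 * θ ^ 3 + θ ^ 4 + 2 * θ ^ 5 := by
    have h1 : θ ^ 127 = (θ ^ 63) ^ 2 * θ := by ring
    rw [h1, e63]
    linear_combination (θ + 2 * θ ^ 2 + θ ^ 3) * hf + ((-2) * θ ^ 2 + (-2) * θ ^ 3 + 2 * θ ^ 4 + 2 * θ ^ 5 + θ ^ 7 + 2 * θ ^ 8 + θ ^ 9) * h3
  have e255 : θ ^ 255 = 1 + θ + 2 * θ ^ 3 + 2 * θ ^ 4 := by
    have h1 : θ ^ 255 = (θ ^ 127) ^ 2 * θ := by ring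
    rw [h1, e127]
    linear_combination (1 + 2 * θ + 2 * θ ^ 2 + θ ^ 4 + θ ^ 5) * hf + ((-1) + (-2) * θ + (-2) * θ ^ 2 + 2 * θ ^ 5 + 2 * θ ^ 6 + 4 * θ ^ 7 + 2 * θ ^ 8 + 3 * θ ^ 9 + θ ^ 10 + θ ^ 11) * h3
  have e66 : θ ^ 66 = 2 + θ ^ 2 + 2 * θ ^ 3 := by
    have h1 : θ ^ 66 = (θ ^ 33) ^ 2 := by ring
    rw [h1, e33]
    linear_combination (1 + θ + 2 * θ ^ 2 + 2 * θ ^ 3 + θ ^ 4) * hf + ((-1) * θ + (-2) * θ ^ 2 + θ ^ 5 + θ ^ 6 + θ ^ 7 + θ ^ 8) * h3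
  have e132 : θ ^ 132 = 2 + 2 * θ + θ ^ 2 + 2 * θ ^ 3 + θ ^ 4 + θ ^ 5 := by
    have h1 : θ ^ 132 = (θ ^ 66) ^ 2 := by ring
    rw [h1, e66]
    linear_combination (1) * hf + ((-1) * θ + θ ^ 2 + 2 * θ ^ 3 + θ ^ 5 + θ ^ 6) * h3
  have e265 : θ ^ 265 = 2 + θ ^ 2 + θ ^ 3 := by
    have h1 : θ ^ 265 = (θ ^ 132) ^ 2 * θ := by ring
    rw [h1, e132]
    linear_combination ((-1) + θ + 2 * θ ^ 3 + 2 * θ ^ 4 + θ ^ 5) * hf + (θ + 2 * θ ^ 2 + θ ^ 3 + 2 * θ ^ 4 + 3 * θ ^ 5 + 4 * θ ^ 6 + 3 * θ ^ 7 + 2 * θ ^ 8 + θ ^ 9) * h3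
  have e135 : θ ^ 135 = 2 + 2 * θ + θ ^ 3 + 2 * θ ^ 4 + θ ^ 5 := by
    have h1 : θ ^ 135 = (θ ^ 67) ^ 2 * θ := by ring
    rw [h1, e67]
    linear_combination (2 + θ + θ ^ 2 + θ ^ 3) * hf + ((-2) + (-2) * θ + (-1) * θ ^ 2 + (-1) * θ ^ 4 + θ ^ 5 + 2 * θ ^ 6 + θ ^ 8 + θ ^ 9) * h3
  have e271 : θ ^ 271 = 2 + θ + θ ^ 2 + 2 * θ ^ 4 := by
    have h1 : θ ^ 271 = (θ ^ 135) ^ 2 * θ := by ring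
    rw [h1, e135]
    linear_combination ((-1) + 2 * θ + θ ^ 2 + θ ^ 4 + θ ^ 5) * hf + (θ ^ 2 + θ ^ 3 + 3 * θ ^ 5 + 4 * θ ^ 6 + θ ^ 7 + θ ^ 8 + 2 * θ ^ 9 + θ ^ 10) * h3
  have e20 : θ ^ 20 = θ ^ 2 + 2 * θ ^ 5 := by
    have h1 : θ ^ 20 = (θ ^ 10) ^ 2 := by ring
    rw [h1, e10]
    linear_combination (θ ^ 2 + θ ^ 3 + θ ^ 4) * hf + ((-1) * θ ^ 2 + (-1) * θ ^ 3 + (-1) * θ ^ 4 + (-1) * θ ^ 5 + θ ^ 9 + θ ^ 10) * h3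
  have e41 : θ ^ 41 = 2 + θ + θ ^ 2 + 2 * θ ^ 3 + 2 * θ ^ 5 := by
    have h1 : θ ^ 41 = (θ ^ 20) ^ 2 * θ := by ring
    rw [h1, e20]
    linear_combination ((-1) + θ ^ 2 + θ ^ 5) * hf + ((-1) * θ ^ 2 + (-1) * θ ^ 3 + (-1) * θ ^ 5 + θ ^ 8 + θ ^ 11) * h3
  have e82 : θ ^ 82 = 2 * θ ^ 3 + 2 * θ ^ 5 := by
    have h1 : θ ^ 82 = (θ ^ 41) ^ 2 := by ring
    rw [h1, e41]
    linear_combination (2 + θ + 2 * θ ^ 2 + θ ^ 4) * hf + (2 * θ ^ 3 + θ ^ 4 + 3 * θ ^ 5 + 2 * θ ^ 6 + θ ^ 7 + 2 * θ ^ 8 + θ ^ 10) * h3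
  have e165 : θ ^ 165 = 2 + 2 * θ + 2 * θ ^ 2 + 2 * θ ^ 3 + θ ^ 4 + θ ^ 5 := by
    have h1 : θ ^ 165 = (θ ^ 82) ^ 2 * θ := by ring
    rw [h1, e82]
    linear_combination ((-1) + θ + 2 * θ ^ 3 + θ ^ 5) * hf + ((-1) * θ + (-1) * θ ^ 2 + (-2) * θ ^ 3 + (-1) * θ ^ 4 + (-1) * θ ^ 5 + θ ^ 7 + 2 * θ ^ 9 + θ ^ 11) * h3
  have e331 : θ ^ 331 = θ + θ ^ 2 + θ ^ 4 := by
    have h1 : θ ^ 331 = (θ ^ 165) ^ 2 * θ := by ring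
    rw [h1, e165]
    linear_combination (2 * θ ^ 2 + 2 * θ ^ 3 + 2 * θ ^ 4 + θ ^ 5) * hf + (θ + θ ^ 2 + 2 * θ ^ 3 + 3 * θ ^ 4 + 4 * θ ^ 5 + 5 * θ ^ 6 + 4 * θ ^ 7 + 2 * θ ^ 8 + θ ^ 9) * h3
  have e83 : θ ^ 83 = 2 + θ + 2 * θ ^ 4 := by
    have h1 : θ ^ 83 = (θ ^ 41) ^ 2 * θ := by ring
    rw [h1, e41]
    linear_combination ((-1) + 2 * θ + θ ^ 2 + 2 * θ ^ 3 + θ ^ 5) * hf + (2 * θ ^ 4 + θ ^ 5 + 4 * θ ^ 6 + 2 * θ ^ 7 + θ ^ 8 + 2 * θ ^ 9 + θ ^ 11) * h3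
  have e166 : θ ^ 166 = 1 + θ + 2 * θ ^ 2 + 2 * θ ^ 3 + 2 * θ ^ 4 + θ ^ 5 := by
    have h1 : θ ^ 166 = (θ ^ 83) ^ 2 := by ring
    rw [h1, e83]
    linear_combination (θ ^ 2) * hf + (1 + θ + (-1) * θ ^ 2 + (-1) * θ ^ 3 + 2 * θ ^ 4 + θ ^ 5 + θ ^ 8) * h3
  have e333 : θ ^ 333 = 1 + 2 * θ + θ ^ 3 + θ ^ 4 := by
    have h1 : θ ^ 333 = (θ ^ 166) ^ 2 * θ := by ring
    rw [h1, e166]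
    linear_combination (1 + 2 * θ + 2 * θ ^ 3 + θ ^ 4 + θ ^ 5) * hf + ((-1) + (-2) * θ + θ ^ 4 + 3 * θ ^ 5 + 4 * θ ^ 6 + 4 * θ ^ 7 + 4 * θ ^ 8 + 2 * θ ^ 9 + θ ^ 10) * h3
  have e11 : θ ^ 11 = 2 + θ + θ ^ 5 := by
    have h1 : θ ^ 11 = (θ ^ 5) ^ 2 * θ := by ring
    rw [h1, e5]
    linear_combination ((-1) + θ ^ 5) * hf + ((-1) * θ ^ 5) * h3
  have e22 : θ ^ 22 = 2 * θ + θ ^ 2 + θ ^ 4 := by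
    have h1 : θ ^ 22 = (θ ^ 11) ^ 2 := by ring
    rw [h1, e11]
    linear_combination (2 + θ ^ 4) * hf + ((-1) * θ ^ 4 + θ ^ 5) * h3
  have e44 : θ ^ 44 = 2 + θ + 2 * θ ^ 2 + θ ^ 4 + θ ^ 5 := by
    have h1 : θ ^ 44 = (θ ^ 22) ^ 2 := by ring
    rw [h1, e22]
    linear_combination (2 + θ ^ 2) * hf + ((-2) + (-1) * θ + θ ^ 3 + θ ^ 5) * h3
  have e88 : θ ^ 88 = 1 + 2 * θ + 2 * θ ^ 3 + θ ^ 4 + 2 * θ ^ 5 := by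
    have h1 : θ ^ 88 = (θ ^ 44) ^ 2 := by ring
    rw [h1, e44]
    linear_combination (θ + θ ^ 2 + 2 * θ ^ 3 + θ ^ 4) * hf + (1 + 2 * θ ^ 2 + (-1) * θ ^ 3 + θ ^ 4 + θ ^ 5 + 2 * θ ^ 6 + θ ^ 7) * h3
  have e176 : θ ^ 176 = 1 + 2 * θ + 2 * θ ^ 3 + θ ^ 4 + θ ^ 5 := by
    have h1 : θ ^ 176 = (θ ^ 88) ^ 2 := by ring
    rw [h1, e88]
    linear_combination (θ + θ ^ 3 + θ ^ 4) * hf + (θ ^ 2 + 2 * θ ^ 4 + 2 * θ ^ 5 + 4 * θ ^ 6 + θ ^ 7 + 3 * θ ^ 8 + θ ^ 9 + θ ^ 10) * h3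
  have e353 : θ ^ 353 = 2 + θ + 2 * θ ^ 3 + θ ^ 4 := by
    have h1 : θ ^ 353 = (θ ^ 176) ^ 2 * θ := by ring
    rw [h1, e176]
    linear_combination ((-1) + 2 * θ + θ ^ 2 + 2 * θ ^ 3 + 2 * θ ^ 4 + θ ^ 5) * hf + ((-1) * θ + (-1) * θ ^ 3 + (-1) * θ ^ 4 + 2 * θ ^ 5 + 2 * θ ^ 6 + 2 * θ ^ 7 + θ ^ 8 + θ ^ 9) * h3
  have e45 : θ ^ 45 = 1 + θ + θ ^ 2 + 2 * θ ^ 3 + θ ^ 5 := by
    have h1 : θ ^ 45 = (θ ^ 22) ^ 2 * θ := by ring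
    rw [h1, e22]
    linear_combination (1 + 2 * θ + θ ^ 3) * hf + ((-1) + (-2) * θ + (-1) * θ ^ 2 + θ ^ 4 + θ ^ 6) * h3
  have e91 : θ ^ 91 = 2 + 2 * θ + θ ^ 2 + 2 * θ ^ 3 + 2 * θ ^ 4 := by
    have h1 : θ ^ 91 = (θ ^ 45) ^ 2 * θ := by ring
    rw [h1, e45]
    linear_combination ((-1) + 2 * θ ^ 2 + θ ^ 3 + θ ^ 5) * hf + ((-1) * θ ^ 2 + (-1) * θ ^ 3 + θ ^ 4 + θ ^ 5 + 2 * θ ^ 6 + 2 * θ ^ 7 + θ ^ 9) * h3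
  have e182 : θ ^ 182 = 2 * θ + θ ^ 2 + 2 * θ ^ 3 + 2 * θ ^ 4 := by
    have h1 : θ ^ 182 = (θ ^ 91) ^ 2 := by ring
    rw [h1, e91]
    linear_combination (2 + 2 * θ + θ ^ 2) * hf + (θ ^ 2 + 3 * θ ^ 3 + 5 * θ ^ 4 + 4 * θ ^ 5 + 2 * θ ^ 6 + 2 * θ ^ 7 + θ ^ 8) * h3
  have e364 : θ ^ 364 = 2 := by
    have h1 : θ ^ 364 = (θ ^ 182) ^ 2 := by ring
    rw [h1, e182]
    linear_combination (2 + 2 * θ + θ ^ 2) * hf + ((-2) + (-2) * θ + θ ^ 3 + 3 * θ ^ 4 + 4 * θ ^ 5 + 2 * θ ^ 6 + 2 * θ ^ 7 + θ ^ 8) * h3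
  have e402 : θ ^ 402 = θ ^ 2 + θ ^ 3 + 2 * θ ^ 5 := by
    have h1 : θ ^ 402 = (θ ^ 201) ^ 2 := by ring
    rw [h1, e201]
    linear_combination (2 + θ ^ 2) * hf + (2 * θ + 3 * θ ^ 2 + 2 * θ ^ 3 + 4 * θ ^ 4 + 2 * θ ^ 5 + 2 * θ ^ 6 + θ ^ 8) * h3
  have e54 : θ ^ 54 = 1 + 2 * θ ^ 3 + θ ^ 4 := by
    have h1 : θ ^ 54 = (θ ^ 27) ^ 2 := by ring
    rw [h1, e27]
    linear_combination (θ + θ ^ 2) * hf + (1 + 2 * θ + 3 * θ ^ 2 + 3 * θ ^ 3 + 5 * θ ^ 4 + 4 * θ ^ 5 + 3 * θ ^ 6 + θ ^ 7 + θ ^ 8) * h3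
  have e108 : θ ^ 108 = 2 + 2 * θ ^ 4 := by
    have h1 : θ ^ 108 = (θ ^ 54) ^ 2 := by ring
    rw [h1, e54]
    linear_combination (1 + θ + θ ^ 2) * hf + ((-1) + (-1) * θ + (-1) * θ ^ 2 + θ ^ 3 + θ ^ 6 + θ ^ 7) * h3
  have e217 : θ ^ 217 = θ + θ ^ 3 + 2 * θ ^ 4 + 2 * θ ^ 5 := by
    have h1 : θ ^ 217 = (θ ^ 108) ^ 2 * θ := by ring
    rw [h1, e108]
    linear_combination (θ ^ 3) * hf + (θ + (-1) * θ ^ 3 + (-1) * θ ^ 4 + 2 * θ ^ 5 + θ ^ 9) * h3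
  have e434 : θ ^ 434 = 2 + 2 * θ + 2 * θ ^ 2 + θ ^ 4 := by
    have h1 : θ ^ 434 = (θ ^ 217) ^ 2 := by ring
    rw [h1, e217]
    linear_combination (2 + θ + 2 * θ ^ 2 + 2 * θ ^ 3 + θ ^ 4) * hf + ((-2) + (-2) * θ + (-2) * θ ^ 2 + (-2) * θ ^ 3 + (-1) * θ ^ 4 + θ ^ 5 + θ ^ 6 + θ ^ 7 + 2 * θ ^ 8 + 2 * θ ^ 9 + θ ^ 10) * h3
  have e57 : θ ^ 57 = 2 + 2 * θ + 2 * θ ^ 2 + θ ^ 3 := by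
    have h1 : θ ^ 57 = (θ ^ 28) ^ 2 * θ := by ring
    rw [h1, e28]
    linear_combination ((-1) + θ + θ ^ 4 + θ ^ 5) * hf + ((-1) * θ + (-1) * θ ^ 2 + θ ^ 3 + 2 * θ ^ 4 + 3 * θ ^ 5 + 4 * θ ^ 6 + 5 * θ ^ 7 + 4 * θ ^ 8 + 3 * θ ^ 9 + θ ^ 10 + θ ^ 11) * h3
  have e115 : θ ^ 115 = 1 + θ + θ ^ 2 + 2 * θ ^ 5 := by
    have h1 : θ ^ 115 = (θ ^ 57) ^ 2 * θ := by ring
    rw [h1, e57]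
    linear_combination (1 + θ) * hf + ((-1) + 2 * θ ^ 2 + 4 * θ ^ 3 + 4 * θ ^ 4 + 2 * θ ^ 5 + θ ^ 6) * h3
  have e231 : θ ^ 231 = 2 * θ + 2 * θ ^ 2 + 2 * θ ^ 3 + 2 * θ ^ 4 + 2 * θ ^ 5 := by
    have h1 : θ ^ 231 = (θ ^ 115) ^ 2 * θ := by ring
    rw [h1, e115]
    linear_combination (θ + θ ^ 2 + θ ^ 5) * hf + ((-1) * θ + (-1) * θ ^ 2 + (-1) * θ ^ 5 + θ ^ 6 + θ ^ 7 + θ ^ 8 + θ ^ 11) * h3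
  have e462 : θ ^ 462 = 2 + 2 * θ + θ ^ 3 + 2 * θ ^ 4 := by
    have h1 : θ ^ 462 = (θ ^ 231) ^ 2 := by ring
    rw [h1, e231]
    linear_combination (2 + θ + 2 * θ ^ 3 + θ ^ 4) * hf + ((-2) + (-2) * θ + θ ^ 2 + θ ^ 3 + 2 * θ ^ 4 + 5 * θ ^ 5 + 6 * θ ^ 6 + 5 * θ ^ 7 + 4 * θ ^ 8 + 2 * θ ^ 9 + θ ^ 10) * h3
  have e29 : θ ^ 29 = 2 + θ + 2 * θ ^ 2 + 2 * θ ^ 3 + 2 * θ ^ 4 + θ ^ 5 := by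
    have h1 : θ ^ 29 = (θ ^ 14) ^ 2 * θ := by ring
    rw [h1, e14]
    linear_combination (2 + 2 * θ ^ 2 + θ ^ 3) * hf + ((-2) + (-1) * θ + (-2) * θ ^ 2 + (-2) * θ ^ 3 + (-1) * θ ^ 4 + θ ^ 7) * h3
  have e59 : θ ^ 59 = 2 * θ ^ 2 + 2 * θ ^ 3 + 2 * θ ^ 4 + θ ^ 5 := by
    have h1 : θ ^ 59 = (θ ^ 29) ^ 2 * θ := by ring
    rw [h1, e29]
    linear_combination (2 * θ + 2 * θ ^ 3 + θ ^ 4 + θ ^ 5) * hf + (θ ^ 3 + 2 * θ ^ 4 + 4 * θ ^ 5 + 5 * θ ^ 6 + 4 * θ ^ 7 + 4 * θ ^ 8 + 2 * θ ^ 9 + θ ^ 10) * h3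
  have e119 : θ ^ 119 = 1 + 2 * θ + 2 * θ ^ 3 + 2 * θ ^ 4 + θ ^ 5 := by
    have h1 : θ ^ 119 = (θ ^ 59) ^ 2 * θ := by ring
    rw [h1, e59]
    linear_combination (1 + 2 * θ ^ 3 + θ ^ 4 + θ ^ 5) * hf + ((-1) + (-1) * θ + (-2) * θ ^ 3 + (-2) * θ ^ 4 + 2 * θ ^ 6 + 4 * θ ^ 7 + 4 * θ ^ 8 + 2 * θ ^ 9 + θ ^ 10) * h3
  have e239 : θ ^ 239 = θ ^ 2 + θ ^ 3 := by
    have h1 : θ ^ 239 = (θ ^ 119) ^ 2 * θ := by ring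
    rw [h1, e119]
    linear_combination (2 * θ + 2 * θ ^ 2 + 2 * θ ^ 3 + θ ^ 4 + θ ^ 5) * hf + ((-1) * θ + (-1) * θ ^ 2 + (-1) * θ ^ 3 + 3 * θ ^ 5 + 3 * θ ^ 6 + 2 * θ ^ 7 + 2 * θ ^ 8 + 2 * θ ^ 9 + θ ^ 10) * h3
  have e478 : θ ^ 478 = 1 + 2 * θ + θ ^ 4 + 2 * θ ^ 5 := by
    have h1 : θ ^ 478 = (θ ^ 239) ^ 2 := by ring
    rw [h1, e239]
    linear_combination (1) * hf + ((-1) + (-1) * θ) * h3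
  have e510 : θ ^ 510 = 2 + 2 * θ ^ 4 + θ ^ 5 := by
    have h1 : θ ^ 510 = (θ ^ 255) ^ 2 := by ring
    rw [h1, e255]
    linear_combination (1 + 2 * θ + θ ^ 2) * hf + ((-1) + (-1) * θ + (-1) * θ ^ 2 + θ ^ 3 + 2 * θ ^ 4 + θ ^ 5 + θ ^ 6 + 2 * θ ^ 7 + θ ^ 8) * h3
  have e530 : θ ^ 530 = 2 + 2 * θ + θ ^ 2 + θ ^ 3 + θ ^ 4 + 2 * θ ^ 5 := by
    have h1 : θ ^ 530 = (θ ^ 265) ^ 2 := by ring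
    rw [h1, e265]
    linear_combination (1) * hf + ((-1) * θ + θ ^ 2 + θ ^ 3) * h3
  have e542 : θ ^ 542 = 2 + θ ^ 3 + θ ^ 5 := by
    have h1 : θ ^ 542 = (θ ^ 271) ^ 2 := by ring
    rw [h1, e271]
    linear_combination (1 + θ ^ 2) * hf + (θ + θ ^ 2 + 3 * θ ^ 4 + θ ^ 5 + θ ^ 6 + θ ^ 8) * h3
  have e75 : θ ^ 75 = 1 + 2 * θ ^ 2 + 2 * θ ^ 3 + θ ^ 4 + θ ^ 5 := by
    have h1 : θ ^ 75 = (θ ^ 37) ^ 2 * θ := by ring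
    rw [h1, e37]
    linear_combination (1 + θ + θ ^ 3) * hf + ((-1) + (-1) * θ + (-1) * θ ^ 2 + 2 * θ ^ 4 + θ ^ 5 + θ ^ 6 + θ ^ 7) * h3
  have e150 : θ ^ 150 = θ ^ 2 + θ ^ 3 + 2 * θ ^ 4 := by
    have h1 : θ ^ 150 = (θ ^ 75) ^ 2 := by ring
    rw [h1, e75]
    linear_combination (2 + 2 * θ + 2 * θ ^ 2 + 2 * θ ^ 3 + θ ^ 4) * hf + ((-1) + (-2) * θ + (-1) * θ ^ 2 + (-1) * θ ^ 3 + 3 * θ ^ 5 + 2 * θ ^ 6 + 2 * θ ^ 7 + θ ^ 8) * h3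
  have e301 : θ ^ 301 = 2 + 2 * θ ^ 2 + 2 * θ ^ 4 + θ ^ 5 := by
    have h1 : θ ^ 301 = (θ ^ 150) ^ 2 * θ := by ring
    rw [h1, e150]
    linear_combination (2 + 2 * θ + θ ^ 2 + θ ^ 3) * hf + ((-2) + (-2) * θ + (-2) * θ ^ 2 + (-1) * θ ^ 3 + (-1) * θ ^ 4 + θ ^ 7 + θ ^ 8 + θ ^ 9) * h3
  have e603 : θ ^ 603 = 2 * θ ^ 2 + 2 * θ ^ 3 := by
    have h1 : θ ^ 603 = (θ ^ 301) ^ 2 * θ := by ring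
    rw [h1, e301]
    linear_combination (2 * θ + θ ^ 2 + θ ^ 3 + θ ^ 4 + θ ^ 5) * hf + ((-2) * θ ^ 2 + θ ^ 3 + (-1) * θ ^ 4 + 3 * θ ^ 5 + θ ^ 6 + 2 * θ ^ 7 + θ ^ 8 + θ ^ 9 + θ ^ 10) * h3
  have e19 : θ ^ 19 = θ + 2 * θ ^ 4 := by
    have h1 : θ ^ 19 = (θ ^ 9) ^ 2 * θ := by ring
    rw [h1, e9]
    linear_combination (θ + θ ^ 2 + θ ^ 3) * hf + ((-1) * θ + (-1) * θ ^ 2 + (-1) * θ ^ 3 + (-1) * θ ^ 4 + θ ^ 8 + θ ^ 9) * h3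
  have e39 : θ ^ 39 = 1 + 2 * θ + 2 * θ ^ 3 + 2 * θ ^ 4 := by
    have h1 : θ ^ 39 = (θ ^ 19) ^ 2 * θ := by ring
    rw [h1, e19]
    linear_combination (1 + θ ^ 3) * hf + ((-1) + (-1) * θ + (-1) * θ ^ 3 + (-1) * θ ^ 4 + θ ^ 6 + θ ^ 9) * h3
  have e79 : θ ^ 79 = 2 + 2 * θ ^ 2 := by
    have h1 : θ ^ 79 = (θ ^ 39) ^ 2 * θ := by ring
    rw [h1, e39]
    linear_combination (2 + θ + 2 * θ ^ 2 + θ ^ 3) * hf + ((-2) + (-1) * θ + (-1) * θ ^ 2 + θ ^ 4 + 4 * θ ^ 5 + 2 * θ ^ 6 + θ ^ 7 + 2 * θ ^ 8 + θ ^ 9) * h3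
  have e158 : θ ^ 158 = 1 + 2 * θ ^ 2 + θ ^ 4 := by
    have h1 : θ ^ 158 = (θ ^ 79) ^ 2 := by ring
    rw [h1, e79]
    linear_combination (0) * hf + (1 + 2 * θ ^ 2 + θ ^ 4) * h3
  have e317 : θ ^ 317 = 2 * θ + 2 * θ ^ 2 + 2 * θ ^ 3 + 2 * θ ^ 4 := by
    have h1 : θ ^ 317 = (θ ^ 158) ^ 2 * θ := by ring
    rw [h1, e158]
    linear_combination (θ + θ ^ 3) * hf + ((-1) * θ + (-1) * θ ^ 2 + (-1) * θ ^ 4 + 2 * θ ^ 5 + θ ^ 7) * h3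
  have e635 : θ ^ 635 = 1 + 2 * θ + 2 * θ ^ 2 + θ ^ 4 := by
    have h1 : θ ^ 635 = (θ ^ 317) ^ 2 * θ := by ring
    rw [h1, e317]
    linear_combination (1 + 2 * θ ^ 2 + θ ^ 3) * hf + ((-1) + (-1) * θ + (-2) * θ ^ 2 + 2 * θ ^ 4 + 4 * θ ^ 5 + 5 * θ ^ 6 + 4 * θ ^ 7 + 2 * θ ^ 8 + θ ^ 9) * h3
  have e662 : θ ^ 662 = 2 + θ + 2 * θ ^ 2 + θ ^ 3 + θ ^ 4 + 2 * θ ^ 5 := by
    have h1 : θ ^ 662 = (θ ^ 331) ^ 2 := by ring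
    rw [h1, e331]
    linear_combination (2 + θ ^ 2) * hf + ((-2) + (-1) * θ + (-1) * θ ^ 2) * h3
  have e666 : θ ^ 666 = 2 + 2 * θ + θ ^ 3 + θ ^ 5 := by
    have h1 : θ ^ 666 = (θ ^ 333) ^ 2 := by ring
    rw [h1, e333]
    linear_combination (1 + 2 * θ + θ ^ 2) * hf + ((-1) + (-1) * θ + 2 * θ ^ 4 + θ ^ 5) * h3
  have e706 : θ ^ 706 = 2 + θ + θ ^ 2 + θ ^ 3 + 2 * θ ^ 4 + 2 * θ ^ 5 := by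
    have h1 : θ ^ 706 = (θ ^ 353) ^ 2 := by ring
    rw [h1, e353]
    linear_combination (1 + θ + θ ^ 2) * hf + ((-1) * θ ^ 2 + 2 * θ ^ 3 + 2 * θ ^ 4 + θ ^ 6 + θ ^ 7) * h3
  have e89 : θ ^ 89 = 2 + 2 * θ + 2 * θ ^ 2 + 2 * θ ^ 4 + θ ^ 5 := by
    have h1 : θ ^ 89 = (θ ^ 44) ^ 2 * θ := by ring
    rw [h1, e44]
    linear_combination ((-1) + θ ^ 2 + θ ^ 3 + 2 * θ ^ 4 + θ ^ 5) * hf + (θ + 2 * θ ^ 3 + (-1) * θ ^ 4 + θ ^ 5 + 2 * θ ^ 6 + 2 * θ ^ 7 + θ ^ 8) * h3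
  have e179 : θ ^ 179 = 2 + 2 * θ + 2 * θ ^ 4 := by
    have h1 : θ ^ 179 = (θ ^ 89) ^ 2 * θ := by ring
    rw [h1, e89]
    linear_combination ((-1) + θ ^ 2 + θ ^ 3 + θ ^ 4 + θ ^ 5) * hf + (θ + 2 * θ ^ 2 + 3 * θ ^ 3 + θ ^ 4 + 3 * θ ^ 5 + 4 * θ ^ 6 + 4 * θ ^ 7 + θ ^ 8 + θ ^ 9 + θ ^ 10) * h3
  have e358 : θ ^ 358 = 1 + 2 * θ + 2 * θ ^ 2 + 2 * θ ^ 3 + 2 * θ ^ 4 + 2 * θ ^ 5 := by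
    have h1 : θ ^ 358 = (θ ^ 179) ^ 2 := by ring
    rw [h1, e179]
    linear_combination (θ ^ 2) * hf + (1 + 2 * θ + (-1) * θ ^ 3 + 2 * θ ^ 4 + 2 * θ ^ 5 + θ ^ 8) * h3
  have e717 : θ ^ 717 = 1 + 2 * θ + θ ^ 3 + 2 * θ ^ 4 := by
    have h1 : θ ^ 717 = (θ ^ 358) ^ 2 * θ := by ring
    rw [h1, e358]
    linear_combination (1 + 2 * θ + θ ^ 2 + 2 * θ ^ 4 + θ ^ 5) * hf + ((-1) + (-2) * θ + 2 * θ ^ 3 + 2 * θ ^ 4 + 4 * θ ^ 5 + 6 * θ ^ 6 + 6 * θ ^ 7 + 5 * θ ^ 8 + 4 * θ ^ 9 + 2 * θ ^ 10 + θ ^ 11) * h3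
  have e728 : θ ^ 728 = 1 := by
    have h1 : θ ^ 728 = (θ ^ 364) ^ 2 := by ring
    rw [h1, e364]
    linear_combination (0) * hf + (1) * h3
  have ta_0 : (θ ^ 67) ^ 3 ^ 0 = 2 * θ + θ ^ 3 + 2 * θ ^ 4 := by
    have h1 : (θ ^ 67) ^ 3 ^ 0 = (θ ^ 728) ^ 0 * θ ^ 67 := by
      ring
    rw [h1, e728, e67, one_pow, one_mul]
  have ta_1 : (θ ^ 67) ^ 3 ^ 1 = 2 + 2 * θ + 2 * θ ^ 2 + 2 * θ ^ 4 := by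
    have h1 : (θ ^ 67) ^ 3 ^ 1 = (θ ^ 728) ^ 0 * θ ^ 201 := by
      ring
    rw [h1, e728, e201, one_pow, one_mul]
  have ta_2 : (θ ^ 67) ^ 3 ^ 2 = 2 * θ ^ 2 + 2 * θ ^ 3 := by
    have h1 : (θ ^ 67) ^ 3 ^ 2 = (θ ^ 728) ^ 0 * θ ^ 603 := by
      ring
    rw [h1, e728, e603, one_pow, one_mul]
  have ta_3 : (θ ^ 67) ^ 3 ^ 3 = 2 + θ + 2 * θ ^ 3 + θ ^ 4 := by
    have h1 : (θ ^ 67) ^ 3 ^ 3 = (θ ^ 728) ^ 2 * θ ^ 353 := by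
      ring
    rw [h1, e728, e353, one_pow, one_mul]
  have ta_4 : (θ ^ 67) ^ 3 ^ 4 = θ + θ ^ 2 + θ ^ 4 := by
    have h1 : (θ ^ 67) ^ 3 ^ 4 = (θ ^ 728) ^ 7 * θ ^ 331 := by
      ring
    rw [h1, e728, e331, one_pow, one_mul]
  have ta_5 : (θ ^ 67) ^ 3 ^ 5 = 2 + θ ^ 2 + θ ^ 3 := by
    have h1 : (θ ^ 67) ^ 3 ^ 5 = (θ ^ 728) ^ 22 * θ ^ 265 := by
      ring
    rw [h1, e728, e265, one_pow, one_mul]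
  have ta : ∑ i ∈ Finset.range 6, (θ ^ 67) ^ 3 ^ i = 0 := by
    simp only [Finset.sum_range_succ, Finset.sum_range_zero, ta_0, ta_1, ta_2, ta_3, ta_4, ta_5]
    linear_combination (2 + 2 * θ + 2 * θ ^ 2 + 2 * θ ^ 3 + 2 * θ ^ 4) * h3
  have tb_0 : ((θ ^ 67) ^ 2) ^ 3 ^ 0 = 1 + θ ^ 2 + 2 * θ ^ 3 + θ ^ 4 + 2 * θ ^ 5 := by
    have h1 : ((θ ^ 67) ^ 2) ^ 3 ^ 0 = (θ ^ 728) ^ 0 * θ ^ 134 := by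
      ring
    rw [h1, e728, e134, one_pow, one_mul]
  have tb_1 : ((θ ^ 67) ^ 2) ^ 3 ^ 1 = θ ^ 2 + θ ^ 3 + 2 * θ ^ 5 := by
    have h1 : ((θ ^ 67) ^ 2) ^ 3 ^ 1 = (θ ^ 728) ^ 0 * θ ^ 402 := by
      ring
    rw [h1, e728, e402, one_pow, one_mul]
  have tb_2 : ((θ ^ 67) ^ 2) ^ 3 ^ 2 = 1 + 2 * θ + θ ^ 4 + 2 * θ ^ 5 := by
    have h1 : ((θ ^ 67) ^ 2) ^ 3 ^ 2 = (θ ^ 728) ^ 1 * θ ^ 478 := by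
      ring
    rw [h1, e728, e478, one_pow, one_mul]
  have tb_3 : ((θ ^ 67) ^ 2) ^ 3 ^ 3 = 2 + θ + θ ^ 2 + θ ^ 3 + 2 * θ ^ 4 + 2 * θ ^ 5 := by
    have h1 : ((θ ^ 67) ^ 2) ^ 3 ^ 3 = (θ ^ 728) ^ 4 * θ ^ 706 := by
      ring
    rw [h1, e728, e706, one_pow, one_mul]
  have tb_4 : ((θ ^ 67) ^ 2) ^ 3 ^ 4 = 2 + θ + 2 * θ ^ 2 + θ ^ 3 + θ ^ 4 + 2 * θ ^ 5 := by
    have h1 : ((θ ^ 67) ^ 2) ^ 3 ^ 4 = (θ ^ 728) ^ 14 * θ ^ 662 := by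
      ring
    rw [h1, e728, e662, one_pow, one_mul]
  have tb_5 : ((θ ^ 67) ^ 2) ^ 3 ^ 5 = 2 + 2 * θ + θ ^ 2 + θ ^ 3 + θ ^ 4 + 2 * θ ^ 5 := by
    have h1 : ((θ ^ 67) ^ 2) ^ 3 ^ 5 = (θ ^ 728) ^ 44 * θ ^ 530 := by
      ring
    rw [h1, e728, e530, one_pow, one_mul]
  have tb : ∑ i ∈ Finset.range 6, ((θ ^ 67) ^ 2) ^ 3 ^ i = 2 := by
    simp only [Finset.sum_range_succ, Finset.sum_range_zero, tb_0, tb_1, tb_2, tb_3, tb_4, tb_5]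
    linear_combination (2 + 2 * θ + 2 * θ ^ 2 + 2 * θ ^ 3 + 2 * θ ^ 4 + 4 * θ ^ 5) * h3
  have tc_0 : (θ ^ 37) ^ 3 ^ 0 = 2 * θ + 2 * θ ^ 2 + θ ^ 4 := by
    have h1 : (θ ^ 37) ^ 3 ^ 0 = (θ ^ 728) ^ 0 * θ ^ 37 := by
      ring
    rw [h1, e728, e37, one_pow, one_mul]
  have tc_1 : (θ ^ 37) ^ 3 ^ 1 = 2 * θ + θ ^ 2 + 2 * θ ^ 3 := by
    have h1 : (θ ^ 37) ^ 3 ^ 1 = (θ ^ 728) ^ 0 * θ ^ 111 := by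
      ring
    rw [h1, e728, e111, one_pow, one_mul]
  have tc_2 : (θ ^ 37) ^ 3 ^ 2 = 1 + 2 * θ + θ ^ 3 + θ ^ 4 := by
    have h1 : (θ ^ 37) ^ 3 ^ 2 = (θ ^ 728) ^ 0 * θ ^ 333 := by
      ring
    rw [h1, e728, e333, one_pow, one_mul]
  have tc_3 : (θ ^ 37) ^ 3 ^ 3 = 2 + θ + θ ^ 2 + 2 * θ ^ 4 := by
    have h1 : (θ ^ 37) ^ 3 ^ 3 = (θ ^ 728) ^ 1 * θ ^ 271 := by
      ring
    rw [h1, e728, e271, one_pow, one_mul]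
  have tc_4 : (θ ^ 37) ^ 3 ^ 4 = 2 + θ + 2 * θ ^ 2 + θ ^ 3 := by
    have h1 : (θ ^ 37) ^ 3 ^ 4 = (θ ^ 728) ^ 4 * θ ^ 85 := by
      ring
    rw [h1, e728, e85, one_pow, one_mul]
  have tc_5 : (θ ^ 37) ^ 3 ^ 5 = 1 + θ + 2 * θ ^ 3 + 2 * θ ^ 4 := by
    have h1 : (θ ^ 37) ^ 3 ^ 5 = (θ ^ 728) ^ 12 * θ ^ 255 := by
      ring
    rw [h1, e728, e255, one_pow, one_mul]
  have tc : ∑ i ∈ Finset.range 6, (θ ^ 37) ^ 3 ^ i = 0 := by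
    simp only [Finset.sum_range_succ, Finset.sum_range_zero, tc_0, tc_1, tc_2, tc_3, tc_4, tc_5]
    linear_combination (2 + 3 * θ + 2 * θ ^ 2 + 2 * θ ^ 3 + 2 * θ ^ 4) * h3
  have td_0 : ((θ ^ 37) ^ 2) ^ 3 ^ 0 = 1 + 2 * θ + 2 * θ ^ 2 + θ ^ 3 + θ ^ 4 + θ ^ 5 := by
    have h1 : ((θ ^ 37) ^ 2) ^ 3 ^ 0 = (θ ^ 728) ^ 0 * θ ^ 74 := by
      ring
    rw [h1, e728, e74, one_pow, one_mul]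
  have td_1 : ((θ ^ 37) ^ 2) ^ 3 ^ 1 = 1 + 2 * θ + θ ^ 2 + θ ^ 3 + θ ^ 5 := by
    have h1 : ((θ ^ 37) ^ 2) ^ 3 ^ 1 = (θ ^ 728) ^ 0 * θ ^ 222 := by
      ring
    rw [h1, e728, e222, one_pow, one_mul]
  have td_2 : ((θ ^ 37) ^ 2) ^ 3 ^ 2 = 2 + 2 * θ + θ ^ 3 + θ ^ 5 := by
    have h1 : ((θ ^ 37) ^ 2) ^ 3 ^ 2 = (θ ^ 728) ^ 0 * θ ^ 666 := by
      ring
    rw [h1, e728, e666, one_pow, one_mul]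
  have td_3 : ((θ ^ 37) ^ 2) ^ 3 ^ 3 = 2 + θ ^ 3 + θ ^ 5 := by
    have h1 : ((θ ^ 37) ^ 2) ^ 3 ^ 3 = (θ ^ 728) ^ 2 * θ ^ 542 := by
      ring
    rw [h1, e728, e542, one_pow, one_mul]
  have td_4 : ((θ ^ 37) ^ 2) ^ 3 ^ 4 = 2 + 2 * θ ^ 3 + θ ^ 5 := by
    have h1 : ((θ ^ 37) ^ 2) ^ 3 ^ 4 = (θ ^ 728) ^ 8 * θ ^ 170 := by
      ring
    rw [h1, e728, e170, one_pow, one_mul]
  have td_5 : ((θ ^ 37) ^ 2) ^ 3 ^ 5 = 2 + 2 * θ ^ 4 + θ ^ 5 := by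
    have h1 : ((θ ^ 37) ^ 2) ^ 3 ^ 5 = (θ ^ 728) ^ 24 * θ ^ 510 := by
      ring
    rw [h1, e728, e510, one_pow, one_mul]
  have td : ∑ i ∈ Finset.range 6, ((θ ^ 37) ^ 2) ^ 3 ^ i = 1 := by
    simp only [Finset.sum_range_succ, Finset.sum_range_zero, td_0, td_1, td_2, td_3, td_4, td_5]
    linear_combination (3 + 2 * θ + θ ^ 2 + 2 * θ ^ 3 + θ ^ 4 + 2 * θ ^ 5) * h3
  exact ⟨by rw [e717, e67]; linear_combination (0) * h3,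
    by rw [e462, e67]; linear_combination (0) * h3,
    by rw [e635, e37]; linear_combination (0) * h3,
    by rw [e434, e37]; linear_combination (0) * h3,
    e364, e728, ⟨1 + θ ^ 2 + 2 * θ ^ 3 + θ ^ 4, by rw [e56]; linear_combination (1 + 2 * θ + θ ^ 2 + 2 * θ ^ 3) * hf + ((-1) + (-1) * θ + (-1) * θ ^ 2 + (-1) * θ ^ 3 + θ ^ 4 + 2 * θ ^ 5 + θ ^ 8) * h3⟩,
    ⟨2 + 2 * θ ^ 2 + 2 * θ ^ 3 + θ ^ 4, by rw [e104]; linear_combination (1 + θ + 2 * θ ^ 3) * hf + ((-1) + (-1) * θ + θ ^ 2 + 2 * θ ^ 4 + 4 * θ ^ 5 + 3 * θ ^ 6 + 3 * θ ^ 7 + 2 * θ ^ 8) * h3⟩, ta, tb, tc, td⟩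

end Q248.Bose729
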