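import Mathlib
import Pool.Agent.Q248.Bose729

/-!
Auxiliary results for MP_50e481: the field with 729 elements.
-/

namespace Q248.Bose729

open Finset

theorem two_ne {K : Type} [Field K] [Algebra (ZMod 3) K] : (2 : K) ≠ 1 := by
  intro h
  have : (1 : K) = 0 := by linear_combination h
  exact one_ne_zero this

theorem three_eq {K : Type} [Field K] [Algebra (ZMod 3) K] : (3 : K) = 0 := by
  have h := congrArg (algebraMap (ZMod 3) K) (show (3 : ZMod 3) = 0 from by decide)
  rwa [map_ofNat, map_zero] at h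

theorem order_aux {K : Type} [Field K] [Algebra (ZMod 3) K] {θ : K} (hf : θ ^ 6 + θ + 2 = 0) :
    orderOf θ = 728 := by
  obtain ⟨_, _, _, _, e364, e728, ⟨B, hB⟩, ⟨B', hB'⟩, _⟩ := powers θ hf three_eq
  apply orderOf_eq_of_pow_and_pow_div_prime (by norm_num) e728
  intro p hp hd
  have h1 : p ∣ 2 ^ 3 * 7 * 13 := by norm_num; exact hd
  rcases (Nat.Prime.dvd_mul hp).1 h1 with h2 | h2
  · rcases (Nat.Prime.dvd_mul hp).1 h2 with h3 | h3
    · have h4 := (Nat.prime_dvd_prime_iff_eq hp Nat.prime_two).1 (hp.dvd_of_dvd_pow h3)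
      subst h4
      norm_num
      rw [e364]
      exact two_ne
    · have h4 := (Nat.prime_dvd_prime_iff_eq hp (by norm_num)).1 h3
      subst h4
      norm_num
      intro h
      rw [h] at hB'
      simp at hB'
  · have h4 := (Nat.prime_dvd_prime_iff_eq hp (by norm_num)).1 h2
    subst h4
    norm_num
    intro h
    rw [h] at hB
    simp at hB

theorem six_le {K : Type} [Field K] [Algebra (ZMod 3) K] {y : K} (hy : IsIntegral (ZMod 3) y)
    (ho : orderOf y = 728) : 6 ≤ (minpoly (ZMod 3) y).natDegree := by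
  set L := IntermediateField.adjoin (ZMod 3) {y} with hL
  have hrank : Module.finrank (ZMod 3) L = (minpoly (ZMod 3) y).natDegree :=
    IntermediateField.adjoin.finrank hy
  have hpos : 0 < (minpoly (ZMod 3) y).natDegree := minpoly.natDegree_pos hy
  have hfd : FiniteDimensional (ZMod 3) L := Module.finite_of_finrank_pos (by omega)
  have hfin : Finite L := Module.finite_of_finite (ZMod 3)
  have : Fintype L := Fintype.ofFinite L
  have hcard : Fintype.card L = 3 ^ (minpoly (ZMod 3) y).natDegree := by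
    rw [Module.card_eq_pow_finrank (K := ZMod 3), hrank, ZMod.card]
  have hmem : y ∈ L := IntermediateField.mem_adjoin_simple_self _ y
  set z : L := ⟨y, hmem⟩ with hz
  have hoz : orderOf z = 728 := by
    rw [← ho]
    exact (orderOf_injective (L.val : L →* K) L.val.injective z).symm ▸ rfl
  have hz0 : z ≠ 0 := by
    intro h
    rw [h, orderOf_zero] at hoz
    norm_num at hoz
  have h1 := orderOf_dvd_of_pow_eq_one (FiniteField.pow_card_sub_one_eq_one z hz0)
  rw [hoz, hcard] at h1
  by_contra hlt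
  push Not at hlt
  interval_cases (minpoly (ZMod 3) y).natDegree <;> norm_num at h1

theorem exists_field : ∃ (K : Type) (_ : Field K) (_ : Algebra (ZMod 3) K) (θ : K),
    Module.finrank (ZMod 3) K = 6 ∧ θ ^ 6 + θ + 2 = 0 := by
  set f : Polynomial (ZMod 3) := Polynomial.X ^ 6 + Polynomial.X + Polynomial.C 2 with hf
  have hdeg : f.natDegree = 6 := by
    rw [hf]; compute_degree!
  have hdeg' : f.degree ≠ 0 := by
    intro h
    rw [Polynomial.natDegree_eq_of_degree_eq_some h] at hdeg
    norm_num at hdeg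
  obtain ⟨α, hα⟩ := IsAlgClosed.exists_aeval_eq_zero (AlgebraicClosure (ZMod 3)) f hdeg'
  have hint : IsIntegral (ZMod 3) α := (AlgebraicClosure.isAlgebraic _).isIntegral.isIntegral α
  set L := IntermediateField.adjoin (ZMod 3) {α} with hL
  have hrank : Module.finrank (ZMod 3) L = (minpoly (ZMod 3) α).natDegree :=
    IntermediateField.adjoin.finrank hint
  have hf0 : f ≠ 0 := by
    intro h
    rw [h] at hdeg
    simp at hdeg
  have hle : (minpoly (ZMod 3) α).natDegree ≤ 6 := by
    rw [← hdeg]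
    exact Polynomial.natDegree_le_of_dvd (minpoly.dvd _ _ hα) hf0
  have hα6 : α ^ 6 + α + 2 = 0 := by
    have := hα
    rw [hf] at this
    simp only [map_add, map_pow, Polynomial.aeval_X, map_ofNat] at this
    exact this
  have hge := six_le hint (order_aux hα6)
  have hmem : α ∈ L := IntermediateField.mem_adjoin_simple_self _ α
  refine ⟨L, inferInstance, inferInstance, ⟨α, hmem⟩, by omega, ?_⟩
  apply Subtype.ext
  exact hα6

section fixed

variable {K : Type} [Field K] [Algebra (ZMod 3) K] {θ : K}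

theorem card_eq (hr : Module.finrank (ZMod 3) K = 6) : Nat.card K = 729 := by
  have hfd : FiniteDimensional (ZMod 3) K := Module.finite_of_finrank_pos (by omega)
  have hfin : Finite K := Module.finite_of_finite (ZMod 3)
  have : Fintype K := Fintype.ofFinite K
  rw [Nat.card_eq_fintype_card, Module.card_eq_pow_finrank (K := ZMod 3), hr, ZMod.card]
  norm_num

theorem gen_of_order (hr : Module.finrank (ZMod 3) K = 6) (ho : orderOf θ = 728) (hθ : θ ≠ 0) :
    ∀ x : K, x ≠ 0 → ∃ n : ℕ, θ ^ n = x := by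
  classical
  have hc := card_eq hr
  have hfin : Finite K := Nat.finite_of_card_ne_zero (by rw [hc]; norm_num)
  have : Fintype K := Fintype.ofFinite K
  rw [Nat.card_eq_fintype_card] at hc
  have h1 : ((range 728).image (fun n => θ ^ n)).card = 728 := by
    rw [card_image_of_injOn, card_range]
    intro a ha b hb hab
    rw [coe_range, Set.mem_Iio] at ha hb
    exact pow_injOn_Iio_orderOf (by rw [Set.mem_Iio, ho]; exact ha)
      (by rw [Set.mem_Iio, ho]; exact hb) hab
  have h2 : (range 728).image (fun n => θ ^ n) = univ.erase 0 := by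
    apply eq_of_subset_of_card_le
    · intro x hx
      obtain ⟨n, _, rfl⟩ := mem_image.1 hx
      rw [mem_erase]
      exact ⟨pow_ne_zero _ hθ, mem_univ _⟩
    · rw [h1, card_erase_of_mem (mem_univ _), card_univ, hc]
  intro x hx
  have : x ∈ (range 728).image (fun n => θ ^ n) := by
    rw [h2, mem_erase]
    exact ⟨hx, mem_univ _⟩
  obtain ⟨n, _, h⟩ := mem_image.1 this
  exact ⟨n, h⟩

theorem pow_729 (hr : Module.finrank (ZMod 3) K = 6) (x : K) : x ^ 729 = x := by
  have hc := card_eq hr
  have hfin : Finite K := Nat.finite_of_card_ne_zero (by rw [hc]; norm_num)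
  have : Fintype K := Fintype.ofFinite K
  rw [Nat.card_eq_fintype_card] at hc
  rw [← hc]
  exact FiniteField.pow_card x

/-- The invariant. -/
def P (x : K) : Prop :=
  (∑ i ∈ range 6, x ^ 3 ^ i = 0) ∧ (∑ i ∈ range 6, (x ^ 2) ^ 3 ^ i = 1)

omit [Algebra (ZMod 3) K] in
theorem P_neg {x : K} (h : P x) : P (-x) := by
  refine ⟨?_, ?_⟩
  · rw [← neg_zero, ← h.1, ← sum_neg_distrib]
    apply sum_congr rfl
    intro i _
    exact Odd.neg_pow (Odd.pow (by decide)) x
  · rw [neg_sq]; exact h.2

theorem P_add {x : K} (h : P x) (v : ZMod 3) : P (x + algebraMap (ZMod 3) K v) := by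
  have h3 : (3 : K) = 0 := three_eq
  have hchar : CharP K 3 := (Algebra.charP_iff (ZMod 3) K 3).1 inferInstance
  have hfact : Fact (Nat.Prime 3) := ⟨Nat.prime_three⟩
  have hexp : ExpChar K 3 := ExpChar.prime Nat.prime_three
  have hv : ∀ i : ℕ, (algebraMap (ZMod 3) K v) ^ 3 ^ i = algebraMap (ZMod 3) K v := by
    intro i
    rw [← map_pow, ZMod.pow_card_pow]
  have e : ∀ i : ℕ, (x + algebraMap (ZMod 3) K v) ^ 3 ^ i = x ^ 3 ^ i + algebraMap (ZMod 3) K v := by
    intro i
    rw [add_pow_expChar_pow, hv]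
  set w := algebraMap (ZMod 3) K v with hw
  obtain ⟨h1, h2⟩ := h
  refine ⟨?_, ?_⟩
  · simp only [e]
    rw [sum_add_distrib, h1, sum_const, card_range, zero_add, nsmul_eq_mul]
    push_cast
    linear_combination 2 * w * h3
  · have e2 : ∀ i : ℕ, ((x + w) ^ 2) ^ 3 ^ i = (x ^ 2) ^ 3 ^ i + 2 * w * x ^ 3 ^ i + w ^ 2 := by
      intro i
      rw [← pow_mul, mul_comm 2 (3 ^ i), pow_mul, e, ← pow_mul x 2 (3 ^ i), mul_comm 2 (3 ^ i),
        pow_mul x (3 ^ i) 2]
      ring
    simp only [e2]
    rw [sum_add_distrib, sum_add_distrib, h2, ← mul_sum, h1, sum_const, card_range, nsmul_eq_mul]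
    push_cast
    linear_combination 2 * w ^ 2 * h3

theorem P_frob (hr : Module.finrank (ZMod 3) K = 6) (x : K) : P (x ^ 3) ↔ P x := by
  have key : ∀ y : K, ∑ i ∈ range 6, (y ^ 3) ^ 3 ^ i = ∑ i ∈ range 6, y ^ 3 ^ i := by
    intro y
    have h1 : ∀ i : ℕ, (y ^ 3) ^ 3 ^ i = y ^ 3 ^ (i + 1) := by
      intro i
      rw [← pow_mul, pow_succ, mul_comm]
    simp only [h1]
    have h2 := sum_range_succ (fun i => y ^ 3 ^ i) 6
    rw [sum_range_succ'] at h2
    have h3 : y ^ 3 ^ 6 = y := by
      rw [show 3 ^ 6 = 729 by norm_num]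
      exact pow_729 hr y
    rw [h3, pow_zero, pow_one] at h2
    exact add_right_cancel h2
  unfold P
  have h4 : (x ^ 3) ^ 2 = (x ^ 2) ^ 3 := by ring
  rw [key, h4, key]

theorem P_frob_pow (hr : Module.finrank (ZMod 3) K = 6) (x : K) (i : ℕ) : P (x ^ 3 ^ i) ↔ P x := by
  induction i with
  | zero => rw [pow_zero, pow_one]
  | succ i ih => rw [pow_succ, pow_mul, P_frob hr, ih]

end fixed

end Q248.Bose729
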