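import Mathlib

/-!
Auxiliary results for MP_cb32b9: the recursion and the two certificates.
-/

namespace Q248.Golomb

/-- The sequence `0, 1, u, ...` with `H (j + 2) = u H (j + 1) - e H j`. -/
def H {R : Type} [CommRing R] (u e : R) : ℕ → R
  | 0 => 0
  | 1 => 1
  | (j + 2) => u * H u e (j + 1) - e * H u e j

variable {R : Type} [CommRing R]

theorem certA (u : R) (h10 : (1) + (-8)*u^2 + (-20)*u^3 + (-26)*u^4 + (-20)*u^5 + (-9)*u^6 + (-2)*u^7 = 0) (h23 : (1) + (11)*u + (60)*u^2 + (55)*u^3 + (-635)*u^4 + (-3168)*u^5 + (-7718)*u^6 + (-11418)*u^7 + (-9176)*u^8 + (1474)*u^9 + (16314)*u^10 + (26840)*u^11 + (27472)*u^12 + (19834)*u^13 + (10064)*u^14 + (3133)*u^15 + (119)*u^16 + (-464)*u^17 + (-273)*u^18 + (-83)*u^19 + (-14)*u^20 + (-1)*u^21 = 0) : (13 : R) = 0 := by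
  linear_combination ((51) + (456)*u + (2846)*u^2 + (5605)*u^3 + (-11317)*u^4 + (-85316)*u^5 + (-213442)*u^6 + (-291693)*u^7 + (-174350)*u^8 + (153009)*u^9 + (503787)*u^10 + (648904)*u^11 + (532332)*u^12 + (291423)*u^13 + (93762)*u^14 + (2587)*u^15 + (-14505)*u^16 + (-7870)*u^17 + (-2095)*u^18 + (-278)*u^19 + (-14)*u^20) * h10 + ((-38) + (-38)*u + (260)*u^2 + (573)*u^3 + (588)*u^4 + (290)*u^5 + (28)*u^6) * h23

theorem certB (u : R) (h23 : (1) + (11)*u + (60)*u^2 + (55)*u^3 + (-635)*u^4 + (-3168)*u^5 + (-7718)*u^6 + (-11418)*u^7 + (-9176)*u^8 + (1474)*u^9 + (16314)*u^10 + (26840)*u^11 + (27472)*u^12 + (19834)*u^13 + (10064)*u^14 + (3133)*u^15 + (119)*u^16 + (-464)*u^17 + (-273)*u^18 + (-83)*u^19 + (-14)*u^20 + (-1)*u^21 = 0) (h25 : (-12)*u + (-72)*u^2 + (-66)*u^3 + (960)*u^4 + (5148)*u^5 + (13501)*u^6 + (21087)*u^7 + (16168)*u^8 + (-10648)*u^9 + (-53492)*u^10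 + (-90376)*u^11 + (-99634)*u^12 + (-78052)*u^13 + (-41878)*u^14 + (-11351)*u^15 + (3956)*u^16 + (6760)*u^17 + (4354)*u^18 + (1786)*u^19 + (490)*u^20 + (84)*u^21 + (7)*u^22 = 0) (h13 : (13 : R) = 0) : (1 : R) = 0 := by
  linear_combination ((1) + (7)*u + (9)*u^2 + (5)*u^3 + (3)*u^4 + (7)*u^5 + (2)*u^6 + (10)*u^7 + (7)*u^9 + (6)*u^10 + (10)*u^11 + (9)*u^12 + (8)*u^13 + (11)*u^14 + (8)*u^15 + (4)*u^16 + (7)*u^17 + (12)*u^18 + (12)*u^19 + (6)*u^20 + (7)*u^21) * h23 + ((8) + (1)*u + (8)*u^2 + (11)*u^3 + (1)*u^4 + (5)*u^5 + (6)*u^6 + (10)*u^7 + (8)*u^8 + (10)*u^9 + (9)*u^10 + (7)*u^11 + (5)*u^12 + (6)*u^13 + (11)*u^14 + (10)*u^15 + (11)*u^18 + (1)*u^19 + (1)*u^20) * h25 - ((-6)*u + (-34)*u^2 + (-9)*u^3 + (558)*u^4 + (2618)*u^5 + (6531)*u^6 + (10533)*u^7 + (10727)*u^8 + (3045)*u^9 + (-14819)*u^10 + (-42166)*u^11 + (-73561)*u^12 + (-98622)*u^13 + (-107971)*u^14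 + (-103091)*u^15 + (-98767)*u^16 + (-111604)*u^17 + (-144052)*u^18 + (-180070)*u^19 + (-197655)*u^20 + (-187553)*u^21 + (-161478)*u^22 + (-141386)*u^23 + (-138795)*u^24 + (-144725)*u^25 + (-140857)*u^26 + (-118569)*u^27 + (-84488)*u^28 + (-49974)*u^29 + (-20875)*u^30 + (1793)*u^31 + (16719)*u^32 + (22095)*u^33 + (19012)*u^34 + (11967)*u^35 + (5591)*u^36 + (1885)*u^37 + (421)*u^38 + (47)*u^39 + (-2)*u^40 + (-1)*u^41) * h13

theorem contra (u e : R) (h4 : ∑ j ∈ Finset.range 4, H u e j = 0)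
    (h10 : ∑ j ∈ Finset.range 10, H u e j = 0) (h23 : ∑ j ∈ Finset.range 23, H u e j = 0)
    (h25 : ∑ j ∈ Finset.range 25, H u e j = 0) : (1 : R) = 0 := by
  have e0 : H u e 0 = 0 := rfl
  have e1 : H u e 1 = 1 := rfl
  have r : ∀ j, H u e (j + 2) = u * H u e (j + 1) - e * H u e j := fun j => rfl
  have e2' : H u e 2 = u := by rw [r 0, e1, e0]; ring
  have e3' : H u e 3 = u * u - e := by rw [r 1, e2', e1]; ring
  have he : e = 1 + u + u ^ 2 := by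
    simp only [Finset.sum_range_succ, Finset.sum_range_zero, e0, e1, e2', e3'] at h4
    linear_combination -h4
  subst he

  have e2 : H u (1 + u + u ^ 2) 2 = (1)*u := by
    rw [r 0, e1, e0]; ring

  have e3 : H u (1 + u + u ^ 2) 3 = (-1) + (-1)*u := by
    rw [r 1, e2, e1]; ring

  have e4 : H u (1 + u + u ^ 2) 4 = (-2)*u + (-2)*u^2 + (-1)*u^3 := by
    rw [r 2, e3, e2]; ring

  have e5 : H u (1 + u + u ^ 2) 5 = (1) + (2)*u + (-1)*u^3 + (-1)*u^4 := by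
    rw [r 3, e4, e3]; ring

  have e6 : H u (1 + u + u ^ 2) 6 = (3)*u + (6)*u^2 + (5)*u^3 + (2)*u^4 := by
    rw [r 4, e5, e4]; ring

  have e7 : H u (1 + u + u ^ 2) 7 = (-1) + (-3)*u + (5)*u^3 + (7)*u^4 + (4)*u^5 + (1)*u^6 := by
    rw [r 5, e6, e5]; ring

  have e8 : H u (1 + u + u ^ 2) 8 = (-4)*u + (-12)*u^2 + (-14)*u^3 + (-8)*u^4 + (2)*u^6 + (1)*u^7 := by
    rw [r 6, e7, e6]; ring

  have e9 : H u (1 + u + u ^ 2) 9 = (1) + (4)*u + (-14)*u^3 + (-26)*u^4 + (-24)*u^5 + (-12)*u^6 + (-3)*u^7 := by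
    rw [r 7, e8, e7]; ring

  have e10 : H u (1 + u + u ^ 2) 10 = (5)*u + (20)*u^2 + (30)*u^3 + (20)*u^4 + (-4)*u^5 + (-18)*u^6 + (-15)*u^7 + (-6)*u^8 + (-1)*u^9 := by
    rw [r 8, e9, e8]; ring

  have e11 : H u (1 + u + u ^ 2) 11 = (-1) + (-5)*u + (30)*u^3 + (70)*u^4 + (84)*u^5 + (58)*u^6 + (21)*u^7 + (-3)*u^9 + (-1)*u^10 := by
    rw [r 9, e10, e9]; ring

  have e12 : H u (1 + u + u ^ 2) 12 = (-6)*u + (-30)*u^2 + (-55)*u^3 + (-40)*u^4 + (24)*u^5 + (86)*u^6 + (95)*u^7 + (60)*u^8 + (22)*u^9 + (4)*u^10 := by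
    rw [r 10, e11, e10]; ring

  have e13 : H u (1 + u + u ^ 2) 13 = (1) + (6)*u + (-55)*u^3 + (-155)*u^4 + (-224)*u^5 + (-188)*u^6 + (-77)*u^7 + (16)*u^8 + (42)*u^9 + (26)*u^10 + (8)*u^11 + (1)*u^12 := by
    rw [r 11, e12, e11]; ring

  have e14 : H u (1 + u + u ^ 2) 14 = (7)*u + (42)*u^2 + (91)*u^3 + (70)*u^4 + (-84)*u^5 + (-294)*u^6 + (-393)*u^7 + (-318)*u^8 + (-161)*u^9 + (-44)*u^10 + (4)*u^12 + (1)*u^13 := by
    rw [r 12, e13, e12]; ring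

  have e15 : H u (1 + u + u ^ 2) 15 = (-1) + (-7)*u + (91)*u^3 + (301)*u^4 + (504)*u^5 + (483)*u^6 + (195)*u^7 + (-144)*u^8 + (-299)*u^9 + (-245)*u^10 + (-120)*u^11 + (-35)*u^12 + (-5)*u^13 := by
    rw [r 13, e14, e13]; ring

  have e16 : H u (1 + u + u ^ 2) 16 = (-8)*u + (-56)*u^2 + (-140)*u^3 + (-112)*u^4 + (224)*u^5 + (812)*u^6 + (1254)*u^7 + (1200)*u^8 + (728)*u^9 + (224)*u^10 + (-40)*u^11 + (-80)*u^12 + (-40)*u^13 + (-10)*u^14 + (-1)*u^15 := by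
    rw [r 14, e15, e14]; ring

  have e17 : H u (1 + u + u ^ 2) 17 = (1) + (8)*u + (-140)*u^3 + (-532)*u^4 + (-1008)*u^5 + (-1064)*u^6 + (-370)*u^7 + (720)*u^8 + (1448)*u^9 + (1416)*u^10 + (888)*u^11 + (360)*u^12 + (80)*u^13 + (-5)*u^15 + (-1)*u^16 := by
    rw [r 15, e16, e15]; ring

  have e18 : H u (1 + u + u ^ 2) 18 = (9)*u + (72)*u^2 + (204)*u^3 + (168)*u^4 + (-504)*u^5 + (-1932)*u^6 + (-3354)*u^7 + (-3636)*u^8 + (-2462)*u^9 + (-704)*u^10 + (504)*u^11 + (784)*u^12 + (520)*u^13 + (210)*u^14 + (51)*u^15 + (6)*u^16 := by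
    rw [r 16, e17, e16]; ring

  have e19 : H u (1 + u + u ^ 2) 19 = (-1) + (-9)*u + (204)*u^3 + (876)*u^4 + (1848)*u^5 + (2100)*u^6 + (510)*u^7 + (-2640)*u^8 + (-5434)*u^9 + (-6046)*u^10 + (-4456)*u^11 + (-2160)*u^12 + (-544)*u^13 + (80)*u^14 + (135)*u^15 + (57)*u^16 + (12)*u^17 + (1)*u^18 := by
    rw [r 17, e18, e17]; ring

  have e20 : H u (1 + u + u ^ 2) 20 = (-10)*u + (-90)*u^2 + (-285)*u^3 + (-240)*u^4 + (1008)*u^5 + (4116)*u^6 + (7890)*u^7 + (9432)*u^8 + (6812)*u^9 + (1368)*u^10 + (-3384)*u^11 + (-5040)*u^12 + (-3968)*u^13 + (-2058)*u^14 + (-701)*u^15 + (-132)*u^16 + (6)*u^18 + (1)*u^19 := by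
    rw [r 18, e19, e18]; ring

  have e21 : H u (1 + u + u ^ 2) 21 = (1) + (10)*u + (-285)*u^3 + (-1365)*u^4 + (-3168)*u^5 + (-3816)*u^6 + (-342)*u^7 + (7920)*u^8 + (16996)*u^9 + (20932)*u^10 + (17304)*u^11 + (9278)*u^12 + (2120)*u^13 + (-1344)*u^14 + (-1729)*u^15 + (-973)*u^16 + (-336)*u^17 + (-70)*u^18 + (-7)*u^19 := by
    rw [r 19, e20, e19]; ring

  have e22 : H u (1 + u + u ^ 2) 22 = (11)*u + (110)*u^2 + (385)*u^3 + (330)*u^4 + (-1848)*u^5 + (-8052)*u^6 + (-16830)*u^7 + (-21780)*u^8 + (-16214)*u^9 + (-616)*u^10 + (16136)*u^11 + (24360)*u^12 + (21670)*u^13 + (13186)*u^14 + (5383)*u^15 + (1162)*u^16 + (-140)*u^17 + (-210)*u^18 + (-77)*u^19 + (-14)*u^20 + (-1)*u^21 := by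
    rw [r 20, e21, e20]; ring

  have e23 : H u (1 + u + u ^ 2) 23 = (-1) + (-11)*u + (385)*u^3 + (2035)*u^4 + (5148)*u^5 + (6501)*u^6 + (-726)*u^7 + (-20592)*u^8 + (-46354)*u^9 + (-62062)*u^10 + (-55848)*u^11 + (-31378)*u^12 + (-4342)*u^13 + (11616)*u^14 + (14139)*u^15 + (9429)*u^16 + (4200)*u^17 + (1239)*u^18 + (203)*u^19 + (-7)*u^21 + (-1)*u^22 := by
    rw [r 21, e22, e21]; ring

  have e24 : H u (1 + u + u ^ 2) 24 = (-12)*u + (-132)*u^2 + (-506)*u^3 + (-440)*u^4 + (3168)*u^5 + (14718)*u^6 + (33231)*u^7 + (45936)*u^8 + (34232)*u^9 + (-7744)*u^10 + (-61368)*u^11 + (-95728)*u^12 + (-93544)*u^13 + (-63558)*u^14 + (-28623)*u^15 + (-5592)*u^16 + (3024)*u^17 + (3388)*u^18 + (1666)*u^19 + (504)*u^20 + (92)*u^21 + (8)*u^22 := by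
    rw [r 22, e23, e22]; ring

  have h13 : (13 : R) = 0 := by
    apply certA u
    · rw [← h10]
      simp only [Finset.sum_range_succ, Finset.sum_range_zero, e0, e1, e2, e3, e4, e5, e6, e7, e8, e9]
      ring
    · rw [← h23]
      simp only [Finset.sum_range_succ, Finset.sum_range_zero, e0, e1, e2, e3, e4, e5, e6, e7, e8, e9, e10, e11, e12, e13, e14, e15, e16, e17, e18, e19, e20, e21, e22]
      ring
  apply certB u _ _ h13
  · rw [← h23]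
    simp only [Finset.sum_range_succ, Finset.sum_range_zero, e0, e1, e2, e3, e4, e5, e6, e7, e8, e9, e10, e11, e12, e13, e14, e15, e16, e17, e18, e19, e20, e21, e22]
    ring
  · rw [← h25]
    simp only [Finset.sum_range_succ, Finset.sum_range_zero, e0, e1, e2, e3, e4, e5, e6, e7, e8, e9, e10, e11, e12, e13, e14, e15, e16, e17, e18, e19, e20, e21, e22, e23, e24]
    ring

end Q248.Golomb
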