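import Mathlib

/-!
Auxiliary results for MP_4e2f3e: a Sidon set, difference sets and a hitting set lemma.
-/

namespace Q248.LongAP

open Finset
open scoped Pointwise

/-- The Erdős–Turán function. -/
def f (p a : ℕ) : ℕ := 2 * p * a + a ^ 2 % p

theorem f_sidon {p : ℕ} (hp : p.Prime) (hp2 : p ≠ 2) {a b c d : ℕ} (ha : a < p) (_hb : b < p)
    (hc : c < p) (hd : d < p) (h : f p a + f p b = f p c + f p d) :
    (a = c ∧ b = d) ∨ (a = d ∧ b = c) := by
  have hpos := hp.pos
  have h1 : a ^ 2 % p < p := Nat.mod_lt _ hpos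
  have h2 : b ^ 2 % p < p := Nat.mod_lt _ hpos
  have h3 : c ^ 2 % p < p := Nat.mod_lt _ hpos
  have h4 : d ^ 2 % p < p := Nat.mod_lt _ hpos
  have e1 : (a ^ 2 % p + b ^ 2 % p) + 2 * p * (a + b) = (c ^ 2 % p + d ^ 2 % p) + 2 * p * (c + d) := by
    unfold f at h
    linarith
  have e2 : a + b = c + d := by
    have g1 : ((a ^ 2 % p + b ^ 2 % p) + 2 * p * (a + b)) / (2 * p) = a + b := by
      rw [Nat.add_mul_div_left _ _ (by positivity), Nat.div_eq_of_lt (by omega), zero_add]
    have g2 : ((c ^ 2 % p + d ^ 2 % p) + 2 * p * (c + d)) / (2 * p) = c + d := by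
      rw [Nat.add_mul_div_left _ _ (by positivity), Nat.div_eq_of_lt (by omega), zero_add]
    rw [← g1, ← g2, e1]
  have e3 : a ^ 2 % p + b ^ 2 % p = c ^ 2 % p + d ^ 2 % p := by
    rw [e2] at e1
    omega
  have : Fact p.Prime := ⟨hp⟩
  have e4 : (a : ZMod p) ^ 2 + (b : ZMod p) ^ 2 = (c : ZMod p) ^ 2 + (d : ZMod p) ^ 2 := by
    have := congrArg (fun n : ℕ => (n : ZMod p)) e3
    simpa [ZMod.natCast_mod] using this
  have e5 : (a : ZMod p) + b = c + d := by exact_mod_cast congrArg (fun n : ℕ => (n : ZMod p)) e2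
  have e6 : ((a : ZMod p) - c) * ((a : ZMod p) - d) * 2 = 0 := by
    linear_combination e4 + (a - b - c - d) * e5
  have h20 : (2 : ZMod p) ≠ 0 := by
    intro h0
    have : ((2 : ℕ) : ZMod p) = 0 := by exact_mod_cast h0
    rw [ZMod.natCast_eq_zero_iff] at this
    have := Nat.le_of_dvd (by norm_num) this
    have := hp.two_le
    omega
  have cast_inj : ∀ x y : ℕ, x < p → y < p → (x : ZMod p) = y → x = y := by
    intro x y hx hy hxy
    rw [ZMod.natCast_eq_natCast_iff'] at hxy
    rwa [Nat.mod_eq_of_lt hx, Nat.mod_eq_of_lt hy] at hxy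
  rcases mul_eq_zero.1 e6 with h7 | h7
  · rcases mul_eq_zero.1 h7 with h8 | h8
    · have := cast_inj a c ha hc (sub_eq_zero.1 h8)
      left; omega
    · have := cast_inj a d ha hd (sub_eq_zero.1 h8)
      right; omega
  · exact absurd h7 h20

theorem f_le {p a : ℕ} (hp : 2 ≤ p) (ha : a < p) : f p a ≤ f p (p - 1) := by
  unfold f
  rcases Nat.lt_or_ge a (p - 1) with h | h
  · have h1 : a ^ 2 % p < p := Nat.mod_lt _ (by omega)
    have h2 : 2 * p * a + 2 * p ≤ 2 * p * (p - 1) := by
      calc 2 * p * a + 2 * p = 2 * p * (a + 1) := by ring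
        _ ≤ 2 * p * (p - 1) := Nat.mul_le_mul_left _ h
    omega
  · have : a = p - 1 := by omega
    rw [this]

theorem f_zero (p : ℕ) : f p 0 = 0 := by simp [f]

theorem f_lt {p a : ℕ} (ha : a < p) : f p a < 2 * p * p := by
  unfold f
  have h1 : a ^ 2 % p < p := Nat.mod_lt _ (by omega)
  have h2 : 2 * p * a + 2 * p ≤ 2 * p * p := by
    calc 2 * p * a + 2 * p = 2 * p * (a + 1) := by ring
      _ ≤ 2 * p * p := Nat.mul_le_mul_left _ ha
  omega

section diff

variable {G : Type} [AddCommGroup G] [DecidableEq G]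

theorem card_sub_ge (X R : Finset G)
    (hR : ∀ r ∈ R, ∀ r' ∈ R, ∀ s ∈ R, ∀ s' ∈ R, r - r' = s - s' → r ≠ r' → r = s ∧ r' = s')
    (hXR : X.card ≤ R.card) : X.card * R.card ≤ 2 * (X - R).card := by
  have h1 := le_card_add_mul_addEnergy X (-R)
  rw [card_neg, ← sub_eq_add_neg] at h1
  have h2 : addEnergy X (-R) ≤ X.card * R.card + X.card * X.card := by
    unfold addEnergy
    set S := ((X ×ˢ X) ×ˢ (-R) ×ˢ (-R)).filter (fun x => x.1.1 + x.2.1 = x.1.2 + x.2.2) with hS
    have h3 : (S.filter (fun x => x.1.1 = x.1.2)).card ≤ X.card * R.card := by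
      rw [← card_neg R, ← card_product]
      apply card_le_card_of_injOn (fun x => (x.1.1, x.2.1))
      · intro x hx
        have hx1 := mem_filter.1 (mem_filter.1 (mem_coe.1 hx)).1
        simp only [mem_product] at hx1
        simp only [coe_product, Set.mem_prod, mem_coe]
        exact ⟨hx1.1.1.1, hx1.1.2.1⟩
      · intro x hx y hy hxy
        have hx0 := mem_filter.1 (mem_coe.1 hx)
        have hy0 := mem_filter.1 (mem_coe.1 hy)
        have hx1 := (mem_filter.1 hx0.1).2
        have hy1 := (mem_filter.1 hy0.1).2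
        simp only [Prod.mk.injEq] at hxy
        obtain ⟨g1, g2⟩ := hxy
        have g3 : x.1.2 = y.1.2 := by rw [← hx0.2, ← hy0.2, g1]
        have g4 : x.2.2 = y.2.2 := by
          rw [hx0.2] at hx1
          rw [hy0.2] at hy1
          have a1 := add_left_cancel hx1
          have a2 := add_left_cancel hy1
          rw [← a1, ← a2, g2]
        exact Prod.ext (Prod.ext g1 g3) (Prod.ext g2 g4)
    have h4 : (S.filter (fun x => ¬ x.1.1 = x.1.2)).card ≤ X.card * X.card := by
      rw [← card_product]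
      apply card_le_card_of_injOn (fun x => x.1)
      · intro x hx
        have hx1 := mem_filter.1 (mem_filter.1 (mem_coe.1 hx)).1
        rw [mem_product] at hx1
        exact mem_coe.2 hx1.1.1
      · intro x hx y hy hxy
        have hx0 := mem_filter.1 (mem_coe.1 hx)
        have hy0 := mem_filter.1 (mem_coe.1 hy)
        have hx1 := mem_filter.1 hx0.1
        have hy1 := mem_filter.1 hy0.1
        simp only [mem_product, mem_neg'] at hx1 hy1
        have e : ∀ z : (G × G) × (G × G), z.1.1 + z.2.1 = z.1.2 + z.2.2 →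
            (-z.2.2) - (-z.2.1) = z.1.2 - z.1.1 := by
          intro z hz
          have : z.2.1 - z.2.2 = z.1.2 - z.1.1 := by
            rw [sub_eq_sub_iff_add_eq_add, add_comm, hz]
          rw [← this]; abel
        have e1 := e x hx1.2
        have e2 := e y hy1.2
        have hne : -x.2.2 ≠ -x.2.1 := by
          intro h
          rw [h, sub_self] at e1
          exact hx0.2 (sub_eq_zero.1 e1.symm).symm
        have hxy' : x.1 = y.1 := hxy
        rw [← hxy', ← e1] at e2
        obtain ⟨g1, g2⟩ := hR _ hx1.1.2.2 _ hx1.1.2.1 _ hy1.1.2.2 _ hy1.1.2.1 e2.symm hne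
        exact Prod.ext hxy' (Prod.ext (neg_injective g2) (neg_injective g1))
    have h5 := card_filter_add_card_filter_not (s := S) (fun x => x.1.1 = x.1.2)
    omega
  rcases Nat.eq_zero_or_pos (X.card * R.card) with h0 | hpos
  · rw [h0]; exact Nat.zero_le _
  · have h6 : X.card * X.card ≤ X.card * R.card := Nat.mul_le_mul_left _ hXR
    have h7 : (X.card * R.card) * (X.card * R.card) ≤ (X.card * R.card) * (2 * (X - R).card) := by
      calc (X.card * R.card) * (X.card * R.card) = X.card ^ 2 * R.card ^ 2 := by ring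
        _ ≤ (X - R).card * addEnergy X (-R) := h1
        _ ≤ (X - R).card * (X.card * R.card + X.card * R.card) :=
            Nat.mul_le_mul_left _ (h2.trans (by omega))
        _ = _ := by ring
    exact Nat.le_of_mul_le_mul_left h7 hpos

end diff

/-- A hitting set of size at most `τ`. -/
theorem hitting {α : Type} [DecidableEq α] (D : Finset α) (F : Finset (Finset α)) (m τ : ℕ)
    (hF : ∀ Y ∈ F, Y ⊆ D) (hm : ∀ Y ∈ F, m ≤ Y.card)
    (h : F.card * (D.card - m) ^ τ < D.card ^ τ) :
    ∃ R ⊆ D, R.card ≤ τ ∧ ∀ Y ∈ F, ∃ y ∈ Y, y ∈ R := by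
  set tot : Finset (Fin τ → α) := Fintype.piFinset (fun _ => D) with htot
  have h1 : tot.card = D.card ^ τ := by
    rw [htot, Fintype.card_piFinset_const]
  set bad : Finset (Fin τ → α) := F.biUnion (fun Y => Fintype.piFinset (fun _ => D \ Y)) with hbad
  have h2 : bad.card ≤ F.card * (D.card - m) ^ τ := by
    rw [hbad]
    refine card_biUnion_le_card_mul _ _ _ (fun Y hY => ?_)
    rw [Fintype.card_piFinset_const]
    apply Nat.pow_le_pow_left
    rw [card_sdiff_of_subset (hF Y hY)]
    have := hm Y hY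
    omega
  obtain ⟨g, hg, hgb⟩ := exists_mem_notMem_of_card_lt_card (lt_of_le_of_lt h2 (by rw [h1]; exact h))
  refine ⟨univ.image g, ?_, ?_, ?_⟩
  · intro y hy
    obtain ⟨i, _, rfl⟩ := mem_image.1 hy
    exact Fintype.mem_piFinset.1 hg i
  · refine card_image_le.trans ?_
    rw [card_univ, Fintype.card_fin]
  · intro Y hY
    by_contra hcon
    push Not at hcon
    apply hgb
    rw [hbad, mem_biUnion]
    refine ⟨Y, hY, ?_⟩
    rw [Fintype.mem_piFinset]
    intro i
    rw [mem_sdiff]
    refine ⟨Fintype.mem_piFinset.1 hg i, fun hi => ?_⟩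
    exact hcon _ hi (mem_image_of_mem g (mem_univ i))

end Q248.LongAP
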