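import Mathlib
import Pool.Agent.Q248.LongAP

/-!
Auxiliary results for MP_4e2f3e: the construction of the set.
-/

namespace Q248.LongAP

open Finset
open scoped Pointwise

theorem val_add_of_lt' {N : ℕ} [NeZero N] (a b : ZMod N) (h : a.val + b.val < N) :
    (a + b).val = a.val + b.val := by
  rw [ZMod.val_add, Nat.mod_eq_of_lt h]

theorem exists_set (N p τ k m : ℕ) [Fact N.Prime] (hN : 1000 ≤ N) (hp : p.Prime) (hp2 : p ≠ 2)
    (h25 : 25 * (p * p) ≤ N) (hτ : 100 * ((p + τ) * (p + τ)) ≤ 9 * N) (hk : k ≤ p)
    (hm : 2 * m ≤ k * p) (hcount : N * N * (N - m) ^ τ < N ^ τ) :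
    ∃ A : Finset (ZMod N), N < 4 * A.card ∧ 100 * (A + A).card ≤ 99 * N ∧
      ∀ a d : ZMod N, d ≠ 0 → ∃ j < k, a + (j : ZMod N) * d ∈ A + A := by
  have hN0 : NeZero N := ⟨by omega⟩
  have hppos : 2 ≤ p := hp.two_le
  obtain ⟨q, hq⟩ : ∃ q, q = N / 4 := ⟨_, rfl⟩
  obtain ⟨L, hL⟩ : ∃ L, L = 9 * N / 20 := ⟨_, rfl⟩
  obtain ⟨t, ht⟩ : ∃ t, t = f p (p - 1) := ⟨_, rfl⟩
  have hft : ∀ a < p, f p a ≤ t := fun a ha => by rw [ht]; exact f_le hppos ha
  have ht2 : t < 2 * p * p := by rw [ht]; exact f_lt (by omega)
  have ht3 : 25 * t < 2 * N := by nlinarith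
  have hvalcast : ∀ n < N, ((n : ℕ) : ZMod N).val = n := fun n hn => ZMod.val_natCast_of_lt hn
  set I : Finset (ZMod N) := (range (q + 1)).image (fun n : ℕ => (n : ZMod N)) with hI
  set R1 : Finset (ZMod N) := (range p).image (fun a : ℕ => ((L + f p a : ℕ) : ZMod N)) with hR1
  have hIcard : I.card = q + 1 := by
    rw [hI, card_image_of_injOn, card_range]
    intro x hx y hy hxy
    have hx' : x < q + 1 := by simpa using hx
    have hy' : y < q + 1 := by simpa using hy
    have := congrArg ZMod.val hxy
    simpa [hvalcast x (by omega), hvalcast y (by omega)] using this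
  have hfinj : ∀ a < p, ∀ b < p, f p a = f p b → a = b := by
    intro a ha b hb h
    rcases f_sidon hp hp2 ha ha hb hb (by omega) with h1 | h1
    · exact h1.1
    · exact h1.1
  have hR1card : R1.card = p := by
    rw [hR1, card_image_of_injOn, card_range]
    intro x hx y hy hxy
    have hx' : x < p := by simpa using hx
    have hy' : y < p := by simpa using hy
    have h1 := hft x hx'
    have h2 := hft y hy'
    have := congrArg ZMod.val hxy
    simp only at this
    rw [hvalcast _ (by omega), hvalcast _ (by omega)] at this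
    exact hfinj x hx' y hy' (by omega)
  have hSidon : ∀ r ∈ R1, ∀ r' ∈ R1, ∀ s ∈ R1, ∀ s' ∈ R1, r - r' = s - s' → r ≠ r' →
      r = s ∧ r' = s' := by
    intro r hr r' hr' s hs s' hs' h hne
    obtain ⟨a, ha, rfl⟩ := mem_image.1 hr
    obtain ⟨b, hb, rfl⟩ := mem_image.1 hr'
    obtain ⟨c, hc, rfl⟩ := mem_image.1 hs
    obtain ⟨d, hd, rfl⟩ := mem_image.1 hs'
    rw [mem_range] at ha hb hc hd
    have h1 : ((f p a + f p d : ℕ) : ZMod N) = ((f p b + f p c : ℕ) : ZMod N) := by
      push_cast at h ⊢
      linear_combination h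
    have h2 := congrArg ZMod.val h1
    have := hft a ha
    have := hft b hb
    have := hft c hc
    have := hft d hd
    rw [hvalcast _ (by omega), hvalcast _ (by omega)] at h2
    rcases f_sidon hp hp2 ha hd hb hc h2 with ⟨h3, _⟩ | ⟨h3, h4⟩
    · exact absurd (by rw [h3]) hne
    · rw [h3, h4]; exact ⟨rfl, rfl⟩
  set Dset : Finset (ZMod N) := univ.filter (fun z => q < z.val ∧ z.val < N - L) with hDset
  set Jset : Finset (ZMod N) := univ.filter (fun x => L + t + q < x.val) with hJset
  set ap : ZMod N × ZMod N → Finset (ZMod N) := fun s =>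
    (range k).image (fun j : ℕ => s.1 + (j : ZMod N) * s.2) with hap
  set F : Finset (Finset (ZMod N)) :=
    ((univ : Finset (ZMod N × ZMod N)).filter (fun s => s.2 ≠ 0 ∧ ap s ⊆ Jset)).image
      (fun s => ap s - R1) with hF
  have hFcard : F.card ≤ N * N := by
    refine card_image_le.trans ((card_filter_le _ _).trans ?_)
    rw [card_univ, Fintype.card_prod, ZMod.card]
  have hapcard : ∀ s : ZMod N × ZMod N, s.2 ≠ 0 → (ap s).card = k := by
    intro s hs
    rw [hap]
    simp only
    rw [card_image_of_injOn, card_range]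
    intro x hx y hy hxy
    have hx' : x < k := by simpa using hx
    have hy' : y < k := by simpa using hy
    have h1 : (x : ZMod N) * s.2 = (y : ZMod N) * s.2 := add_left_cancel hxy
    have h2 : (x : ZMod N) = y := mul_right_cancel₀ hs h1
    have h3 := congrArg ZMod.val h2
    have hpN : p < N := by nlinarith
    rwa [hvalcast x (by omega), hvalcast y (by omega)] at h3
  have hFm : ∀ Y ∈ F, m ≤ Y.card := by
    intro Y hY
    obtain ⟨s, hs, rfl⟩ := mem_image.1 hY
    have h1 := (mem_filter.1 hs).2.1
    have h2 := card_sub_ge (ap s) R1 hSidon (by rw [hapcard s h1, hR1card]; exact hk)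
    rw [hapcard s h1, hR1card] at h2
    omega
  obtain ⟨R, _, hRcard, hRhit⟩ := hitting (univ : Finset (ZMod N)) F m τ
    (fun Y _ => subset_univ Y) hFm (by
      rw [card_univ, ZMod.card]
      exact lt_of_le_of_lt (Nat.mul_le_mul_right _ hFcard) hcount)
  set R2 : Finset (ZMod N) := R.filter (fun z => z ∈ Dset) with hR2
  set A : Finset (ZMod N) := I ∪ (R1 ∪ R2) with hA
  refine ⟨A, ?_, ?_, ?_⟩
  · have h1 : I.card ≤ A.card := card_le_card subset_union_left
    rw [hIcard] at h1
    omega
  · -- upper bound for the sumset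
    have hsub : A + A ⊆ (univ.filter (fun x : ZMod N => 100 * x.val < 81 * N)) ∪
        ((R1 ∪ R2) + (R1 ∪ R2)) := by
      have hvI : ∀ x ∈ I, x.val ≤ q := by
        intro x hx
        obtain ⟨n, hn, rfl⟩ := mem_image.1 hx
        rw [mem_range] at hn
        rw [hvalcast n (by omega)]; omega
      have hvA : ∀ x ∈ A, x.val ≤ N - L := by
        intro x hx
        rw [hA, mem_union, mem_union] at hx
        rcases hx with hx | hx | hx
        · have := hvI x hx
          omega
        · obtain ⟨a, ha, rfl⟩ := mem_image.1 hx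
          rw [mem_range] at ha
          have := hft a ha
          rw [hvalcast _ (by omega)]; omega
        · have h1 := (mem_filter.1 (mem_filter.1 hx).2).2
          omega
      have haux : ∀ x ∈ I, ∀ y ∈ A, 100 * (x + y).val < 81 * N := by
        intro x hx y hy
        have h1 := hvI x hx
        have h2 := hvA y hy
        rw [val_add_of_lt' _ _ (by omega)]
        omega
      intro z hz
      obtain ⟨x, hx, y, hy, rfl⟩ := mem_add.1 hz
      rw [mem_union]
      by_cases h1 : x ∈ I
      · left
        exact mem_filter.2 ⟨mem_univ _, haux x h1 y hy⟩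
      · by_cases h2 : y ∈ I
        · left
          rw [add_comm]
          exact mem_filter.2 ⟨mem_univ _, haux y h2 x hx⟩
        · right
          have h3 : x ∈ R1 ∪ R2 := (mem_union.1 hx).resolve_left h1
          have h4 : y ∈ R1 ∪ R2 := (mem_union.1 hy).resolve_left h2
          exact add_mem_add h3 h4
    have hc1 : (univ.filter (fun x : ZMod N => 100 * x.val < 81 * N)).card ≤ 81 * N / 100 + 1 := by
      conv_rhs => rw [← card_range (81 * N / 100 + 1)]
      apply card_le_card_of_injOn (fun x => x.val)
      · intro x hx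
        have h1 := (mem_filter.1 (mem_coe.1 hx)).2
        simp only [coe_range, Set.mem_Iio]
        omega
      · exact (ZMod.val_injective N).injOn
    have hc2 : ((R1 ∪ R2) + (R1 ∪ R2)).card ≤ (p + τ) * (p + τ) := by
      have h1 : (R1 ∪ R2).card ≤ p + τ := by
        refine (card_union_le _ _).trans ?_
        have : R2.card ≤ τ := (card_filter_le _ _).trans hRcard
        omega
      exact card_add_le.trans (Nat.mul_le_mul h1 h1)
    have hc3 := card_le_card hsub
    have hc4 := card_union_le (univ.filter (fun x : ZMod N => 100 * x.val < 81 * N))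
      ((R1 ∪ R2) + (R1 ∪ R2))
    omega
  · -- no long progression in the complement
    intro a d hd
    by_contra hcon
    push Not at hcon
    have hcov : ∀ x : ZMod N, x.val ≤ L + t + q → x ∈ A + A := by
      intro x hx
      have hIA : ∀ n ≤ q, ((n : ℕ) : ZMod N) ∈ A := fun n hn =>
        mem_union_left _ (mem_image.2 ⟨n, mem_range.2 (by omega), rfl⟩)
      have hRA : ∀ a < p, ((L + f p a : ℕ) : ZMod N) ∈ A := fun a ha =>
        mem_union_right _ (mem_union_left _ (mem_image.2 ⟨a, mem_range.2 ha, rfl⟩))
      have hx0 : ((x.val : ℕ) : ZMod N) = x := ZMod.natCast_zmod_val x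
      by_cases h1 : x.val ≤ q
      · have : x = ((x.val : ℕ) : ZMod N) + ((0 : ℕ) : ZMod N) := by rw [hx0]; simp
        rw [this]
        exact add_mem_add (hIA _ h1) (hIA 0 (by omega))
      · by_cases h2 : x.val ≤ 2 * q
        · have : x = ((x.val - q : ℕ) : ZMod N) + ((q : ℕ) : ZMod N) := by
            rw [← Nat.cast_add, show x.val - q + q = x.val by omega, hx0]
          rw [this]
          exact add_mem_add (hIA _ (by omega)) (hIA q le_rfl)
        · by_cases h3 : x.val ≤ L + q
          · have : x = ((L + f p 0 : ℕ) : ZMod N) + ((x.val - L : ℕ) : ZMod N) := by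
              rw [← Nat.cast_add, f_zero, show L + 0 + (x.val - L) = x.val by omega, hx0]
            rw [this]
            exact add_mem_add (hRA 0 (by omega)) (hIA _ (by omega))
          · have : x = ((L + f p (p - 1) : ℕ) : ZMod N) + ((x.val - L - t : ℕ) : ZMod N) := by
              rw [← Nat.cast_add, ← ht, show L + t + (x.val - L - t) = x.val by omega, hx0]
            rw [this]
            exact add_mem_add (hRA (p - 1) (by omega)) (hIA _ (by omega))
    have hapJ : ap (a, d) ⊆ Jset := by
      intro x hx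
      obtain ⟨j, hj, rfl⟩ := mem_image.1 hx
      rw [mem_range] at hj
      rw [hJset, mem_filter]
      refine ⟨mem_univ _, ?_⟩
      by_contra h
      exact hcon j hj (hcov _ (not_lt.1 h))
    obtain ⟨y, hy, hyR⟩ := hRhit (ap (a, d) - R1)
      (mem_image.2 ⟨(a, d), mem_filter.2 ⟨mem_univ _, hd, hapJ⟩, rfl⟩)
    obtain ⟨x, hx, r, hr, rfl⟩ := mem_sub.1 hy
    have hxJ := (mem_filter.1 (hapJ hx)).2
    have hyD : x - r ∈ Dset := by
      obtain ⟨b, hb, rfl⟩ := mem_image.1 hr
      rw [mem_range] at hb
      have h1 := hft b hb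
      have h2 := ZMod.val_lt x
      have h3 : x - ((L + f p b : ℕ) : ZMod N) = ((x.val - (L + f p b) : ℕ) : ZMod N) := by
        rw [Nat.cast_sub (by omega), ZMod.natCast_zmod_val]
      rw [h3, hDset, mem_filter, hvalcast _ (by omega)]
      exact ⟨mem_univ _, by omega, by omega⟩
    have hyR2 : x - r ∈ R2 := mem_filter.2 ⟨hyR, hyD⟩
    obtain ⟨j, hj, hjx⟩ := mem_image.1 hx
    rw [mem_range] at hj
    apply hcon j hj
    simp only at hjx
    rw [hjx]
    have : x = r + (x - r) := by abel
    rw [this]
    exact add_mem_add (mem_union_right _ (mem_union_left _ hr))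
      (mem_union_right _ (mem_union_right _ hyR2))

end Q248.LongAP
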