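import Mathlib

/-!
Auxiliary results for MP_e3bb54: the construction from a graph without four-cycles.
-/

namespace Q248.MulBasis

open Finset

/-- An injective family of primes on a finite (countable) index type. -/
theorem exists_primes (ι : Type) [Finite ι] : ∃ pr : ι → ℕ, Function.Injective pr ∧
    ∀ k, (pr k).Prime := by
  obtain ⟨n, ⟨e⟩⟩ := Finite.exists_equiv_fin ι
  refine ⟨fun k => Nat.nth Nat.Prime (e k), ?_, fun k => Nat.prime_nth_prime _⟩
  intro a b h
  have := Nat.nth_injective Nat.infinite_setOfPred_prime h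
  exact e.injective (Fin.ext this)

theorem key {I J : Type} [Fintype I] [Fintype J] [DecidableEq I] [DecidableEq J]
    (H : Finset (I × J))
    (hH : ∀ i i' j j', i ≠ i' → j ≠ j' → (i, j) ∈ H → (i, j') ∈ H → (i', j) ∈ H →
      (i', j') ∈ H → False) :
    ∃ (x : I → ℚ) (y : J → ℚ), (∀ i, 0 < x i) ∧ (∀ j, 0 < y j) ∧
      (∀ e ∈ H, ∃ n : ℕ, x e.1 * y e.2 = n) ∧
      ∀ C : Finset ℕ, (∀ e ∈ H, ∃ c ∈ C, ∃ c' ∈ C, x e.1 * y e.2 = (c : ℚ) * (c' : ℚ)) →
        H.card ≤ 3 * C.card := by
  classical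
  obtain ⟨pr, hinj, hpr⟩ := exists_primes (I ⊕ (J ⊕ (I × J)))
  set P : I → ℕ := fun i => pr (Sum.inl i) with hPdef
  set Q : J → ℕ := fun j => pr (Sum.inr (Sum.inl j)) with hQdef
  set p : I × J → ℕ := fun e => pr (Sum.inr (Sum.inr e)) with hpdef
  have hP : ∀ i, (P i).Prime := fun i => hpr _
  have hQ : ∀ j, (Q j).Prime := fun j => hpr _
  have hp : ∀ e, (p e).Prime := fun e => hpr _
  have hPP : ∀ i i', P i = P i' → i = i' := fun i i' h => Sum.inl_injective (hinj h)
  have hQQ : ∀ j j', Q j = Q j' → j = j' := fun j j' h =>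
    Sum.inl_injective (Sum.inr_injective (hinj h))
  have hpp : ∀ e e', p e = p e' → e = e' := fun e e' h =>
    Sum.inr_injective (Sum.inr_injective (hinj h))
  have hPQ : ∀ i j, P i ≠ Q j := fun i j h => by simpa using hinj h
  have hPp : ∀ i e, P i ≠ p e := fun i e h => by simpa using hinj h
  have hQp : ∀ j e, Q j ≠ p e := fun j e h => by simpa using hinj h
  -- denominators and numerators
  set D : I → ℕ := fun i => ∏ j ∈ univ.filter (fun j => (i, j) ∉ H), p (i, j) with hD
  set Y : J → ℕ := fun j => ∏ e ∈ univ.filter (fun e : I × J => e ∉ H ∧ e.2 ≠ j), p e with hY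
  have hDpos : ∀ i, 0 < D i := fun i => prod_pos fun j _ => (hp _).pos
  have hYpos : ∀ j, 0 < Y j := fun j => prod_pos fun e _ => (hp _).pos
  have hdvdD : ∀ q i, q.Prime → q ∣ D i → ∃ j, (i, j) ∉ H ∧ q = p (i, j) := by
    intro q i hq hd
    obtain ⟨j, hj, hqj⟩ := (Prime.dvd_finsetProd_iff hq.prime _).1 hd
    exact ⟨j, (mem_filter.1 hj).2, (Nat.prime_dvd_prime_iff_eq hq (hp _)).1 hqj⟩
  have hdvdY : ∀ q j, q.Prime → q ∣ Y j → ∃ e, e ∉ H ∧ e.2 ≠ j ∧ q = p e := by
    intro q j hq hd
    obtain ⟨e, he, hqe⟩ := (Prime.dvd_finsetProd_iff hq.prime _).1 hd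
    exact ⟨e, (mem_filter.1 he).2.1, (mem_filter.1 he).2.2,
      (Nat.prime_dvd_prime_iff_eq hq (hp _)).1 hqe⟩
  refine ⟨fun i => (P i : ℚ) / D i, fun j => (Q j : ℚ) * Y j, ?_, ?_, ?_, ?_⟩
  · intro i
    have := hDpos i
    have := (hP i).pos
    positivity
  · intro j
    have := hYpos j
    have := (hQ j).pos
    positivity
  · intro e he
    have hdvd : D e.1 ∣ Y e.2 := by
      have hinj2 : Function.Injective (fun j : J => (e.1, j)) := fun a b h => by simpa using h
      have : D e.1 = ∏ e' ∈ (univ.filter (fun j => (e.1, j) ∉ H)).map ⟨fun j => (e.1, j), hinj2⟩,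
          p e' := by
        rw [prod_map]; rfl
      rw [this]
      apply prod_dvd_prod_of_subset
      intro e' he'
      rw [mem_map] at he'
      obtain ⟨j, hj, rfl⟩ := he'
      have hj2 := (mem_filter.1 hj).2
      rw [mem_filter]
      refine ⟨mem_univ _, hj2, ?_⟩
      intro h
      simp only [Function.Embedding.coeFn_mk] at h
      rw [h] at hj2
      exact hj2 he
    obtain ⟨r, hr⟩ := hdvd
    refine ⟨P e.1 * Q e.2 * r, ?_⟩
    have hD0 : (D e.1 : ℚ) ≠ 0 := by exact_mod_cast (hDpos e.1).ne'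
    show (P e.1 : ℚ) / D e.1 * ((Q e.2 : ℚ) * Y e.2) = ((P e.1 * Q e.2 * r : ℕ) : ℚ)
    rw [hr]
    push_cast
    field_simp
  · intro C hC
    -- integer form of the product
    have hnat : ∀ i j (c c' : ℕ), (P i : ℚ) / D i * ((Q j : ℚ) * Y j) = (c : ℚ) * c' →
        c * c' * D i = P i * (Q j * Y j) := by
      intro i j c c' h
      have hD0 : (D i : ℚ) ≠ 0 := by exact_mod_cast (hDpos i).ne'
      have : (c : ℚ) * c' * D i = P i * (Q j * Y j) := by
        rw [← h]; field_simp
      exact_mod_cast this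
    have hPi : ∀ i j (c c' : ℕ), c * c' * D i = P i * (Q j * Y j) → P i ∣ c * c' := by
      intro i j c c' h
      have h1 : P i ∣ c * c' * D i := by rw [h]; exact dvd_mul_right _ _
      rcases (hP i).dvd_mul.1 h1 with h2 | h2
      · exact h2
      · obtain ⟨j', _, h3⟩ := hdvdD _ _ (hP i) h2
        exact absurd h3 (hPp _ _)
    have hQj : ∀ i j (c c' : ℕ), c * c' * D i = P i * (Q j * Y j) → Q j ∣ c * c' := by
      intro i j c c' h
      have h1 : Q j ∣ c * c' * D i := by
        rw [h]; exact (dvd_mul_right _ _).trans (dvd_mul_left _ _)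
      rcases (hQ j).dvd_mul.1 h1 with h2 | h2
      · exact h2
      · obtain ⟨j', _, h3⟩ := hdvdD _ _ (hQ j) h2
        exact absurd h3 (hQp _ _)
    have hPuniq : ∀ i i' j (c c' : ℕ), c * c' * D i = P i * (Q j * Y j) → P i' ∣ c * c' →
        i' = i := by
      intro i i' j c c' h hd
      have h1 : P i' ∣ P i * (Q j * Y j) := by rw [← h]; exact hd.mul_right _
      rcases (hP i').dvd_mul.1 h1 with h2 | h2
      · exact hPP _ _ ((Nat.prime_dvd_prime_iff_eq (hP i') (hP i)).1 h2)
      · rcases (hP i').dvd_mul.1 h2 with h3 | h3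
        · exact absurd ((Nat.prime_dvd_prime_iff_eq (hP i') (hQ j)).1 h3) (hPQ _ _)
        · obtain ⟨e, _, _, h4⟩ := hdvdY _ _ (hP i') h3
          exact absurd h4 (hPp _ _)
    have hQuniq : ∀ i j j' (c c' : ℕ), c * c' * D i = P i * (Q j * Y j) → Q j' ∣ c * c' →
        j' = j := by
      intro i j j' c c' h hd
      have h1 : Q j' ∣ P i * (Q j * Y j) := by rw [← h]; exact hd.mul_right _
      rcases (hQ j').dvd_mul.1 h1 with h2 | h2
      · exact absurd ((Nat.prime_dvd_prime_iff_eq (hQ j') (hP i)).1 h2).symm (hPQ _ _)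
      · rcases (hQ j').dvd_mul.1 h2 with h3 | h3
        · exact hQQ _ _ ((Nat.prime_dvd_prime_iff_eq (hQ j') (hQ j)).1 h3)
        · obtain ⟨e, _, _, h4⟩ := hdvdY _ _ (hQ j') h3
          exact absurd h4 (hQp _ _)
    -- products which are integers come from edges
    have hedge : ∀ i j (c c' : ℕ), c * c' * D i = P i * (Q j * Y j) → (i, j) ∈ H := by
      intro i j c c' h
      by_contra hn
      have h0 : p (i, j) ∣ D i :=
        dvd_prod_of_mem (fun j => p (i, j)) (mem_filter.2 ⟨mem_univ _, hn⟩)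
      have h1 : p (i, j) ∣ P i * (Q j * Y j) := by rw [← h]; exact h0.mul_left _
      rcases (hp (i, j)).dvd_mul.1 h1 with h2 | h2
      · exact hPp _ _ ((Nat.prime_dvd_prime_iff_eq (hp _) (hP i)).1 h2).symm
      · rcases (hp (i, j)).dvd_mul.1 h2 with h3 | h3
        · exact hQp _ _ ((Nat.prime_dvd_prime_iff_eq (hp _) (hQ j)).1 h3).symm
        · obtain ⟨e, _, h5, h4⟩ := hdvdY _ _ (hp _) h3
          have := hpp _ _ h4
          rw [← this] at h5
          exact h5 rfl
    -- the choice of the factors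
    have hch : ∀ e : I × J, ∃ cc : ℕ × ℕ, e ∈ H → cc.1 ∈ C ∧ cc.2 ∈ C ∧
        cc.1 * cc.2 * D e.1 = P e.1 * (Q e.2 * Y e.2) ∧ P e.1 ∣ cc.1 := by
      intro e
      by_cases he : e ∈ H
      · obtain ⟨c, hc, c', hc', h⟩ := hC e he
        have h1 := hnat _ _ _ _ h
        rcases (hP e.1).dvd_mul.1 (hPi _ _ _ _ h1) with h2 | h2
        · exact ⟨(c, c'), fun _ => ⟨hc, hc', h1, h2⟩⟩
        · exact ⟨(c', c), fun _ => ⟨hc', hc, by rw [mul_comm c' c]; exact h1, h2⟩⟩
      · exact ⟨(0, 0), fun h => absurd h he⟩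
    choose f hf using hch
    have hPf : ∀ e ∈ H, ∀ e' ∈ H, (f e).1 = (f e').1 → e.1 = e'.1 := by
      intro e he e' he' h
      obtain ⟨_, _, h1, h2⟩ := hf e he
      obtain ⟨_, _, h3, h4⟩ := hf e' he'
      apply hPuniq _ _ _ _ _ h3
      rw [← h]
      exact h2.mul_right _
    have hQf : ∀ e ∈ H, ∀ e' ∈ H, Q e.2 ∣ (f e).1 → (f e).1 = (f e').1 → e.2 = e'.2 := by
      intro e he e' he' hd h
      obtain ⟨_, _, h1, h2⟩ := hf e he
      obtain ⟨_, _, h3, h4⟩ := hf e' he'
      apply hQuniq _ _ _ _ _ h3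
      rw [← h]
      exact hd.mul_right _
    have hQf2 : ∀ e ∈ H, ∀ e' ∈ H, Q e.2 ∣ (f e).2 → (f e).2 = (f e').2 → e.2 = e'.2 := by
      intro e he e' he' hd h
      obtain ⟨_, _, h1, h2⟩ := hf e he
      obtain ⟨_, _, h3, h4⟩ := hf e' he'
      apply hQuniq _ _ _ _ _ h3
      rw [← h]
      exact hd.mul_left _
    -- the three classes of edges
    set T1 := H.filter (fun e => Q e.2 ∣ (f e).1) with hT1
    set T2 := H.filter (fun e => ¬ Q e.2 ∣ (f e).1) with hT2
    set Ta := T2.filter (fun e => ∀ e' ∈ T2, (f e').1 = (f e).1 → e' = e) with hTa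
    set Tb := T2.filter (fun e => ¬ ∀ e' ∈ T2, (f e').1 = (f e).1 → e' = e) with hTb
    have hc1 : T1.card ≤ C.card := by
      apply card_le_card_of_injOn (fun e => (f e).1)
      · intro e he
        exact (hf e (mem_filter.1 he).1).1
      · intro e he e' he' h
        have h1 := mem_filter.1 (mem_coe.1 he)
        have h2 := mem_filter.1 (mem_coe.1 he')
        exact Prod.ext (hPf e h1.1 e' h2.1 h) (hQf e h1.1 e' h2.1 h1.2 h)
    have hca : Ta.card ≤ C.card := by
      apply card_le_card_of_injOn (fun e => (f e).1)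
      · intro e he
        have h1 := mem_filter.1 (mem_coe.1 he)
        exact (hf e (mem_filter.1 h1.1).1).1
      · intro e he e' he' h
        have h1 := mem_filter.1 (mem_coe.1 he)
        have h2 := mem_filter.1 (mem_coe.1 he')
        exact h2.2 e h1.1 h
    have hQ2 : ∀ e ∈ T2, Q e.2 ∣ (f e).2 := by
      intro e he
      have h1 := mem_filter.1 he
      obtain ⟨_, _, h3, _⟩ := hf e h1.1
      rcases (hQ e.2).dvd_mul.1 (hQj _ _ _ _ h3) with h4 | h4
      · exact absurd h4 h1.2
      · exact h4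
    have hcb : Tb.card ≤ C.card := by
      apply card_le_card_of_injOn (fun e => (f e).2)
      · intro e he
        have h1 := mem_filter.1 (mem_coe.1 he)
        exact (hf e (mem_filter.1 h1.1).1).2.1
      · intro e he e3 he3 h
        have h1 := mem_filter.1 (mem_coe.1 he)
        have h2 := mem_filter.1 (mem_coe.1 he3)
        have heH := (mem_filter.1 h1.1).1
        have he3H := (mem_filter.1 h2.1).1
        have hj : e.2 = e3.2 := hQf2 e heH e3 he3H (hQ2 e h1.1) h
        by_contra hne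
        have hi : e.1 ≠ e3.1 := fun hi => hne (Prod.ext hi hj)
        have h3 := h1.2
        push Not at h3
        obtain ⟨e2, he2, hf2, hne2⟩ := h3
        have he2H := (mem_filter.1 he2).1
        have hi2 : e2.1 = e.1 := hPf e2 he2H e heH hf2
        have hj2 : e2.2 ≠ e.2 := fun hj2 => hne2 (Prod.ext hi2 hj2)
        obtain ⟨_, _, g1, _⟩ := hf e heH
        obtain ⟨_, _, g2, _⟩ := hf e2 he2H
        obtain ⟨_, _, g3, _⟩ := hf e3 he3H
        -- `(e3.1, e2.2)` is an edge
        have hprod : (f e3).1 * (f e2).2 * D e3.1 = P e3.1 * (Q e2.2 * Y e2.2) := by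
          have hpos1 : 0 < (f e).1 * (f e).2 * D e.1 := by
            rw [g1]
            have := hYpos e.2
            have := (hP e.1).pos
            have := (hQ e.2).pos
            positivity
          apply Nat.eq_of_mul_eq_mul_left hpos1
          have e1 : (f e).2 = (f e3).2 := h
          calc (f e).1 * (f e).2 * D e.1 * ((f e3).1 * (f e2).2 * D e3.1)
              = ((f e2).1 * (f e2).2 * D e2.1) * ((f e3).1 * (f e3).2 * D e3.1) := by
                rw [hf2, hi2, ← e1]; ring
            _ = (P e2.1 * (Q e2.2 * Y e2.2)) * (P e3.1 * (Q e3.2 * Y e3.2)) := by rw [g2, g3]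
            _ = (P e.1 * (Q e.2 * Y e.2)) * (P e3.1 * (Q e2.2 * Y e2.2)) := by
                rw [hi2, ← hj]; ring
            _ = (f e).1 * (f e).2 * D e.1 * (P e3.1 * (Q e2.2 * Y e2.2)) := by rw [g1]
        have hedge2 := hedge _ _ _ _ hprod
        refine hH e.1 e3.1 e.2 e2.2 hi hj2.symm ?_ ?_ ?_ hedge2
        · exact heH
        · rw [← hi2]; exact he2H
        · rw [hj]; exact he3H
    have hcard1 : H.card = T1.card + T2.card :=
      (card_filter_add_card_filter_not (s := H) (fun e => Q e.2 ∣ (f e).1)).symm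
    have hcard2 : T2.card = Ta.card + Tb.card :=
      (card_filter_add_card_filter_not (s := T2)
        (fun e => ∀ e' ∈ T2, (f e').1 = (f e).1 → e' = e)).symm
    omega

end Q248.MulBasis
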