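import Mathlib

/-!
Auxiliary results for MP_a22f36: a counting argument on pairs of residues modulo `N`.
-/

namespace Q248.PrimeTree

open Finset

variable {R : Type} [CommRing R]

/-- The element of order six. -/
def g (s : R × R) : R × R := (-s.2, s.1 + s.2)

/-- Reversal of an edge. -/
def σ (s : R × R) : R × R := (s.2, -s.1)

def Lm (s : R × R) : R × R := (s.1, s.1 + s.2)

def Rm (s : R × R) : R × R := (s.1 + s.2, s.2)

theorem Lm_eq (s : R × R) : Lm s = σ (g (g s)) := by
  ext <;> simp [Lm, σ, g]

theorem Rm_eq (s : R × R) : Rm s = σ (g s) := by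
  ext <;> simp [Rm, σ, g]

theorem g3 (s : R × R) : g (g (g s)) = -s := by
  ext <;> simp [g]

theorem σσ (s : R × R) : σ (σ s) = -s := by
  ext <;> simp [σ]

theorem σ_neg (s : R × R) : σ (-s) = -σ s := by
  ext <;> simp [σ]

theorem g_neg (s : R × R) : g (-s) = -g s := by
  ext <;> simp [g]; ring

theorem g_inj : Function.Injective (g : R × R → R × R) := by
  intro s t h
  have := congrArg (fun x => -g (g x)) h
  simpa [g3] using this

theorem coprime_g {s : R × R} (hs : IsCoprime s.1 s.2) : IsCoprime (g s).1 (g s).2 := by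
  obtain ⟨a, b, hab⟩ := hs
  exact ⟨a - b, a, by simp only [g]; linear_combination hab⟩

theorem coprime_σ {s : R × R} (hs : IsCoprime s.1 s.2) : IsCoprime (σ s).1 (σ s).2 := by
  obtain ⟨a, b, hab⟩ := hs
  exact ⟨b, -a, by simp only [σ]; linear_combination hab⟩

section free

variable {i : R} (hi : 6 * i = 1) (h01 : (0 : R) ≠ 1)

include hi h01

theorem ne_aux {s : R × R} (hs : IsCoprime s.1 s.2) :
    g s ≠ s ∧ g (g s) ≠ s ∧ -s ≠ s ∧ -g s ≠ s ∧ -g (g s) ≠ s := by
  obtain ⟨x, y⟩ := s
  have hne : ¬ (x = 0 ∧ y = 0) := by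
    rintro ⟨rfl, rfl⟩
    obtain ⟨a, b, hab⟩ := hs
    simp at hab
    exact h01 hab
  refine ⟨?_, ?_, ?_, ?_, ?_⟩
  · intro h
    simp only [g, Prod.mk.injEq] at h
    obtain ⟨h1, h2⟩ := h
    apply hne
    constructor
    · linear_combination h2
    · linear_combination -h1 - h2
  · intro h
    simp only [g, Prod.mk.injEq] at h
    obtain ⟨h1, h2⟩ := h
    have hx : x = 0 := by linear_combination (-2 * i) * h1 + (2 * i) * h2 - x * hi
    have hy : y = 0 := by linear_combination hx - h2
    exact hne ⟨hx, hy⟩
  · intro h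
    simp only [Prod.ext_iff, Prod.fst_neg, Prod.snd_neg] at h
    obtain ⟨h1, h2⟩ := h
    have hx : x = 0 := by linear_combination (-3 * i) * h1 - x * hi
    have hy : y = 0 := by linear_combination (-3 * i) * h2 - y * hi
    exact hne ⟨hx, hy⟩
  · intro h
    simp only [g, Prod.ext_iff, Prod.fst_neg, Prod.snd_neg, neg_neg] at h
    obtain ⟨h1, h2⟩ := h
    have hx : x = 0 := by linear_combination (-4 * i) * h1 + (-2 * i) * h2 - x * hi
    have hy : y = 0 := by linear_combination hx + h1
    exact hne ⟨hx, hy⟩
  · intro h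
    simp only [g, Prod.ext_iff, Prod.fst_neg, Prod.snd_neg, neg_neg] at h
    obtain ⟨h1, h2⟩ := h
    have hy : y = 0 := by linear_combination h1
    have hx : x = 0 := by linear_combination -h2 - hy
    exact hne ⟨hx, hy⟩

end free

variable [DecidableEq R]

/-- The orbit. -/
def orb (s : R × R) : Finset (R × R) := {s, g s, g (g s), -s, -g s, -g (g s)}

theorem mem_orb {s t : R × R} : t ∈ orb s ↔
    t = s ∨ t = g s ∨ t = g (g s) ∨ t = -s ∨ t = -g s ∨ t = -g (g s) := by
  simp [orb]

theorem orb_card {i : R} (hi : 6 * i = 1) (h01 : (0 : R) ≠ 1) {s : R × R}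
    (hs : IsCoprime s.1 s.2) : (orb s).card = 6 := by
  obtain ⟨a1, a2, a3, a4, a5⟩ := ne_aux hi h01 hs
  obtain ⟨b1, b2, b3, b4, b5⟩ := ne_aux hi h01 (coprime_g hs)
  obtain ⟨c1, c2, c3, c4, c5⟩ := ne_aux hi h01 (coprime_g (coprime_g hs))
  unfold orb
  rw [card_insert_of_notMem, card_insert_of_notMem, card_insert_of_notMem, card_insert_of_notMem,
    card_insert_of_notMem, card_singleton]
  · rw [mem_singleton, neg_inj]
    exact fun h => b1 h.symm
  · simp only [mem_singleton, mem_insert, neg_inj, not_or]
    exact ⟨fun h => a1 h.symm, fun h => a2 h.symm⟩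
  · simp only [mem_singleton, mem_insert, not_or]
    refine ⟨fun h => a5 (by rw [h]; simp), fun h => b4 (by rw [h]; simp), fun h => c3 h.symm⟩
  · simp only [mem_singleton, mem_insert, not_or]
    refine ⟨fun h => b1 h.symm, fun h => a4 (by rw [h]; simp), fun h => b3 h.symm,
      fun h => b4 (h.symm)⟩
  · simp only [mem_singleton, mem_insert, not_or]
    exact ⟨fun h => a1 h.symm, fun h => a2 h.symm, fun h => a3 h.symm, fun h => a4 h.symm,
      fun h => a5 h.symm⟩

theorem orb_g {s t : R × R} (h : t ∈ orb s) : g t ∈ orb s := by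
  rw [mem_orb] at h ⊢
  rcases h with rfl | rfl | rfl | rfl | rfl | rfl <;> simp [g3, g_neg]

theorem orb_g' {s t : R × R} (h : g t ∈ orb s) : t ∈ orb s := by
  have := orb_g (orb_g (orb_g (orb_g (orb_g h))))
  simpa [g3, g_neg] using this

/-- Existence of a set closed under one of the two moves. -/
theorem exists_closed {i : R} (hi : 6 * i = 1) (h01 : (0 : R) ≠ 1) :
    ∀ (n : ℕ) (W : Finset (R × R)), W.card = n → (∀ s ∈ W, IsCoprime s.1 s.2) →
      (∀ s ∈ W, g s ∈ W) → 2 * W.card < 3 * (W.filter (fun s => σ s ∈ W)).card →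
      ∃ V ⊆ W, V.Nonempty ∧ ∀ s ∈ V, Lm s ∈ V ∨ Rm s ∈ V := by
  intro n
  induction n using Nat.strong_induction_on with
  | _ n ih =>
    intro W hn hcop hg hcard
    by_cases hall : ∀ s ∈ W, Lm s ∈ W ∨ Rm s ∈ W
    · refine ⟨W, Subset.refl _, ?_, hall⟩
      rw [Finset.nonempty_iff_ne_empty]
      rintro rfl
      simp at hcard
    · push Not at hall
      obtain ⟨s, hs, hL, hR⟩ := hall
      have hneg : ∀ t ∈ W, -t ∈ W := by
        intro t ht
        rw [← g3]
        exact hg _ (hg _ (hg _ ht))
      have hneg' : ∀ t, -t ∈ W → t ∈ W := by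
        intro t ht
        have := hneg _ ht
        rwa [neg_neg] at this
      have hO : orb s ⊆ W := by
        intro t ht
        rw [mem_orb] at ht
        rcases ht with rfl | rfl | rfl | rfl | rfl | rfl
        · exact hs
        · exact hg _ hs
        · exact hg _ (hg _ hs)
        · exact hneg _ hs
        · exact hneg _ (hg _ hs)
        · exact hneg _ (hg _ (hg _ hs))
      have h6 := orb_card hi h01 (hcop s hs)
      have hWc : (W \ orb s).card + 6 = W.card := by
        rw [← h6]; exact card_sdiff_add_card_eq_card hO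
      -- elements of the orbit whose reversal lies in `W`
      have hin : ∀ t ∈ orb s, σ t ∈ W → t = s ∨ t = -s := by
        intro t ht hσ
        rw [mem_orb] at ht
        rcases ht with rfl | rfl | rfl | rfl | rfl | rfl
        · exact Or.inl rfl
        · rw [← Rm_eq] at hσ; exact absurd hσ hR
        · rw [← Lm_eq] at hσ; exact absurd hσ hL
        · exact Or.inr rfl
        · rw [σ_neg, ← Rm_eq] at hσ; exact absurd (hneg' _ hσ) hR
        · rw [σ_neg, ← Lm_eq] at hσ; exact absurd (hneg' _ hσ) hL
      have hE : W.filter (fun t => σ t ∈ W) ⊆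
          (W \ orb s).filter (fun t => σ t ∈ W \ orb s) ∪ {s, -s, σ s, -σ s} := by
        intro t ht
        rw [mem_filter] at ht
        obtain ⟨htW, hσW⟩ := ht
        by_cases h1 : t ∈ orb s
        · rw [mem_union]; right
          rcases hin t h1 hσW with rfl | rfl <;> simp
        · by_cases h2 : σ t ∈ orb s
          · rw [mem_union]; right
            have h3 : σ (σ t) ∈ W := by rw [σσ]; exact hneg _ htW
            rcases hin _ h2 h3 with h4 | h4
            · have h5 : t = -σ s := by rw [← h4, σσ, neg_neg]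
              simp [h5]
            · have h5 : t = σ s := by
                have : σ (σ t) = -σ s := by rw [h4, σ_neg]
                rw [σσ] at this
                exact neg_injective this
              simp [h5]
          · rw [mem_union]; left
            simp [h1, h2, htW, hσW]
      have hEc : (W.filter (fun t => σ t ∈ W)).card ≤
          ((W \ orb s).filter (fun t => σ t ∈ W \ orb s)).card + 4 := by
        refine (card_le_card hE).trans ((card_union_le _ _).trans ?_)
        gcongr
        exact card_le_four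
      obtain ⟨V, hVW, hVn, hV⟩ := ih (W \ orb s).card (by omega) (W \ orb s) rfl
        (fun t ht => hcop t (mem_sdiff.1 ht).1)
        (by
          intro t ht
          rw [mem_sdiff] at ht ⊢
          exact ⟨hg _ ht.1, fun h => ht.2 (orb_g' h)⟩)
        (by omega)
      exact ⟨V, hVW.trans sdiff_subset, hVn, hV⟩

end Q248.PrimeTree
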