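import Mathlib
import Pool.Agent.Q248.PrimeTree

/-!
Auxiliary results for MP_a22f36: the counting estimates.
-/

namespace Q248.PrimeTree

open Finset

theorem coprime_of_gcd {N : ℕ} [NeZero N] {X Y : ZMod N}
    (h : Nat.gcd (Nat.gcd X.val Y.val) N = 1) : IsCoprime X Y := by
  have h1 : IsCoprime ((Nat.gcd X.val Y.val : ℕ) : ℤ) (N : ℤ) :=
    Nat.isCoprime_iff_coprime.2 h
  obtain ⟨a, b, hab⟩ := h1
  have h2 := Nat.gcd_eq_gcd_ab X.val Y.val
  rw [h2] at hab
  have h3 := congrArg (fun z : ℤ => (z : ZMod N)) hab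
  simp only [Int.cast_add, Int.cast_mul, Int.cast_natCast, CharP.cast_eq_zero, mul_zero, add_zero,
    Int.cast_one, ZMod.natCast_zmod_val] at h3
  exact ⟨a * (Nat.gcdA X.val Y.val : ℤ), a * (Nat.gcdB X.val Y.val : ℤ), by
    linear_combination h3⟩

theorem gcd_of_coprime {N X Y : ℕ} (h : IsCoprime (X : ZMod N) (Y : ZMod N)) :
    Nat.gcd (Nat.gcd X Y) N = 1 := by
  obtain ⟨a, b, hab⟩ := h
  by_contra hne
  obtain ⟨p, hp, hpd⟩ := Nat.exists_prime_and_dvd hne
  have hpX : p ∣ X := (hpd.trans (Nat.gcd_dvd_left _ _)).trans (Nat.gcd_dvd_left _ _)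
  have hpY : p ∣ Y := (hpd.trans (Nat.gcd_dvd_left _ _)).trans (Nat.gcd_dvd_right _ _)
  have hpN : p ∣ N := hpd.trans (Nat.gcd_dvd_right _ _)
  have : Fact p.Prime := ⟨hp⟩
  have h2 := congrArg (ZMod.castHom hpN (ZMod p)) hab
  simp only [map_add, map_mul, map_natCast, map_one] at h2
  rw [(ZMod.natCast_eq_zero_iff X p).2 hpX, (ZMod.natCast_eq_zero_iff Y p).2 hpY] at h2
  simp at h2

theorem card_mult_le {N p : ℕ} [NeZero N] (hpN : p ∣ N) :
    ((univ : Finset (ZMod N)).filter (fun X => p ∣ X.val)).card ≤ N / p := by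
  conv_rhs => rw [← card_range (N / p)]
  apply card_le_card_of_injOn (fun X => X.val / p)
  · intro X hX
    have hX' : p ∣ X.val := by simpa using hX
    simp only [coe_range, Set.mem_Iio]
    exact Nat.div_lt_div_of_lt_of_dvd hpN (ZMod.val_lt X)
  · intro X hX Y hY h
    have hX' : p ∣ X.val := by simpa using hX
    have hY' : p ∣ Y.val := by simpa using hY
    apply ZMod.val_injective
    have h' : X.val / p = Y.val / p := h
    rw [← Nat.div_mul_cancel hX', ← Nat.div_mul_cancel hY', h']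

theorem totient_prod_le (P : Finset ℕ) (hP : ∀ p ∈ P, p.Prime) :
    (Nat.totient (∏ p ∈ P, p) : ℝ) ≤ (∏ p ∈ P, p : ℕ) * Real.exp (-∑ p ∈ P, (1 : ℝ) / p) := by
  have h := Nat.totient_eq_mul_prod_factors (∏ p ∈ P, p)
  rw [Nat.primeFactors_prod hP] at h
  have h' : (Nat.totient (∏ p ∈ P, p) : ℝ) = (∏ p ∈ P, p : ℕ) * ∏ p ∈ P, (1 - (p : ℝ)⁻¹) := by
    have h2 := congrArg (fun q : ℚ => (q : ℝ)) h
    push_cast at h2 ⊢
    exact h2
  rw [h']
  gcongr
  rw [← sum_neg_distrib, Real.exp_sum]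
  apply prod_le_prod
  · intro p hp
    have := (hP p hp).one_lt
    have h1 : (1 : ℝ) < p := by exact_mod_cast this
    have := inv_lt_one_of_one_lt₀ h1
    linarith
  · intro p hp
    have := Real.add_one_le_exp (-(1 : ℝ) / p)
    rw [neg_div] at this
    calc 1 - (p : ℝ)⁻¹ = -(1 / (p : ℝ)) + 1 := by rw [one_div]; ring
      _ ≤ _ := this

theorem exists_primes (M : ℕ) (C : ℝ) : ∃ P : Finset ℕ, (∀ p ∈ P, p.Prime ∧ M ≤ p) ∧
    C ≤ ∑ p ∈ P, (1 : ℝ) / p := by
  by_contra hcon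
  push Not at hcon
  apply Nat.Primes.not_summable_one_div
  have h1 : Summable (fun n : ℕ => if n.Prime ∧ M ≤ n then (1 : ℝ) / n else 0) := by
    apply summable_of_sum_le (c := C)
    · intro n
      dsimp only
      split_ifs <;> positivity
    · intro u
      rw [← sum_filter]
      exact (hcon (u.filter (fun n => n.Prime ∧ M ≤ n)) (fun p hp => (mem_filter.1 hp).2)).le
  have h2 : Summable (fun n : ℕ => if n.Prime then (1 : ℝ) / n else 0) := by
    rw [← summable_nat_add_iff M]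
    rw [← summable_nat_add_iff M] at h1
    refine h1.congr ?_
    intro n
    simp
  have h3 : Summable (Set.indicator {n : ℕ | n.Prime} (fun n : ℕ => (1 : ℝ) / n)) := by
    refine h2.congr ?_
    intro n
    simp [Set.indicator_apply]
  rw [← summable_subtype_iff_indicator] at h3
  exact h3

variable {N : ℕ} [NeZero N]

open Classical in
/-- primitive pairs -/
noncomputable def S (N : ℕ) [NeZero N] : Finset (ZMod N × ZMod N) :=
  univ.filter (fun s => IsCoprime s.1 s.2)

open Classical in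
/-- primitive pairs with no unit among the three entries -/
noncomputable def W0 (N : ℕ) [NeZero N] : Finset (ZMod N × ZMod N) :=
  (S N).filter (fun s => ¬ IsUnit s.1 ∧ ¬ IsUnit s.2 ∧ ¬ IsUnit (s.1 + s.2))

open Classical in
theorem card_unit : ((univ : Finset (ZMod N)).filter (fun X => IsUnit X)).card = Nat.totient N := by
  rw [← ZMod.card_units_eq_totient N, ← card_univ]
  symm
  apply card_bij (fun (u : (ZMod N)ˣ) _ => (u : ZMod N))
  · intro u _
    simp
  · intro u _ v _ h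
    exact Units.ext h
  · intro X hX
    obtain ⟨u, hu⟩ := (mem_filter.1 hX).2
    exact ⟨u, mem_univ _, hu⟩

open Classical in
theorem card_bad : (S N \ W0 N).card ≤ 3 * (Nat.totient N * N) := by
  have h1 : ((univ : Finset (ZMod N × ZMod N)).filter (fun s => IsUnit s.1)).card
      = Nat.totient N * N := by
    have : (univ : Finset (ZMod N × ZMod N)).filter (fun s => IsUnit s.1) =
        (univ.filter (fun X : ZMod N => IsUnit X)) ×ˢ (univ : Finset (ZMod N)) := by
      ext s; simp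
    rw [this, card_product, card_unit, card_univ, ZMod.card]
  have h2 : ((univ : Finset (ZMod N × ZMod N)).filter (fun s => IsUnit s.2)).card
      = Nat.totient N * N := by
    rw [← h1]
    apply card_bij (fun s _ => (s.2, s.1))
    · intro s hs; simpa using hs
    · intro s _ t _ h
      simp only [Prod.mk.injEq] at h
      exact Prod.ext h.2 h.1
    · intro s hs
      exact ⟨(s.2, s.1), by simpa using hs, rfl⟩
  have h3 : ((univ : Finset (ZMod N × ZMod N)).filter (fun s => IsUnit (s.1 + s.2))).card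
      = Nat.totient N * N := by
    rw [← h1]
    apply card_bij (fun s _ => (s.1 + s.2, s.2))
    · intro s hs; simpa using hs
    · intro s _ t _ h
      simp only [Prod.mk.injEq] at h
      obtain ⟨ha, hb⟩ := h
      rw [hb] at ha
      exact Prod.ext (add_right_cancel ha) hb
    · intro s hs
      exact ⟨(s.1 - s.2, s.2), by simpa using hs, by simp⟩
  have hsub : S N \ W0 N ⊆ (univ.filter (fun s : ZMod N × ZMod N => IsUnit s.1)) ∪
      (univ.filter (fun s : ZMod N × ZMod N => IsUnit s.2)) ∪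
      (univ.filter (fun s : ZMod N × ZMod N => IsUnit (s.1 + s.2))) := by
    intro s hs
    rw [mem_sdiff, W0, mem_filter] at hs
    obtain ⟨hS, hn⟩ := hs
    simp only [mem_union, mem_filter, mem_univ, true_and]
    by_contra hcon
    push Not at hcon
    exact hn ⟨hS, hcon.1.1, hcon.1.2, hcon.2⟩
  have := card_le_card hsub
  have h4 := card_union_le ((univ.filter (fun s : ZMod N × ZMod N => IsUnit s.1)) ∪
      (univ.filter (fun s : ZMod N × ZMod N => IsUnit s.2)))
      (univ.filter (fun s : ZMod N × ZMod N => IsUnit (s.1 + s.2)))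
  have h5 := card_union_le (univ.filter (fun s : ZMod N × ZMod N => IsUnit s.1))
      (univ.filter (fun s : ZMod N × ZMod N => IsUnit s.2))
  omega

open Classical in
theorem card_edges : (S N).card ≤ ((W0 N).filter (fun s => σ s ∈ W0 N)).card +
    2 * (S N \ W0 N).card := by
  have hsub : S N ⊆ (W0 N).filter (fun s => σ s ∈ W0 N) ∪ (S N \ W0 N) ∪
      (S N).filter (fun s => σ s ∈ S N \ W0 N) := by
    intro s hs
    by_cases h1 : s ∈ W0 N
    · by_cases h2 : σ s ∈ W0 N
      · simp [h1, h2]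
      · have h3 : σ s ∈ S N := by
          rw [S, mem_filter] at hs ⊢
          exact ⟨mem_univ _, coprime_σ hs.2⟩
        simp [h2, hs, h3]
    · simp [hs, h1]
  have h1 : ((S N).filter (fun s => σ s ∈ S N \ W0 N)).card ≤ (S N \ W0 N).card := by
    apply card_le_card_of_injOn σ
    · intro s hs
      have := (mem_filter.1 (mem_coe.1 hs)).2
      exact mem_coe.2 this
    · intro s _ t _ h
      have := congrArg (fun x => -σ x) h
      simpa [σσ] using this
  have h2 := card_le_card hsub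
  have h3 := card_union_le ((W0 N).filter (fun s => σ s ∈ W0 N) ∪ (S N \ W0 N))
    ((S N).filter (fun s => σ s ∈ S N \ W0 N))
  have h4 := card_union_le ((W0 N).filter (fun s => σ s ∈ W0 N)) (S N \ W0 N)
  omega

theorem W0_sub : W0 N ⊆ S N := filter_subset _ _

theorem W0_g {s : ZMod N × ZMod N} (hs : s ∈ W0 N) : g s ∈ W0 N := by
  classical
  rw [W0, mem_filter, S, mem_filter] at hs ⊢
  obtain ⟨⟨_, hc⟩, h1, h2, h3⟩ := hs
  refine ⟨⟨mem_univ _, coprime_g hc⟩, ?_, ?_, ?_⟩
  · simpa [g] using h2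
  · simpa [g] using h3
  · simpa [g] using h1

theorem sum_sq_le (P : Finset ℕ) (hP : ∀ p ∈ P, p.Prime ∧ 5 ≤ p) :
    ∑ p ∈ P, ((p : ℝ) ^ 2)⁻¹ ≤ 1 / 4 := by
  obtain ⟨n, hn⟩ : ∃ n, P ⊆ Ioc 4 (4 + n) := by
    refine ⟨P.sup id, fun p hp => ?_⟩
    have := (hP p hp).2
    have h2 : p ≤ P.sup id := le_sup (f := id) hp
    rw [mem_Ioc]
    omega
  calc ∑ p ∈ P, ((p : ℝ) ^ 2)⁻¹ ≤ ∑ p ∈ Ioc 4 (4 + n), ((p : ℝ) ^ 2)⁻¹ := by
        apply sum_le_sum_of_subset_of_nonneg hn
        intros; positivity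
    _ ≤ ((4 : ℕ) : ℝ)⁻¹ - ((4 + n : ℕ) : ℝ)⁻¹ := sum_Ioc_inv_sq_le_sub (by norm_num) (by omega)
    _ ≤ 1 / 4 := by
        have : (0 : ℝ) ≤ ((4 + n : ℕ) : ℝ)⁻¹ := by positivity
        norm_num at this ⊢
        linarith

open Classical in
theorem card_S_ge (P : Finset ℕ) (hP : ∀ p ∈ P, p.Prime ∧ 5 ≤ p) (hN : N = ∏ p ∈ P, p) :
    (3 / 4 : ℝ) * (N : ℝ) ^ 2 ≤ (S N).card := by
  have hNpos : 0 < N := Nat.pos_of_ne_zero (NeZero.ne N)
  have hsub : (univ : Finset (ZMod N × ZMod N)) ⊆ S N ∪ P.biUnion (fun p =>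
      (univ.filter (fun X : ZMod N => p ∣ X.val)) ×ˢ (univ.filter (fun X : ZMod N => p ∣ X.val))) := by
    intro s _
    by_cases h : IsCoprime s.1 s.2
    · simp [S, h]
    · rw [mem_union]; right
      have h1 : Nat.gcd (Nat.gcd s.1.val s.2.val) N ≠ 1 := fun h2 => h (coprime_of_gcd h2)
      obtain ⟨p, hp, hpd⟩ := Nat.exists_prime_and_dvd h1
      have hpX : p ∣ s.1.val := (hpd.trans (Nat.gcd_dvd_left _ _)).trans (Nat.gcd_dvd_left _ _)
      have hpY : p ∣ s.2.val := (hpd.trans (Nat.gcd_dvd_left _ _)).trans (Nat.gcd_dvd_right _ _)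
      have hpN : p ∣ N := hpd.trans (Nat.gcd_dvd_right _ _)
      rw [hN, Prime.dvd_finsetProd_iff hp.prime] at hpN
      obtain ⟨q, hq, hpq⟩ := hpN
      have : p = q := (Nat.prime_dvd_prime_iff_eq hp (hP q hq).1).1 hpq
      subst this
      rw [mem_biUnion]
      exact ⟨p, hq, by simp [hpX, hpY]⟩
  have h1 := card_le_card hsub
  have h2 := card_union_le (S N) (P.biUnion (fun p =>
      (univ.filter (fun X : ZMod N => p ∣ X.val)) ×ˢ (univ.filter (fun X : ZMod N => p ∣ X.val))))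
  have h3 : (P.biUnion (fun p =>
      (univ.filter (fun X : ZMod N => p ∣ X.val)) ×ˢ
        (univ.filter (fun X : ZMod N => p ∣ X.val)))).card ≤ ∑ p ∈ P, (N / p) * (N / p) := by
    refine card_biUnion_le.trans (sum_le_sum fun p hp => ?_)
    rw [card_product]
    have hpN : p ∣ N := by rw [hN]; exact dvd_prod_of_mem _ hp
    exact Nat.mul_le_mul (card_mult_le hpN) (card_mult_le hpN)
  have h4 : ((∑ p ∈ P, (N / p) * (N / p) : ℕ) : ℝ) ≤ (N : ℝ) ^ 2 * (1 / 4) := by
    calc ((∑ p ∈ P, (N / p) * (N / p) : ℕ) : ℝ) = ∑ p ∈ P, ((N / p : ℕ) : ℝ) * ((N / p : ℕ) : ℝ) := by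
          push_cast; rfl
      _ ≤ ∑ p ∈ P, (N : ℝ) ^ 2 * ((p : ℝ) ^ 2)⁻¹ := by
          apply sum_le_sum
          intro p hp
          have : ((N / p : ℕ) : ℝ) ≤ (N : ℝ) / p := Nat.cast_div_le
          have h0 : (0 : ℝ) ≤ ((N / p : ℕ) : ℝ) := by positivity
          calc ((N / p : ℕ) : ℝ) * ((N / p : ℕ) : ℝ) ≤ ((N : ℝ) / p) * ((N : ℝ) / p) := by
                gcongr
            _ = _ := by rw [div_eq_mul_inv]; ring
      _ = (N : ℝ) ^ 2 * ∑ p ∈ P, ((p : ℝ) ^ 2)⁻¹ := by rw [mul_sum]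
      _ ≤ _ := by gcongr; exact sum_sq_le P hP
  have h5 : (N : ℝ) ^ 2 ≤ (S N).card + (∑ p ∈ P, (N / p) * (N / p) : ℕ) := by
    have : N * N ≤ (S N).card + ∑ p ∈ P, (N / p) * (N / p) := by
      rw [card_univ, Fintype.card_prod, ZMod.card] at h1
      omega
    have h6 : ((N * N : ℕ) : ℝ) ≤ (((S N).card + ∑ p ∈ P, (N / p) * (N / p) : ℕ) : ℝ) := by
      exact_mod_cast this
    push_cast at h6 ⊢
    nlinarith [h6]
  linarith

/-- The closed set of states. -/
theorem exists_states (P : Finset ℕ) (hP : ∀ p ∈ P, p.Prime ∧ 5 ≤ p)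
    (hsum : 4 ≤ ∑ p ∈ P, (1 : ℝ) / p) (hN : N = ∏ p ∈ P, p) :
    ∃ V : Finset (ZMod N × ZMod N), V.Nonempty ∧ (∀ s ∈ V, Lm s ∈ V ∨ Rm s ∈ V) ∧
      ∀ s ∈ V, IsCoprime s.1 s.2 ∧ ¬ IsUnit s.1 ∧ ¬ IsUnit s.2 := by
  classical
  have hNpos : 0 < N := Nat.pos_of_ne_zero (NeZero.ne N)
  have hPne : P.Nonempty := by
    rw [Finset.nonempty_iff_ne_empty]
    rintro rfl
    simp at hsum
    norm_num at hsum
  have hN1 : N ≠ 1 := by
    obtain ⟨p, hp⟩ := hPne
    have hpN : p ∣ N := by rw [hN]; exact dvd_prod_of_mem _ hp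
    intro h
    rw [h] at hpN
    exact (hP p hp).1.one_lt.ne' (Nat.dvd_one.1 hpN)
  have h01 : (0 : ZMod N) ≠ 1 := by
    have : Nontrivial (ZMod N) := ZMod.nontrivial_iff.2 hN1
    exact zero_ne_one
  have hcop : Nat.Coprime 6 N := by
    rw [hN]
    apply Nat.Coprime.prod_right
    intro p hp
    have h5 := (hP p hp).2
    rw [Nat.coprime_comm, (hP p hp).1.coprime_iff_not_dvd]
    intro hd
    have := Nat.le_of_dvd (by norm_num) hd
    interval_cases p
    · norm_num at hd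
    · exact absurd (hP 6 hp).1 (by norm_num)
  obtain ⟨i, hi⟩ : ∃ i : ZMod N, 6 * i = 1 := by
    have : IsUnit ((6 : ℕ) : ZMod N) := (ZMod.isUnit_iff_coprime 6 N).2 hcop
    obtain ⟨u, hu⟩ := this
    refine ⟨(↑u⁻¹ : ZMod N), ?_⟩
    have h6 : ((6 : ℕ) : ZMod N) = 6 := by norm_cast
    rw [← h6, ← hu]
    exact u.mul_inv
  have hSc := card_S_ge P hP hN
  have hbad := card_bad (N := N)
  have hedge := card_edges (N := N)
  have htot := totient_prod_le P (fun p hp => (hP p hp).1)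
  rw [← hN] at htot
  have hexp : Real.exp (-∑ p ∈ P, (1 : ℝ) / p) < 1 / 16 := by
    calc Real.exp (-∑ p ∈ P, (1 : ℝ) / p) ≤ Real.exp (-4) := by
          apply Real.exp_le_exp.2; linarith
      _ < 1 / 16 := by
          rw [Real.exp_neg, show (4 : ℝ) = ((4 : ℕ) : ℝ) * 1 by norm_num, Real.exp_nat_mul]
          have h1 := Real.exp_one_gt_d9
          have h2 : (2 : ℝ) ^ 4 < Real.exp 1 ^ 4 := by gcongr; linarith
          rw [one_div]
          apply inv_strictAnti₀ (by norm_num)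
          norm_num at h2 ⊢
          exact h2
  have hNr : (0 : ℝ) < N := by exact_mod_cast hNpos
  have hφ : (Nat.totient N : ℝ) < N / 16 := by
    calc (Nat.totient N : ℝ) ≤ _ := htot
      _ < N * (1 / 16) := by gcongr
      _ = N / 16 := by ring
  have hbig : 4 * (S N \ W0 N).card < (S N).card := by
    have h1 : ((4 * (S N \ W0 N).card : ℕ) : ℝ) < ((S N).card : ℝ) := by
      have h2 : ((S N \ W0 N).card : ℝ) ≤ 3 * ((Nat.totient N : ℝ) * N) := by exact_mod_cast hbad
      have h3 : (Nat.totient N : ℝ) * N < N / 16 * N := by gcongr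
      push_cast
      nlinarith
    exact_mod_cast h1
  have hW : (W0 N).card + (S N \ W0 N).card = (S N).card := by
    rw [add_comm]; exact card_sdiff_add_card_eq_card W0_sub
  obtain ⟨V, hVW, hVn, hV⟩ := exists_closed hi h01 (W0 N).card (W0 N) rfl
    (fun s hs => by
      have := W0_sub hs
      rw [S, mem_filter] at this
      exact this.2)
    (fun s hs => W0_g hs) (by omega)
  refine ⟨V, hVn, hV, fun s hs => ?_⟩
  have h1 := hVW hs
  rw [W0, mem_filter, S, mem_filter] at h1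
  exact ⟨h1.1.2, h1.2.1, h1.2.2.1⟩

end Q248.PrimeTree
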