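import Mathlib

/-!
Auxiliary results for MP_50e481: explicit powers of a root of `x ^ 10 + x ^ 3 + 1` in
characteristic 2.
-/

namespace Q248.Singer1024

theorem powers {K : Type} [CommRing K] (θ : K) (hf : θ ^ 10 + θ ^ 3 + 1 = 0) (h2 : (2 : K) = 0) :
    θ ^ 758 = θ ^ 31 + 1 ∧ θ ^ 434 = θ ^ 85 + 1 ∧ θ ^ 1023 = 1 ∧ (∃ B : K, (θ ^ 341 - 1) * B = 1) ∧
    (∃ B : K, (θ ^ 93 - 1) * B = 1) ∧ (∃ B : K, (θ ^ 33 - 1) * B = 1) ∧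
    ((θ ^ 31) ^ 2 + θ ^ 31 + 1) ^ 3 = θ ^ 165 * ((θ ^ 31) ^ 2 * (θ ^ 31 + 1) ^ 2) ∧
    (θ ^ 165) ^ 5 + (θ ^ 165) ^ 3 + 1 = 0 ∧
    ((θ ^ 85) ^ 2 + θ ^ 85 + 1) ^ 3 = θ ^ 990 * ((θ ^ 85) ^ 2 * (θ ^ 85 + 1) ^ 2) ∧
    (∃ B : K, ((θ ^ 990) ^ 5 + (θ ^ 990) ^ 3 + 1) * B = 1) := by
  have e7 : θ ^ 7 = θ ^ 7 := by ring
  have e15 : θ ^ 15 = θ ^ 5 + θ ^ 8 := by
    have h1 : θ ^ 15 = (θ ^ 7) ^ 2 * θ := by ring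
    rw [h1, e7]
    linear_combination (θ ^ 5) * hf + ((-1) * θ ^ 5 + (-1) * θ ^ 8) * h2
  have e31 : θ ^ 31 = 1 + θ + θ ^ 3 + θ ^ 4 + θ ^ 7 := by
    have h1 : θ ^ 31 = (θ ^ 15) ^ 2 * θ := by ring
    rw [h1, e15]
    linear_combination ((-1) + θ + θ ^ 7) * hf + ((-1) * θ + (-1) * θ ^ 4 + (-1) * θ ^ 7 + θ ^ 14) * h2
  have e62 : θ ^ 62 = 1 + θ ^ 2 + θ ^ 4 + θ ^ 6 + θ ^ 7 + θ ^ 8 := by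
    have h1 : θ ^ 62 = (θ ^ 31) ^ 2 := by ring
    rw [h1, e31]
    linear_combination (θ ^ 4) * hf + (θ + θ ^ 3 + θ ^ 4 + θ ^ 5 + θ ^ 7 + θ ^ 8 + θ ^ 10 + θ ^ 11) * h2
  have e5 : θ ^ 5 = θ ^ 5 := by ring
  have e11 : θ ^ 11 = θ + θ ^ 4 := by
    have h1 : θ ^ 11 = (θ ^ 5) ^ 2 * θ := by ring
    rw [h1, e5]
    linear_combination (θ) * hf + ((-1) * θ + (-1) * θ ^ 4) * h2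
  have e23 : θ ^ 23 = θ ^ 3 + θ ^ 9 := by
    have h1 : θ ^ 23 = (θ ^ 11) ^ 2 * θ := by ring
    rw [h1, e11]
    linear_combination (0) * hf + (θ ^ 6) * h2
  have e47 : θ ^ 47 = θ ^ 2 + θ ^ 5 + θ ^ 7 + θ ^ 9 := by
    have h1 : θ ^ 47 = (θ ^ 23) ^ 2 * θ := by ring
    rw [h1, e23]
    linear_combination ((-1) * θ ^ 2 + θ ^ 9) * hf + ((-1) * θ ^ 9 + θ ^ 13) * h2
  have e94 : θ ^ 94 = 1 + θ + θ ^ 3 + θ ^ 4 + θ ^ 7 + θ ^ 8 := by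
    have h1 : θ ^ 94 = (θ ^ 47) ^ 2 := by ring
    rw [h1, e47]
    linear_combination (1 + (-1) * θ + θ ^ 4 + θ ^ 8) * hf + ((-1) + (-1) * θ ^ 3 + (-1) * θ ^ 8 + θ ^ 9 + θ ^ 11 + θ ^ 12 + θ ^ 14 + θ ^ 16) * h2
  have e189 : θ ^ 189 = 1 + θ + θ ^ 5 + θ ^ 8 + θ ^ 9 := by
    have h1 : θ ^ 189 = (θ ^ 94) ^ 2 * θ := by ring
    rw [h1, e94]
    linear_combination ((-1) + θ ^ 5 + θ ^ 7) * hf + (θ ^ 2 + θ ^ 3 + θ ^ 4 + θ ^ 5 + θ ^ 6 + θ ^ 8 + 2 * θ ^ 9 + θ ^ 10 + θ ^ 11 + 2 * θ ^ 12 + θ ^ 13 + θ ^ 16) * h2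
  have e379 : θ ^ 379 = 1 + θ ^ 2 + θ ^ 4 + θ ^ 5 + θ ^ 7 + θ ^ 9 := by
    have h1 : θ ^ 379 = (θ ^ 189) ^ 2 * θ := by ring
    rw [h1, e189]
    linear_combination ((-1) + θ + (-1) * θ ^ 2 + θ ^ 7 + θ ^ 9) * hf + (θ ^ 2 + θ ^ 3 + (-1) * θ ^ 4 + θ ^ 6 + 2 * θ ^ 10 + θ ^ 11 + θ ^ 14 + θ ^ 15 + θ ^ 18) * h2
  have e758 : θ ^ 758 = θ + θ ^ 3 + θ ^ 4 + θ ^ 7 := by
    have h1 : θ ^ 758 = (θ ^ 379) ^ 2 := by ring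
    rw [h1, e379]
    linear_combination (1 + (-1) * θ + θ ^ 4 + θ ^ 8) * hf + (θ ^ 2 + (-1) * θ ^ 3 + θ ^ 4 + θ ^ 5 + θ ^ 6 + θ ^ 7 + 3 * θ ^ 9 + 2 * θ ^ 11 + θ ^ 12 + θ ^ 13 + θ ^ 14 + θ ^ 16) * h2
  have e10 : θ ^ 10 = 1 + θ ^ 3 := by
    have h1 : θ ^ 10 = (θ ^ 5) ^ 2 := by ring
    rw [h1, e5]
    linear_combination (1) * hf + ((-1) + (-1) * θ ^ 3) * h2
  have e21 : θ ^ 21 = θ + θ ^ 7 := by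
    have h1 : θ ^ 21 = (θ ^ 10) ^ 2 * θ := by ring
    rw [h1, e10]
    linear_combination (0) * hf + (θ ^ 4) * h2
  have e42 : θ ^ 42 = θ ^ 2 + θ ^ 4 + θ ^ 7 := by
    have h1 : θ ^ 42 = (θ ^ 21) ^ 2 := by ring
    rw [h1, e21]
    linear_combination (θ ^ 4) * hf + ((-1) * θ ^ 4 + (-1) * θ ^ 7 + θ ^ 8) * h2
  have e85 : θ ^ 85 = θ ^ 8 + θ ^ 9 := by
    have h1 : θ ^ 85 = (θ ^ 42) ^ 2 * θ := by ring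
    rw [h1, e42]
    linear_combination (θ ^ 5) * hf + (θ ^ 7 + (-1) * θ ^ 8 + θ ^ 10 + θ ^ 12) * h2
  have e170 : θ ^ 170 = θ + θ ^ 4 + θ ^ 6 + θ ^ 8 + θ ^ 9 := by
    have h1 : θ ^ 170 = (θ ^ 85) ^ 2 := by ring
    rw [h1, e85]
    linear_combination ((-1) * θ + θ ^ 6 + θ ^ 8) * hf + ((-1) * θ ^ 6 + (-1) * θ ^ 8 + (-1) * θ ^ 9 + θ ^ 17) * h2
  have e6 : θ ^ 6 = θ ^ 6 := by ring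
  have e13 : θ ^ 13 = θ ^ 3 + θ ^ 6 := by
    have h1 : θ ^ 13 = (θ ^ 6) ^ 2 * θ := by ring
    rw [h1, e6]
    linear_combination (θ ^ 3) * hf + ((-1) * θ ^ 3 + (-1) * θ ^ 6) * h2
  have e27 : θ ^ 27 = θ ^ 3 + θ ^ 6 + θ ^ 7 := by
    have h1 : θ ^ 27 = (θ ^ 13) ^ 2 * θ := by ring
    rw [h1, e13]
    linear_combination (θ ^ 3) * hf + ((-1) * θ ^ 3 + (-1) * θ ^ 6 + θ ^ 10) * h2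
  have e54 : θ ^ 54 = θ ^ 2 + θ ^ 4 + θ ^ 5 + θ ^ 6 + θ ^ 7 := by
    have h1 : θ ^ 54 = (θ ^ 27) ^ 2 := by ring
    rw [h1, e27]
    linear_combination (θ ^ 2 + θ ^ 4) * hf + ((-1) * θ ^ 2 + (-1) * θ ^ 4 + (-1) * θ ^ 5 + (-1) * θ ^ 7 + θ ^ 9 + θ ^ 10 + θ ^ 13) * h2
  have e108 : θ ^ 108 = 1 + θ ^ 2 + θ ^ 3 + θ ^ 5 + θ ^ 7 + θ ^ 8 := by
    have h1 : θ ^ 108 = (θ ^ 54) ^ 2 := by ring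
    rw [h1, e54]
    linear_combination (1 + θ ^ 2 + θ ^ 4) * hf + ((-1) + (-1) * θ ^ 2 + (-1) * θ ^ 3 + (-1) * θ ^ 5 + θ ^ 6 + θ ^ 8 + 2 * θ ^ 9 + θ ^ 10 + 2 * θ ^ 11 + θ ^ 12 + θ ^ 13) * h2
  have e217 : θ ^ 217 = 1 + θ ^ 3 + θ ^ 4 + θ ^ 8 := by
    have h1 : θ ^ 217 = (θ ^ 108) ^ 2 * θ := by ring
    rw [h1, e108]
    linear_combination ((-1) + θ + θ ^ 5 + θ ^ 7) * hf + (θ ^ 3 + 2 * θ ^ 6 + θ ^ 8 + 2 * θ ^ 9 + θ ^ 10 + 2 * θ ^ 11 + θ ^ 12 + θ ^ 13 + θ ^ 14 + θ ^ 16) * h2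
  have e434 : θ ^ 434 = 1 + θ ^ 8 + θ ^ 9 := by
    have h1 : θ ^ 434 = (θ ^ 217) ^ 2 := by ring
    rw [h1, e217]
    linear_combination (θ ^ 6) * hf + (θ ^ 3 + θ ^ 4 + θ ^ 7 + θ ^ 8 + (-1) * θ ^ 9 + θ ^ 11 + θ ^ 12) * h2
  have e341 : θ ^ 341 = 1 + θ ^ 2 + θ ^ 3 + θ ^ 5 + θ ^ 6 + θ ^ 7 := by
    have h1 : θ ^ 341 = (θ ^ 170) ^ 2 * θ := by ring
    rw [h1, e170]
    linear_combination ((-1) + (-1) * θ ^ 2 + θ ^ 3 + θ ^ 7 + θ ^ 9) * hf + ((-1) * θ ^ 7 + θ ^ 8 + θ ^ 10 + 2 * θ ^ 11 + θ ^ 13 + θ ^ 14 + θ ^ 15 + θ ^ 16 + θ ^ 18) * h2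
  have e46 : θ ^ 46 = θ + θ ^ 4 + θ ^ 6 + θ ^ 8 := by
    have h1 : θ ^ 46 = (θ ^ 23) ^ 2 := by ring
    rw [h1, e23]
    linear_combination ((-1) * θ + θ ^ 8) * hf + ((-1) * θ ^ 8 + θ ^ 12) * h2
  have e93 : θ ^ 93 = 1 + θ ^ 3 + θ ^ 6 + θ ^ 7 + θ ^ 9 := by
    have h1 : θ ^ 93 = (θ ^ 46) ^ 2 * θ := by ring
    rw [h1, e46]
    linear_combination ((-1) + θ ^ 3 + θ ^ 7) * hf + ((-1) * θ ^ 7 + θ ^ 8 + θ ^ 10 + θ ^ 11 + θ ^ 13 + θ ^ 15) * h2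
  have e8 : θ ^ 8 = θ ^ 8 := by ring
  have e16 : θ ^ 16 = θ ^ 6 + θ ^ 9 := by
    have h1 : θ ^ 16 = (θ ^ 8) ^ 2 := by ring
    rw [h1, e8]
    linear_combination (θ ^ 6) * hf + ((-1) * θ ^ 6 + (-1) * θ ^ 9) * h2
  have e33 : θ ^ 33 = θ ^ 2 + θ ^ 3 + θ ^ 5 + θ ^ 6 + θ ^ 9 := by
    have h1 : θ ^ 33 = (θ ^ 16) ^ 2 * θ := by ring
    rw [h1, e16]
    linear_combination ((-1) * θ ^ 2 + θ ^ 3 + θ ^ 9) * hf + ((-1) * θ ^ 3 + (-1) * θ ^ 6 + (-1) * θ ^ 9 + θ ^ 16) * h2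
  have e63 : θ ^ 63 = θ + θ ^ 3 + θ ^ 5 + θ ^ 7 + θ ^ 8 + θ ^ 9 := by
    have h1 : θ ^ 63 = (θ ^ 31) ^ 2 * θ := by ring
    rw [h1, e31]
    linear_combination (θ ^ 5) * hf + (θ ^ 2 + θ ^ 4 + θ ^ 5 + θ ^ 6 + θ ^ 8 + θ ^ 9 + θ ^ 11 + θ ^ 12) * h2
  have e127 : θ ^ 127 = 1 + θ + θ ^ 2 + θ ^ 4 + θ ^ 8 + θ ^ 9 := by
    have h1 : θ ^ 127 = (θ ^ 63) ^ 2 * θ := by ring
    rw [h1, e63]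
    linear_combination ((-1) + θ + (-1) * θ ^ 2 + θ ^ 5 + θ ^ 7 + θ ^ 9) * hf + ((-1) * θ + θ ^ 3 + (-1) * θ ^ 4 + θ ^ 5 + θ ^ 7 + (-1) * θ ^ 8 + θ ^ 9 + θ ^ 10 + 2 * θ ^ 11 + θ ^ 12 + 2 * θ ^ 13 + θ ^ 14 + θ ^ 15 + θ ^ 16 + θ ^ 17 + θ ^ 18) * h2
  have e255 : θ ^ 255 = 1 + θ + θ ^ 2 + θ ^ 7 := by
    have h1 : θ ^ 255 = (θ ^ 127) ^ 2 * θ := by ring
    rw [h1, e127]
    linear_combination ((-1) + (-1) * θ ^ 2 + θ ^ 7 + θ ^ 9) * hf + (θ ^ 2 + 2 * θ ^ 3 + θ ^ 4 + 2 * θ ^ 5 + θ ^ 6 + θ ^ 9 + 2 * θ ^ 10 + 2 * θ ^ 11 + θ ^ 12 + θ ^ 13 + θ ^ 14 + θ ^ 18) * h2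
  have e511 : θ ^ 511 = θ + θ ^ 3 + θ ^ 8 := by
    have h1 : θ ^ 511 = (θ ^ 255) ^ 2 * θ := by ring
    rw [h1, e255]
    linear_combination (θ ^ 5) * hf + (θ ^ 2 + θ ^ 3 + θ ^ 4 + θ ^ 9 + θ ^ 10) * h2
  have e1023 : θ ^ 1023 = 1 := by
    have h1 : θ ^ 1023 = (θ ^ 511) ^ 2 * θ := by ring
    rw [h1, e511]
    linear_combination ((-1) + θ ^ 7) * hf + (θ ^ 3 + θ ^ 5 + θ ^ 10 + θ ^ 12) * h2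
  have e14 : θ ^ 14 = θ ^ 4 + θ ^ 7 := by
    have h1 : θ ^ 14 = (θ ^ 7) ^ 2 := by ring
    rw [h1, e7]
    linear_combination (θ ^ 4) * hf + ((-1) * θ ^ 4 + (-1) * θ ^ 7) * h2
  have e28 : θ ^ 28 = θ ^ 4 + θ ^ 7 + θ ^ 8 := by
    have h1 : θ ^ 28 = (θ ^ 14) ^ 2 := by ring
    rw [h1, e14]
    linear_combination (θ ^ 4) * hf + ((-1) * θ ^ 4 + (-1) * θ ^ 7 + θ ^ 11) * h2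
  have e57 : θ ^ 57 = 1 + θ ^ 3 + θ ^ 5 + θ ^ 7 + θ ^ 8 + θ ^ 9 := by
    have h1 : θ ^ 57 = (θ ^ 28) ^ 2 * θ := by ring
    rw [h1, e28]
    linear_combination ((-1) + θ ^ 5 + θ ^ 7) * hf + ((-1) * θ ^ 5 + (-1) * θ ^ 7 + (-1) * θ ^ 8 + θ ^ 12 + θ ^ 13 + θ ^ 16) * h2
  have e115 : θ ^ 115 = 1 + θ ^ 2 + θ ^ 3 + θ ^ 4 + θ ^ 8 + θ ^ 9 := by
    have h1 : θ ^ 115 = (θ ^ 57) ^ 2 * θ := by ring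
    rw [h1, e57]
    linear_combination ((-1) + θ + (-1) * θ ^ 2 + θ ^ 5 + θ ^ 7 + θ ^ 9) * hf + (θ ^ 6 + θ ^ 9 + θ ^ 10 + θ ^ 11 + θ ^ 12 + 2 * θ ^ 13 + θ ^ 14 + θ ^ 15 + θ ^ 16 + θ ^ 17 + θ ^ 18) * h2
  have e230 : θ ^ 230 = 1 + θ + θ ^ 9 := by
    have h1 : θ ^ 230 = (θ ^ 115) ^ 2 := by ring
    rw [h1, e115]
    linear_combination ((-1) * θ + θ ^ 6 + θ ^ 8) * hf + (θ ^ 2 + θ ^ 3 + 2 * θ ^ 4 + θ ^ 5 + θ ^ 6 + θ ^ 7 + θ ^ 8 + θ ^ 10 + 2 * θ ^ 11 + 2 * θ ^ 12 + θ ^ 13 + θ ^ 17) * h2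
  have e461 : θ ^ 461 = θ + θ ^ 2 + θ ^ 3 + θ ^ 5 + θ ^ 9 := by
    have h1 : θ ^ 461 = (θ ^ 230) ^ 2 * θ := by ring
    rw [h1, e230]
    linear_combination ((-1) * θ ^ 2 + θ ^ 9) * hf + (θ ^ 2 + (-1) * θ ^ 9 + θ ^ 10 + θ ^ 11) * h2
  have e922 : θ ^ 922 = 1 + θ + θ ^ 2 + θ ^ 3 + θ ^ 6 + θ ^ 8 := by
    have h1 : θ ^ 922 = (θ ^ 461) ^ 2 := by ring
    rw [h1, e461]
    linear_combination (1 + (-1) * θ + θ ^ 8) * hf + ((-1) + 2 * θ ^ 4 + θ ^ 5 + θ ^ 6 + θ ^ 7 + θ ^ 10 + θ ^ 11 + θ ^ 12 + θ ^ 14) * h2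
  have e20 : θ ^ 20 = 1 + θ ^ 6 := by
    have h1 : θ ^ 20 = (θ ^ 10) ^ 2 := by ring
    rw [h1, e10]
    linear_combination (0) * hf + (θ ^ 3) * h2
  have e41 : θ ^ 41 = θ + θ ^ 3 + θ ^ 6 := by
    have h1 : θ ^ 41 = (θ ^ 20) ^ 2 * θ := by ring
    rw [h1, e20]
    linear_combination (θ ^ 3) * hf + ((-1) * θ ^ 3 + (-1) * θ ^ 6 + θ ^ 7) * h2
  have e83 : θ ^ 83 = θ ^ 6 + θ ^ 7 := by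
    have h1 : θ ^ 83 = (θ ^ 41) ^ 2 * θ := by ring
    rw [h1, e41]
    linear_combination (θ ^ 3) * hf + (θ ^ 5 + (-1) * θ ^ 6 + θ ^ 8 + θ ^ 10) * h2
  have e167 : θ ^ 167 = θ ^ 3 + θ ^ 5 + θ ^ 6 + θ ^ 8 := by
    have h1 : θ ^ 167 = (θ ^ 83) ^ 2 * θ := by ring
    rw [h1, e83]
    linear_combination (θ ^ 3 + θ ^ 5) * hf + ((-1) * θ ^ 3 + (-1) * θ ^ 5 + (-1) * θ ^ 6 + (-1) * θ ^ 8 + θ ^ 14) * h2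
  have e335 : θ ^ 335 = 1 + θ + θ ^ 4 + θ ^ 6 := by
    have h1 : θ ^ 335 = (θ ^ 167) ^ 2 * θ := by ring
    rw [h1, e167]
    linear_combination ((-1) + θ + θ ^ 3 + θ ^ 7) * hf + ((-1) * θ + (-1) * θ ^ 4 + (-1) * θ ^ 6 + θ ^ 9 + θ ^ 10 + 2 * θ ^ 12 + θ ^ 14 + θ ^ 15) * h2
  have e12 : θ ^ 12 = θ ^ 2 + θ ^ 5 := by
    have h1 : θ ^ 12 = (θ ^ 6) ^ 2 := by ring
    rw [h1, e6]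
    linear_combination (θ ^ 2) * hf + ((-1) * θ ^ 2 + (-1) * θ ^ 5) * h2
  have e25 : θ ^ 25 = θ + θ ^ 4 + θ ^ 5 := by
    have h1 : θ ^ 25 = (θ ^ 12) ^ 2 * θ := by ring
    rw [h1, e12]
    linear_combination (θ) * hf + ((-1) * θ + (-1) * θ ^ 4 + θ ^ 8) * h2
  have e51 : θ ^ 51 = θ + θ ^ 3 + θ ^ 4 + θ ^ 9 := by
    have h1 : θ ^ 51 = (θ ^ 25) ^ 2 * θ := by ring
    rw [h1, e25]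
    linear_combination (θ) * hf + ((-1) * θ + (-1) * θ ^ 4 + θ ^ 6 + θ ^ 7 + θ ^ 10) * h2
  have e103 : θ ^ 103 = θ ^ 2 + θ ^ 3 + θ ^ 5 + θ ^ 7 := by
    have h1 : θ ^ 103 = (θ ^ 51) ^ 2 * θ := by ring
    rw [h1, e51]
    linear_combination ((-1) * θ ^ 2 + θ ^ 9) * hf + (θ ^ 5 + θ ^ 6 + θ ^ 8 + θ ^ 11 + θ ^ 13 + θ ^ 14) * h2
  have e206 : θ ^ 206 = 1 + θ ^ 3 + θ ^ 6 + θ ^ 7 := by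
    have h1 : θ ^ 206 = (θ ^ 103) ^ 2 := by ring
    rw [h1, e103]
    linear_combination (1 + θ ^ 4) * hf + ((-1) + (-1) * θ ^ 3 + θ ^ 5 + θ ^ 8 + θ ^ 9 + θ ^ 10 + θ ^ 12) * h2
  have e412 : θ ^ 412 = 1 + θ ^ 2 + θ ^ 4 + θ ^ 5 + θ ^ 6 + θ ^ 7 := by
    have h1 : θ ^ 412 = (θ ^ 206) ^ 2 := by ring
    rw [h1, e206]
    linear_combination (θ ^ 2 + θ ^ 4) * hf + ((-1) * θ ^ 2 + θ ^ 3 + (-1) * θ ^ 4 + (-1) * θ ^ 5 + θ ^ 6 + θ ^ 9 + θ ^ 10 + θ ^ 13) * h2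
  have e825 : θ ^ 825 = θ ^ 3 + θ ^ 4 + θ ^ 6 + θ ^ 8 + θ ^ 9 := by
    have h1 : θ ^ 825 = (θ ^ 412) ^ 2 * θ := by ring
    rw [h1, e412]
    linear_combination (θ + θ ^ 3 + θ ^ 5) * hf + ((-1) * θ ^ 4 + θ ^ 5 + 2 * θ ^ 7 + θ ^ 8 + θ ^ 9 + 2 * θ ^ 10 + θ ^ 11 + 2 * θ ^ 12 + θ ^ 13 + θ ^ 14) * h2
  have e30 : θ ^ 30 = 1 + θ ^ 3 + θ ^ 6 + θ ^ 9 := by
    have h1 : θ ^ 30 = (θ ^ 15) ^ 2 := by ring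
    rw [h1, e15]
    linear_combination (1 + θ ^ 6) * hf + ((-1) + (-1) * θ ^ 3 + (-1) * θ ^ 6 + (-1) * θ ^ 9 + θ ^ 13) * h2
  have e61 : θ ^ 61 = θ + θ ^ 2 + θ ^ 3 + θ ^ 5 + θ ^ 6 + θ ^ 7 + θ ^ 9 := by
    have h1 : θ ^ 61 = (θ ^ 30) ^ 2 * θ := by ring
    rw [h1, e30]
    linear_combination ((-1) * θ ^ 2 + θ ^ 3 + θ ^ 9) * hf + ((-1) * θ ^ 3 + θ ^ 4 + (-1) * θ ^ 6 + θ ^ 7 + (-1) * θ ^ 9 + 2 * θ ^ 10 + θ ^ 13 + θ ^ 16) * h2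
  have e123 : θ ^ 123 = θ + θ ^ 2 + θ ^ 4 + θ ^ 5 + θ ^ 6 + θ ^ 7 + θ ^ 8 + θ ^ 9 := by
    have h1 : θ ^ 123 = (θ ^ 61) ^ 2 * θ := by ring
    rw [h1, e61]
    linear_combination (θ + (-1) * θ ^ 2 + θ ^ 3 + θ ^ 5 + θ ^ 9) * hf + ((-1) * θ + θ ^ 5 + θ ^ 7 + θ ^ 8 + 2 * θ ^ 9 + 2 * θ ^ 10 + 2 * θ ^ 11 + 2 * θ ^ 12 + 2 * θ ^ 13 + θ ^ 14 + θ ^ 15 + θ ^ 16 + θ ^ 17) * h2
  have e247 : θ ^ 247 = 1 + θ + θ ^ 2 + θ ^ 3 + θ ^ 4 + θ ^ 5 + θ ^ 6 + θ ^ 7 + θ ^ 8 := by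
    have h1 : θ ^ 247 = (θ ^ 123) ^ 2 * θ := by ring
    rw [h1, e123]
    linear_combination ((-1) + θ + (-1) * θ ^ 2 + θ ^ 3 + θ ^ 5 + θ ^ 7 + θ ^ 9) * hf + ((-1) * θ + θ ^ 7 + θ ^ 8 + 2 * θ ^ 9 + 3 * θ ^ 10 + 3 * θ ^ 11 + 3 * θ ^ 12 + 2 * θ ^ 13 + 3 * θ ^ 14 + 2 * θ ^ 15 + 2 * θ ^ 16 + θ ^ 17 + θ ^ 18) * h2
  have e495 : θ ^ 495 = 1 + θ ^ 3 + θ ^ 4 + θ ^ 6 + θ ^ 8 + θ ^ 9 := by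
    have h1 : θ ^ 495 = (θ ^ 247) ^ 2 * θ := by ring
    rw [h1, e247]
    linear_combination ((-1) + θ + θ ^ 3 + θ ^ 5 + θ ^ 7) * hf + (θ ^ 2 + θ ^ 3 + θ ^ 4 + 2 * θ ^ 5 + 2 * θ ^ 6 + 3 * θ ^ 7 + 3 * θ ^ 8 + 4 * θ ^ 9 + 4 * θ ^ 10 + 3 * θ ^ 11 + 3 * θ ^ 12 + 2 * θ ^ 13 + 2 * θ ^ 14 + θ ^ 15 + θ ^ 16) * h2
  have e26 : θ ^ 26 = θ ^ 2 + θ ^ 5 + θ ^ 6 := by
    have h1 : θ ^ 26 = (θ ^ 13) ^ 2 := by ring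
    rw [h1, e13]
    linear_combination (θ ^ 2) * hf + ((-1) * θ ^ 2 + (-1) * θ ^ 5 + θ ^ 9) * h2
  have e53 : θ ^ 53 = θ + θ ^ 3 + θ ^ 4 + θ ^ 5 + θ ^ 6 := by
    have h1 : θ ^ 53 = (θ ^ 26) ^ 2 * θ := by ring
    rw [h1, e26]
    linear_combination (θ + θ ^ 3) * hf + ((-1) * θ + (-1) * θ ^ 3 + (-1) * θ ^ 4 + (-1) * θ ^ 6 + θ ^ 8 + θ ^ 9 + θ ^ 12) * h2
  have e107 : θ ^ 107 = θ + θ ^ 4 + θ ^ 6 + θ ^ 7 + θ ^ 9 := by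
    have h1 : θ ^ 107 = (θ ^ 53) ^ 2 * θ := by ring
    rw [h1, e53]
    linear_combination (θ + θ ^ 3) * hf + ((-1) * θ + (-1) * θ ^ 4 + θ ^ 5 + θ ^ 7 + 2 * θ ^ 8 + θ ^ 9 + 2 * θ ^ 10 + θ ^ 11 + θ ^ 12) * h2
  have e214 : θ ^ 214 = θ + θ ^ 5 + θ ^ 7 := by
    have h1 : θ ^ 214 = (θ ^ 107) ^ 2 := by ring
    rw [h1, e107]
    linear_combination ((-1) * θ + θ ^ 2 + θ ^ 4 + θ ^ 8) * hf + (θ ^ 8 + 2 * θ ^ 10 + θ ^ 11 + 2 * θ ^ 13 + θ ^ 15 + θ ^ 16) * h2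
  have e429 : θ ^ 429 = θ + θ ^ 3 + θ ^ 4 + θ ^ 5 + θ ^ 8 := by
    have h1 : θ ^ 429 = (θ ^ 214) ^ 2 * θ := by ring
    rw [h1, e214]
    linear_combination (θ + θ ^ 5) * hf + ((-1) * θ + (-1) * θ ^ 4 + (-1) * θ ^ 5 + θ ^ 7 + (-1) * θ ^ 8 + θ ^ 9 + θ ^ 13) * h2
  have e858 : θ ^ 858 = 1 + θ ^ 2 + θ ^ 3 + θ ^ 8 + θ ^ 9 := by
    have h1 : θ ^ 858 = (θ ^ 429) ^ 2 := by ring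
    rw [h1, e429]
    linear_combination (1 + θ ^ 6) * hf + ((-1) + (-1) * θ ^ 3 + θ ^ 4 + θ ^ 5 + θ ^ 6 + θ ^ 7 + θ ^ 8 + θ ^ 9 + θ ^ 11 + θ ^ 12 + θ ^ 13) * h2
  have e231 : θ ^ 231 = 1 + θ + θ ^ 2 + θ ^ 3 := by
    have h1 : θ ^ 231 = (θ ^ 115) ^ 2 * θ := by ring
    rw [h1, e115]
    linear_combination ((-1) + (-1) * θ ^ 2 + θ ^ 7 + θ ^ 9) * hf + (θ ^ 3 + θ ^ 4 + 2 * θ ^ 5 + θ ^ 6 + θ ^ 7 + θ ^ 8 + θ ^ 9 + θ ^ 10 + θ ^ 11 + 2 * θ ^ 12 + 2 * θ ^ 13 + θ ^ 14 + θ ^ 18) * h2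
  have e462 : θ ^ 462 = 1 + θ ^ 2 + θ ^ 4 + θ ^ 6 := by
    have h1 : θ ^ 462 = (θ ^ 231) ^ 2 := by ring
    rw [h1, e231]
    linear_combination (0) * hf + (θ + θ ^ 2 + 2 * θ ^ 3 + θ ^ 4 + θ ^ 5) * h2
  have e924 : θ ^ 924 = 1 + θ ^ 2 + θ ^ 4 + θ ^ 5 + θ ^ 8 := by
    have h1 : θ ^ 924 = (θ ^ 462) ^ 2 := by ring
    rw [h1, e462]
    linear_combination (θ ^ 2) * hf + (θ ^ 4 + (-1) * θ ^ 5 + 2 * θ ^ 6 + θ ^ 8 + θ ^ 10) * h2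
  have e9 : θ ^ 9 = θ ^ 9 := by ring
  have e18 : θ ^ 18 = θ + θ ^ 4 + θ ^ 8 := by
    have h1 : θ ^ 18 = (θ ^ 9) ^ 2 := by ring
    rw [h1, e9]
    linear_combination ((-1) * θ + θ ^ 8) * hf + ((-1) * θ ^ 8) * h2
  have e37 : θ ^ 37 = 1 + θ ^ 7 + θ ^ 9 := by
    have h1 : θ ^ 37 = (θ ^ 18) ^ 2 * θ := by ring
    rw [h1, e18]
    linear_combination ((-1) + θ ^ 7) * hf + (θ ^ 3 + θ ^ 6 + (-1) * θ ^ 7 + θ ^ 10 + θ ^ 13) * h2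
  have e74 : θ ^ 74 = 1 + θ + θ ^ 7 + θ ^ 8 := by
    have h1 : θ ^ 74 = (θ ^ 37) ^ 2 := by ring
    rw [h1, e37]
    linear_combination ((-1) * θ + θ ^ 4 + θ ^ 8) * hf + ((-1) * θ ^ 8 + θ ^ 9 + θ ^ 16) * h2
  have e148 : θ ^ 148 = 1 + θ ^ 2 + θ ^ 4 + θ ^ 6 + θ ^ 7 + θ ^ 9 := by
    have h1 : θ ^ 148 = (θ ^ 74) ^ 2 := by ring
    rw [h1, e74]
    linear_combination (θ ^ 4 + θ ^ 6) * hf + (θ + (-1) * θ ^ 4 + (-1) * θ ^ 6 + 2 * θ ^ 8 + θ ^ 15) * h2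
  have e297 : θ ^ 297 = θ + θ ^ 2 + θ ^ 3 + θ ^ 5 + θ ^ 6 + θ ^ 8 := by
    have h1 : θ ^ 297 = (θ ^ 148) ^ 2 * θ := by ring
    rw [h1, e148]
    linear_combination ((-1) * θ ^ 2 + θ ^ 3 + θ ^ 5 + θ ^ 9) * hf + (θ ^ 5 + (-1) * θ ^ 6 + 2 * θ ^ 7 + θ ^ 9 + 2 * θ ^ 10 + θ ^ 11 + 2 * θ ^ 12 + 2 * θ ^ 14 + θ ^ 16 + θ ^ 17) * h2
  have e594 : θ ^ 594 = 1 + θ ^ 3 + θ ^ 4 + θ ^ 5 + θ ^ 9 := by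
    have h1 : θ ^ 594 = (θ ^ 297) ^ 2 := by ring
    rw [h1, e297]
    linear_combination (1 + θ ^ 2 + θ ^ 6) * hf + ((-1) + θ ^ 4 + θ ^ 6 + 2 * θ ^ 7 + 2 * θ ^ 8 + θ ^ 9 + θ ^ 10 + 2 * θ ^ 11 + θ ^ 13 + θ ^ 14) * h2
  have e24 : θ ^ 24 = 1 + θ ^ 3 + θ ^ 4 := by
    have h1 : θ ^ 24 = (θ ^ 12) ^ 2 := by ring
    rw [h1, e12]
    linear_combination (1) * hf + ((-1) + (-1) * θ ^ 3 + θ ^ 7) * h2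
  have e49 : θ ^ 49 = θ + θ ^ 7 + θ ^ 9 := by
    have h1 : θ ^ 49 = (θ ^ 24) ^ 2 * θ := by ring
    rw [h1, e24]
    linear_combination (0) * hf + (θ ^ 4 + θ ^ 5 + θ ^ 8) * h2
  have e98 : θ ^ 98 = θ + θ ^ 2 + θ ^ 7 + θ ^ 8 := by
    have h1 : θ ^ 98 = (θ ^ 49) ^ 2 := by ring
    rw [h1, e49]
    linear_combination ((-1) * θ + θ ^ 4 + θ ^ 8) * hf + ((-1) * θ ^ 7 + θ ^ 10 + θ ^ 16) * h2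
  have e197 : θ ^ 197 = 1 + θ ^ 7 + θ ^ 8 := by
    have h1 : θ ^ 197 = (θ ^ 98) ^ 2 * θ := by ring
    rw [h1, e98]
    linear_combination ((-1) + θ ^ 5 + θ ^ 7) * hf + (θ ^ 3 + θ ^ 4 + (-1) * θ ^ 7 + (-1) * θ ^ 8 + θ ^ 9 + 2 * θ ^ 10 + θ ^ 11 + θ ^ 16) * h2
  have e394 : θ ^ 394 = 1 + θ ^ 4 + θ ^ 6 + θ ^ 7 + θ ^ 9 := by
    have h1 : θ ^ 394 = (θ ^ 197) ^ 2 := by ring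
    rw [h1, e197]
    linear_combination (θ ^ 4 + θ ^ 6) * hf + ((-1) * θ ^ 4 + (-1) * θ ^ 6 + θ ^ 8 + (-1) * θ ^ 9 + θ ^ 15) * h2
  have e789 : θ ^ 789 = θ + θ ^ 2 + θ ^ 3 + θ ^ 6 + θ ^ 8 := by
    have h1 : θ ^ 789 = (θ ^ 394) ^ 2 * θ := by ring
    rw [h1, e394]
    linear_combination ((-1) * θ ^ 2 + θ ^ 3 + θ ^ 5 + θ ^ 9) * hf + ((-1) * θ ^ 3 + θ ^ 5 + (-1) * θ ^ 6 + θ ^ 7 + θ ^ 10 + θ ^ 11 + θ ^ 12 + 2 * θ ^ 14 + θ ^ 16 + θ ^ 17) * h2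
  have e32 : θ ^ 32 = θ + θ ^ 2 + θ ^ 4 + θ ^ 5 + θ ^ 8 := by
    have h1 : θ ^ 32 = (θ ^ 16) ^ 2 := by ring
    rw [h1, e16]
    linear_combination ((-1) * θ + θ ^ 2 + θ ^ 8) * hf + ((-1) * θ ^ 2 + (-1) * θ ^ 5 + (-1) * θ ^ 8 + θ ^ 15) * h2
  have e64 : θ ^ 64 = 1 + θ ^ 2 + θ ^ 3 + θ ^ 4 + θ ^ 6 + θ ^ 8 + θ ^ 9 := by
    have h1 : θ ^ 64 = (θ ^ 32) ^ 2 := by ring
    rw [h1, e32]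
    linear_combination (1 + θ ^ 6) * hf + ((-1) + θ ^ 5 + θ ^ 6 + θ ^ 7 + θ ^ 9 + θ ^ 10 + θ ^ 12 + θ ^ 13) * h2
  have e129 : θ ^ 129 = 1 + θ + θ ^ 2 + θ ^ 6 := by
    have h1 : θ ^ 129 = (θ ^ 64) ^ 2 * θ := by ring
    rw [h1, e64]
    linear_combination ((-1) + (-1) * θ ^ 2 + θ ^ 3 + θ ^ 7 + θ ^ 9) * hf + (θ ^ 3 + θ ^ 4 + 2 * θ ^ 5 + 2 * θ ^ 7 + θ ^ 8 + 2 * θ ^ 9 + 2 * θ ^ 10 + 2 * θ ^ 11 + 2 * θ ^ 12 + 2 * θ ^ 13 + θ ^ 14 + θ ^ 15 + θ ^ 16 + θ ^ 18) * h2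
  have e259 : θ ^ 259 = θ + θ ^ 5 + θ ^ 6 := by
    have h1 : θ ^ 259 = (θ ^ 129) ^ 2 * θ := by ring
    rw [h1, e129]
    linear_combination (θ ^ 3) * hf + (θ ^ 2 + θ ^ 3 + θ ^ 4 + (-1) * θ ^ 6 + θ ^ 7 + θ ^ 8 + θ ^ 9) * h2
  have e519 : θ ^ 519 = θ + θ ^ 4 + θ ^ 6 := by
    have h1 : θ ^ 519 = (θ ^ 259) ^ 2 * θ := by ring
    rw [h1, e259]
    linear_combination (θ + θ ^ 3) * hf + ((-1) * θ + (-1) * θ ^ 4 + (-1) * θ ^ 6 + θ ^ 7 + θ ^ 8 + θ ^ 12) * h2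
  have a1 : θ ^ 758 = θ ^ 31 + 1 := by
    rw [e758, e31]; linear_combination ((-1)) * h2
  have a2 : θ ^ 434 = θ ^ 85 + 1 := by
    rw [e434, e85]; linear_combination (0) * h2
  have b1 : ∃ B : K, (θ ^ 341 - 1) * B = 1 := ⟨1 + θ ^ 2 + θ ^ 3 + θ ^ 5 + θ ^ 6 + θ ^ 7, by rw [e341]; linear_combination (1 + θ ^ 2 + θ ^ 4) * hf + ((-1) + θ ^ 5 + θ ^ 6 + θ ^ 7 + 2 * θ ^ 8 + 2 * θ ^ 9 + θ ^ 10 + θ ^ 11 + θ ^ 12 + θ ^ 13) * h2⟩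
  have b2 : ∃ B : K, (θ ^ 93 - 1) * B = 1 := ⟨θ + θ ^ 2 + θ ^ 3 + θ ^ 7 + θ ^ 9, by rw [e93]; linear_combination (1 + θ ^ 3 + θ ^ 4 + θ ^ 5 + θ ^ 8) * hf + ((-1) + (-1) * θ ^ 3 + θ ^ 9 + θ ^ 10 + θ ^ 12 + θ ^ 16) * h2⟩
  have b3 : ∃ B : K, (θ ^ 33 - 1) * B = 1 := ⟨1 + θ + θ ^ 2 + θ ^ 4 + θ ^ 6 + θ ^ 8 + θ ^ 9, by rw [e33]; linear_combination ((-1) * θ + θ ^ 7 + θ ^ 8) * hf + ((-1) + θ ^ 3 + θ ^ 4 + θ ^ 5 + θ ^ 6 + θ ^ 7 + θ ^ 9 + θ ^ 10 + 2 * θ ^ 11 + θ ^ 12 + θ ^ 13 + θ ^ 14 + θ ^ 15) * h2⟩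
  have c1 : (θ ^ 31) ^ 2 + θ ^ 31 + 1 = θ ^ 922 := by
    rw [← pow_mul, e62, e31, e922]; linear_combination (1 + θ ^ 4 + θ ^ 7) * h2
  have c2 : θ ^ 31 * (θ ^ 31 + 1) = θ ^ 789 := by
    rw [← a1, ← pow_add]
  have c3 : ((θ ^ 31) ^ 2 + θ ^ 31 + 1) ^ 3 = θ ^ 165 * ((θ ^ 31) ^ 2 * (θ ^ 31 + 1) ^ 2) := by
    rw [c1, ← mul_pow, c2]
    have d1 : (θ ^ 922) ^ 3 = (θ ^ 1023) ^ 2 * θ ^ 720 := by ring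
    have d2 : θ ^ 165 * (θ ^ 789) ^ 2 = θ ^ 1023 * θ ^ 720 := by ring
    rw [d1, d2, e1023]; ring
  have c4 : (θ ^ 85) ^ 2 + θ ^ 85 + 1 = θ ^ 335 := by
    rw [← pow_mul, e170, e85, e335]; linear_combination (θ ^ 8 + θ ^ 9) * h2
  have c5 : θ ^ 85 * (θ ^ 85 + 1) = θ ^ 519 := by
    rw [← a2, ← pow_add]
  have c6 : ((θ ^ 85) ^ 2 + θ ^ 85 + 1) ^ 3 = θ ^ 990 * ((θ ^ 85) ^ 2 * (θ ^ 85 + 1) ^ 2) := by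
    rw [c4, ← mul_pow, c5]
    have d1 : (θ ^ 335) ^ 3 = θ ^ 1005 := by ring
    have d2 : θ ^ 990 * (θ ^ 519) ^ 2 = θ ^ 1023 * θ ^ 1005 := by ring
    rw [d1, d2, e1023]; ring
  have g1 : (θ ^ 165) ^ 5 + (θ ^ 165) ^ 3 + 1 = 0 := by
    rw [← pow_mul, ← pow_mul, e825, e495]; linear_combination (1 + θ ^ 3 + θ ^ 4 + θ ^ 6 + θ ^ 8 + θ ^ 9) * h2
  have g2 : (θ ^ 990) ^ 5 + (θ ^ 990) ^ 3 + 1 = θ ^ 594 := by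
    have d1 : (θ ^ 990) ^ 5 = (θ ^ 1023) ^ 4 * θ ^ 858 := by ring
    have d2 : (θ ^ 990) ^ 3 = (θ ^ 1023) ^ 2 * θ ^ 924 := by ring
    rw [d1, d2, e1023, one_pow, one_pow, one_mul, one_mul, e858, e924, e594]
    linear_combination (1 + θ ^ 2 + θ ^ 8) * h2
  have g3 : ∃ B : K, ((θ ^ 990) ^ 5 + (θ ^ 990) ^ 3 + 1) * B = 1 := by
    refine ⟨θ ^ 429, ?_⟩
    rw [g2, ← pow_add]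
    exact e1023
  exact ⟨a1, a2, e1023, b1, b2, b3, c3, g1, c6, g3⟩

end Q248.Singer1024
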