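import Mathlib
import Pool.Agent.Q248.Singer1024

/-!
Auxiliary results for MP_50e481: the field with 1024 elements.
-/

namespace Q248.Singer1024

open Finset

theorem two_eq {K : Type} [Field K] [Algebra (ZMod 2) K] : (2 : K) = 0 := by
  have h := congrArg (algebraMap (ZMod 2) K) (show (2 : ZMod 2) = 0 from by decide)
  rwa [map_ofNat, map_zero] at h

theorem order_aux {K : Type} [Field K] [Algebra (ZMod 2) K] {θ : K} (hf : θ ^ 10 + θ ^ 3 + 1 = 0) :
    orderOf θ = 1023 := by
  obtain ⟨_, _, e1023, ⟨B, hB⟩, ⟨B', hB'⟩, ⟨B'', hB''⟩, _⟩ := powers θ hf two_eq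
  apply orderOf_eq_of_pow_and_pow_div_prime (by norm_num) e1023
  intro p hp hd
  have h1 : p ∣ 3 * 11 * 31 := by norm_num; exact hd
  rcases (Nat.Prime.dvd_mul hp).1 h1 with h2 | h2
  · rcases (Nat.Prime.dvd_mul hp).1 h2 with h3 | h3
    · have h4 := (Nat.prime_dvd_prime_iff_eq hp (by norm_num)).1 h3
      subst h4
      norm_num
      intro h
      rw [h] at hB
      simp at hB
    · have h4 := (Nat.prime_dvd_prime_iff_eq hp (by norm_num)).1 h3
      subst h4
      norm_num
      intro h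
      rw [h] at hB'
      simp at hB'
  · have h4 := (Nat.prime_dvd_prime_iff_eq hp (by norm_num)).1 h2
    subst h4
    norm_num
    intro h
    rw [h] at hB''
    simp at hB''

theorem ten_le {K : Type} [Field K] [Algebra (ZMod 2) K] {y : K} (hy : IsIntegral (ZMod 2) y)
    {n : ℕ} (ho : orderOf y = n) (hn : n ≠ 0) (hnd : ∀ d : ℕ, 0 < d → d < 10 → ¬ n ∣ 2 ^ d - 1) :
    10 ≤ (minpoly (ZMod 2) y).natDegree := by
  set L := IntermediateField.adjoin (ZMod 2) {y} with hL
  have hrank : Module.finrank (ZMod 2) L = (minpoly (ZMod 2) y).natDegree :=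
    IntermediateField.adjoin.finrank hy
  have hpos : 0 < (minpoly (ZMod 2) y).natDegree := minpoly.natDegree_pos hy
  have hfd : FiniteDimensional (ZMod 2) L := Module.finite_of_finrank_pos (by omega)
  have hfin : Finite L := Module.finite_of_finite (ZMod 2)
  have : Fintype L := Fintype.ofFinite L
  have hcard : Fintype.card L = 2 ^ (minpoly (ZMod 2) y).natDegree := by
    rw [Module.card_eq_pow_finrank (K := ZMod 2), hrank, ZMod.card]
  have hmem : y ∈ L := IntermediateField.mem_adjoin_simple_self _ y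
  set z : L := ⟨y, hmem⟩ with hz
  have hoz : orderOf z = n := by
    rw [← ho]
    exact (orderOf_injective (L.val : L →* K) L.val.injective z).symm ▸ rfl
  have hz0 : z ≠ 0 := by
    intro h
    rw [h, orderOf_zero] at hoz
    exact hn hoz.symm
  have h1 := orderOf_dvd_of_pow_eq_one (FiniteField.pow_card_sub_one_eq_one z hz0)
  rw [hoz, hcard] at h1
  by_contra hlt
  push Not at hlt
  exact hnd _ hpos hlt h1

theorem not_dvd_1023 : ∀ d : ℕ, 0 < d → d < 10 → ¬ 1023 ∣ 2 ^ d - 1 := by
  intro d h1 h2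
  interval_cases d <;> norm_num

theorem not_dvd_33 : ∀ d : ℕ, 0 < d → d < 10 → ¬ 33 ∣ 2 ^ d - 1 := by
  intro d h1 h2
  interval_cases d <;> norm_num

theorem exists_field : ∃ (K : Type) (_ : Field K) (_ : Algebra (ZMod 2) K) (θ : K),
    Module.finrank (ZMod 2) K = 10 ∧ θ ^ 10 + θ ^ 3 + 1 = 0 := by
  set f : Polynomial (ZMod 2) := Polynomial.X ^ 10 + Polynomial.X ^ 3 + 1 with hf
  have hdeg : f.natDegree = 10 := by
    rw [hf]; compute_degree!
  have hdeg' : f.degree ≠ 0 := by
    intro h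
    rw [Polynomial.natDegree_eq_of_degree_eq_some h] at hdeg
    norm_num at hdeg
  obtain ⟨α, hα⟩ := IsAlgClosed.exists_aeval_eq_zero (AlgebraicClosure (ZMod 2)) f hdeg'
  have hint : IsIntegral (ZMod 2) α := (AlgebraicClosure.isAlgebraic _).isIntegral.isIntegral α
  set L := IntermediateField.adjoin (ZMod 2) {α} with hL
  have hrank : Module.finrank (ZMod 2) L = (minpoly (ZMod 2) α).natDegree :=
    IntermediateField.adjoin.finrank hint
  have hf0 : f ≠ 0 := by
    intro h
    rw [h] at hdeg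
    simp at hdeg
  have hle : (minpoly (ZMod 2) α).natDegree ≤ 10 := by
    rw [← hdeg]
    exact Polynomial.natDegree_le_of_dvd (minpoly.dvd _ _ hα) hf0
  have hα6 : α ^ 10 + α ^ 3 + 1 = 0 := by
    have := hα
    rw [hf] at this
    simp only [map_add, map_pow, Polynomial.aeval_X, map_one] at this
    exact this
  have hge := ten_le hint (order_aux hα6) (by norm_num) not_dvd_1023
  have hmem : α ∈ L := IntermediateField.mem_adjoin_simple_self _ α
  refine ⟨L, inferInstance, inferInstance, ⟨α, hmem⟩, by omega, ?_⟩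
  apply Subtype.ext
  exact hα6

section fixed

variable {K : Type} [Field K] [Algebra (ZMod 2) K] {θ : K}

theorem card_eq (hr : Module.finrank (ZMod 2) K = 10) : Nat.card K = 1024 := by
  have hfd : FiniteDimensional (ZMod 2) K := Module.finite_of_finrank_pos (by omega)
  have hfin : Finite K := Module.finite_of_finite (ZMod 2)
  have : Fintype K := Fintype.ofFinite K
  rw [Nat.card_eq_fintype_card, Module.card_eq_pow_finrank (K := ZMod 2), hr, ZMod.card]
  norm_num

theorem gen_of_order (hr : Module.finrank (ZMod 2) K = 10) (ho : orderOf θ = 1023) (hθ : θ ≠ 0) :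
    ∀ x : K, x ≠ 0 → ∃ n : ℕ, θ ^ n = x := by
  classical
  have hc := card_eq hr
  have hfin : Finite K := Nat.finite_of_card_ne_zero (by rw [hc]; norm_num)
  have : Fintype K := Fintype.ofFinite K
  rw [Nat.card_eq_fintype_card] at hc
  have h1 : ((range 1023).image (fun n => θ ^ n)).card = 1023 := by
    rw [card_image_of_injOn, card_range]
    intro a ha b hb hab
    rw [coe_range, Set.mem_Iio] at ha hb
    exact pow_injOn_Iio_orderOf (by rw [Set.mem_Iio, ho]; exact ha)
      (by rw [Set.mem_Iio, ho]; exact hb) hab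
  have h2 : (range 1023).image (fun n => θ ^ n) = univ.erase 0 := by
    apply eq_of_subset_of_card_le
    · intro x hx
      obtain ⟨n, _, rfl⟩ := mem_image.1 hx
      rw [mem_erase]
      exact ⟨pow_ne_zero _ hθ, mem_univ _⟩
    · rw [h1, card_erase_of_mem (mem_univ _), card_univ, hc]
  intro x hx
  have : x ∈ (range 1023).image (fun n => θ ^ n) := by
    rw [h2, mem_erase]
    exact ⟨hx, mem_univ _⟩
  obtain ⟨n, _, h⟩ := mem_image.1 this
  exact ⟨n, h⟩

/-- The invariant of the six Möbius transformations over `𝔽₂`. -/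
noncomputable def J (x : K) : K := (x ^ 2 + x + 1) ^ 3 / (x ^ 2 * (x + 1) ^ 2)

/-- The predicate which separates the two classes. -/
def P (x : K) : Prop := J x ^ 5 + J x ^ 3 + 1 = 0

theorem J_add_one (x : K) : J (x + 1) = J x := by
  have h2 : (2 : K) = 0 := two_eq
  unfold J
  have e1 : (x + 1) ^ 2 + (x + 1) + 1 = x ^ 2 + x + 1 := by linear_combination (x + 1) * h2
  have e2 : (x + 1) ^ 2 * (x + 1 + 1) ^ 2 = x ^ 2 * (x + 1) ^ 2 := by
    linear_combination ((x + 1) ^ 2 * (2 * x + 2)) * h2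
  rw [e1, e2]

omit [Algebra (ZMod 2) K] in
theorem J_inv {x y : K} (h : x * y = 1) : J y = J x := by
  have hx : x ≠ 0 := left_ne_zero_of_mul_eq_one h
  have hy : y = x⁻¹ := by field_simp; linear_combination h
  subst hy
  unfold J
  by_cases hx1 : x + 1 = 0
  · have hx2 : x⁻¹ + 1 = 0 := by
      have : x = -1 := by linear_combination hx1
      rw [this]; norm_num
    rw [hx1, hx2]
    simp
  · have hx2 : x⁻¹ + 1 ≠ 0 := by
      intro h0
      apply hx1
      have : x * (x⁻¹ + 1) = 0 := by rw [h0, mul_zero]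
      rw [mul_add, mul_inv_cancel₀ hx] at this
      linear_combination this
    have hx3 : 1 + x ≠ 0 := by rwa [add_comm]
    field_simp
    ring

theorem P_add_one {x : K} (h : P x) : P (x + 1) := by
  unfold P
  rw [J_add_one]
  exact h

omit [Algebra (ZMod 2) K] in
theorem P_inv {x y : K} (hxy : x * y = 1) (h : P x) : P y := by
  unfold P
  rw [J_inv hxy]
  exact h

theorem sq_add (a b : K) : (a + b) ^ 2 = a ^ 2 + b ^ 2 := by
  have h2 : (2 : K) = 0 := two_eq
  linear_combination a * b * h2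

theorem J_sq (x : K) : J (x ^ 2) = J x ^ 2 := by
  have h2 : (2 : K) = 0 := two_eq
  have e1 : (x ^ 2) ^ 2 + x ^ 2 + 1 = (x ^ 2 + x + 1) ^ 2 := by
    linear_combination (-(x ^ 3 + x ^ 2 + x)) * h2
  have e2 : x ^ 2 + 1 = (x + 1) ^ 2 := by linear_combination (-x) * h2
  unfold J
  rw [e1, e2, div_pow]
  congr 1
  · ring
  · ring

theorem P_sq (x : K) : P (x ^ 2) ↔ P x := by
  unfold P
  have : J (x ^ 2) ^ 5 + J (x ^ 2) ^ 3 + 1 = (J x ^ 5 + J x ^ 3 + 1) ^ 2 := by
    rw [J_sq, sq_add, sq_add]; ring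
  rw [this]
  exact pow_eq_zero_iff (by norm_num)

theorem P_sq_pow (x : K) (i : ℕ) : P (x ^ 2 ^ i) ↔ P x := by
  induction i with
  | zero => rw [pow_zero, pow_one]
  | succ i ih => rw [pow_succ, pow_mul, P_sq, ih]

theorem P_31 (hf : θ ^ 10 + θ ^ 3 + 1 = 0) : P (θ ^ 31) := by
  obtain ⟨a1, _, e1023, _, _, _, c3, g1, _, _⟩ := powers θ hf two_eq
  have hθ : θ ≠ 0 := by
    rintro rfl
    norm_num at hf
  have hd : (θ ^ 31) ^ 2 * (θ ^ 31 + 1) ^ 2 ≠ 0 := by
    rw [← a1]
    exact mul_ne_zero (pow_ne_zero _ (pow_ne_zero _ hθ)) (pow_ne_zero _ (pow_ne_zero _ hθ))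
  unfold P J
  rw [c3, mul_div_assoc, div_self hd, mul_one]
  exact g1

theorem not_P_85 (hf : θ ^ 10 + θ ^ 3 + 1 = 0) : ¬ P (θ ^ 85) := by
  obtain ⟨_, a2, e1023, _, _, _, _, _, c6, ⟨B, hB⟩⟩ := powers θ hf two_eq
  have hθ : θ ≠ 0 := by
    rintro rfl
    norm_num at hf
  have hd : (θ ^ 85) ^ 2 * (θ ^ 85 + 1) ^ 2 ≠ 0 := by
    rw [← a2]
    exact mul_ne_zero (pow_ne_zero _ (pow_ne_zero _ hθ)) (pow_ne_zero _ (pow_ne_zero _ hθ))
  unfold P J
  rw [c6, mul_div_assoc, div_self hd, mul_one]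
  intro h
  rw [h, zero_mul] at hB
  exact zero_ne_one hB

end fixed

end Q248.Singer1024
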