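import Mathlib

/-!
Auxiliary results for MP_7aef23: signed sums of a lacunary sequence.
-/

namespace Q248.Trans

open Finset

/-- Integer combinations of the terms of `s` with total weight at most `n`. -/
def T (s : ℕ → ℤ) (n : ℕ) : Set ℤ :=
  {σ | ∃ (U : Finset ℕ) (c : ℕ → ℤ), (∀ k ∉ U, c k = 0) ∧ ∑ k ∈ U, |c k| ≤ n ∧
    σ = ∑ k ∈ U, c k * s k}

theorem T_mono {s : ℕ → ℤ} {n n' : ℕ} (h : n ≤ n') : T s n ⊆ T s n' := by
  rintro σ ⟨U, c, h1, h2, h3⟩
  exact ⟨U, c, h1, h2.trans (by exact_mod_cast h), h3⟩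

theorem T_zero (s : ℕ → ℤ) (n : ℕ) : (0 : ℤ) ∈ T s n :=
  ⟨∅, fun _ => 0, fun _ _ => rfl, by simp, by simp⟩

theorem T_neg {s : ℕ → ℤ} {n : ℕ} {σ : ℤ} (h : σ ∈ T s n) : -σ ∈ T s n := by
  obtain ⟨U, c, h1, h2, h3⟩ := h
  refine ⟨U, fun k => -c k, fun k hk => by dsimp only; rw [h1 k hk, neg_zero], ?_, ?_⟩
  · simpa only [abs_neg] using h2
  · rw [h3, ← sum_neg_distrib]
    exact sum_congr rfl fun k _ => by ring

theorem T_add {s : ℕ → ℤ} {n n' : ℕ} {σ σ' : ℤ} (h : σ ∈ T s n) (h' : σ' ∈ T s n') :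
    σ + σ' ∈ T s (n + n') := by
  obtain ⟨U, c, h1, h2, h3⟩ := h
  obtain ⟨U', c', h1', h2', h3'⟩ := h'
  refine ⟨U ∪ U', fun k => c k + c' k, ?_, ?_, ?_⟩
  · intro k hk
    rw [mem_union, not_or] at hk
    simp only
    rw [h1 k hk.1, h1' k hk.2, add_zero]
  · have e1 : ∑ k ∈ U ∪ U', |c k| = ∑ k ∈ U, |c k| := by
      symm
      apply sum_subset subset_union_left
      intro k _ hk
      rw [h1 k hk, abs_zero]
    have e2 : ∑ k ∈ U ∪ U', |c' k| = ∑ k ∈ U', |c' k| := by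
      symm
      apply sum_subset subset_union_right
      intro k _ hk
      rw [h1' k hk, abs_zero]
    calc ∑ k ∈ U ∪ U', |c k + c' k| ≤ ∑ k ∈ U ∪ U', (|c k| + |c' k|) :=
          sum_le_sum fun k _ => abs_add_le _ _
      _ = ∑ k ∈ U, |c k| + ∑ k ∈ U', |c' k| := by rw [sum_add_distrib, e1, e2]
      _ ≤ _ := by push_cast; exact add_le_add h2 h2'
  · have e1 : ∑ k ∈ U ∪ U', c k * s k = ∑ k ∈ U, c k * s k := by
      symm
      apply sum_subset subset_union_left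
      intro k _ hk
      rw [h1 k hk, zero_mul]
    have e2 : ∑ k ∈ U ∪ U', c' k * s k = ∑ k ∈ U', c' k * s k := by
      symm
      apply sum_subset subset_union_right
      intro k _ hk
      rw [h1' k hk, zero_mul]
    rw [h3, h3', ← e1, ← e2, ← sum_add_distrib]
    exact sum_congr rfl fun k _ => by ring

theorem T_single (s : ℕ → ℤ) (k : ℕ) : s k ∈ T s 1 :=
  ⟨{k}, fun j => if j = k then 1 else 0, fun j hj => by
    rw [mem_singleton] at hj
    exact if_neg hj, by simp, by simp⟩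

/-- The main rigidity lemma. -/
theorem coeff_zero {s : ℕ → ℤ} {h : ℕ} (hpos : ∀ k, 0 < s k)
    (hgrow : ∀ j k, j < k → 4 * ((h : ℤ) + 1) * s j ≤ s k) (U : Finset ℕ) (c : ℕ → ℤ)
    (hc : ∑ k ∈ U, |c k| ≤ 2 * ((h : ℤ) + 1)) (k0 : ℕ)
    (hy : 2 * |∑ k ∈ U, c k * s k| < s k0) : ∀ k ∈ U, k0 ≤ k → c k = 0 := by
  by_contra hcon
  push Not at hcon
  obtain ⟨k1, hk1, hk01, hck1⟩ := hcon
  -- the largest index with a nonzero coefficient
  have hne : (U.filter (fun k => c k ≠ 0)).Nonempty := ⟨k1, mem_filter.2 ⟨hk1, hck1⟩⟩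
  set K := (U.filter (fun k => c k ≠ 0)).max' hne with hK
  have hKmem : K ∈ U.filter (fun k => c k ≠ 0) := max'_mem _ _
  have hKU := (mem_filter.1 hKmem).1
  have hcK := (mem_filter.1 hKmem).2
  have hk0K : k0 ≤ K := hk01.trans (le_max' _ _ (mem_filter.2 ⟨hk1, hck1⟩))
  have hmono : s k0 ≤ s K := by
    rcases hk0K.eq_or_lt with h1 | h1
    · rw [h1]
    · have := hgrow k0 K h1
      have h2 := hpos k0
      nlinarith
  have hrest : 4 * ((h : ℤ) + 1) * |∑ k ∈ U.erase K, c k * s k| ≤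
      (∑ k ∈ U.erase K, |c k|) * s K := by
    calc 4 * ((h : ℤ) + 1) * |∑ k ∈ U.erase K, c k * s k|
        ≤ 4 * ((h : ℤ) + 1) * ∑ k ∈ U.erase K, |c k * s k| := by
          gcongr
          exact abs_sum_le_sum_abs _ _
      _ = ∑ k ∈ U.erase K, |c k| * (4 * ((h : ℤ) + 1) * s k) := by
          rw [mul_sum]
          apply sum_congr rfl
          intro k _
          rw [abs_mul, abs_of_pos (hpos k)]; ring
      _ ≤ ∑ k ∈ U.erase K, |c k| * s K := by
          apply sum_le_sum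
          intro k hk
          rw [mem_erase] at hk
          by_cases hck : c k = 0
          · rw [hck]; simp
          · have hlt : k < K := lt_of_le_of_ne (le_max' _ _ (mem_filter.2 ⟨hk.2, hck⟩)) hk.1
            exact mul_le_mul_of_nonneg_left (hgrow k K hlt) (abs_nonneg _)
      _ = _ := by rw [sum_mul]
  have hsplit : ∑ k ∈ U, c k * s k = c K * s K + ∑ k ∈ U.erase K, c k * s k :=
    (add_sum_erase U (fun k => c k * s k) hKU).symm
  have hsplit2 : ∑ k ∈ U, |c k| = |c K| + ∑ k ∈ U.erase K, |c k| :=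
    (add_sum_erase U (fun k => |c k|) hKU).symm
  have hcK1 : 1 ≤ |c K| := Int.one_le_abs hcK
  have hsK := hpos K
  set Rr := |∑ k ∈ U.erase K, c k * s k| with hRr
  have h1 : 2 * Rr ≤ s K := by
    have h2 : 4 * ((h : ℤ) + 1) * Rr ≤ 2 * ((h : ℤ) + 1) * s K := by
      refine hrest.trans ?_
      gcongr
      linarith
    have h3 : (0 : ℤ) < 2 * ((h : ℤ) + 1) := by positivity
    have h4 : 2 * ((h : ℤ) + 1) * (2 * Rr) ≤ 2 * ((h : ℤ) + 1) * s K := by linarith
    exact le_of_mul_le_mul_left h4 h3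
  have h5 : |c K * s K| ≤ |∑ k ∈ U, c k * s k| + Rr := by
    have : c K * s K = ∑ k ∈ U, c k * s k - ∑ k ∈ U.erase K, c k * s k := by rw [hsplit]; ring
    rw [this]
    exact abs_sub _ _
  rw [abs_mul, abs_of_pos hsK] at h5
  nlinarith

/-- Small combinations are very small. -/
theorem small_of_small {s : ℕ → ℤ} {h : ℕ} (hpos : ∀ k, 0 < s k)
    (hgrow : ∀ j k, j < k → 4 * ((h : ℤ) + 1) * s j ≤ s k) {σ : ℤ} (hσ : σ ∈ T s h) (K : ℕ)
    (hy : 2 * |σ| < s K) : 4 * |σ| ≤ s K := by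
  obtain ⟨U, c, h1, h2, h3⟩ := hσ
  rw [h3] at hy ⊢
  have h0 := coeff_zero hpos hgrow U c (by
    have : (h : ℤ) ≤ 2 * ((h : ℤ) + 1) := by linarith
    linarith) K hy
  have h4 : 4 * ((h : ℤ) + 1) * |∑ k ∈ U, c k * s k| ≤ (h + 1) * s K := by
    calc 4 * ((h : ℤ) + 1) * |∑ k ∈ U, c k * s k|
        ≤ 4 * ((h : ℤ) + 1) * ∑ k ∈ U, |c k * s k| := by
          gcongr
          exact abs_sum_le_sum_abs _ _
      _ = ∑ k ∈ U, |c k| * (4 * ((h : ℤ) + 1) * s k) := by
          rw [mul_sum]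
          apply sum_congr rfl
          intro k _
          rw [abs_mul, abs_of_pos (hpos k)]; ring
      _ ≤ ∑ k ∈ U, |c k| * s K := by
          apply sum_le_sum
          intro k hk
          rcases Nat.lt_or_ge k K with hlt | hge
          · exact mul_le_mul_of_nonneg_left (hgrow k K hlt) (abs_nonneg _)
          · rw [h0 k hk hge]; simp
      _ = (∑ k ∈ U, |c k|) * s K := by rw [sum_mul]
      _ ≤ (h + 1) * s K := by
          have := hpos K
          gcongr
          linarith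
  have h5 : (0 : ℤ) < (h : ℤ) + 1 := by positivity
  have h6 : ((h : ℤ) + 1) * (4 * |∑ k ∈ U, c k * s k|) ≤ ((h : ℤ) + 1) * s K := by linarith
  exact le_of_mul_le_mul_left h6 h5

/-- A sum of `h` distinct large terms is rigid. -/
theorem rigid {s : ℕ → ℤ} {h : ℕ} (hpos : ∀ k, 0 < s k)
    (hgrow : ∀ j k, j < k → 4 * ((h : ℤ) + 1) * s j ≤ s k) (Ks : Finset ℕ) (hKs : Ks.card = h)
    (k0 : ℕ) (hk0 : ∀ k ∈ Ks, k0 ≤ k) {σ' : ℤ} (hσ' : σ' ∈ T s h)
    (hy : 2 * |∑ k ∈ Ks, s k + σ'| < s k0) : ∑ k ∈ Ks, s k + σ' = 0 := by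
  classical
  obtain ⟨U, c, h1, h2, h3⟩ := hσ'
  set e : ℕ → ℤ := fun k => if k ∈ Ks then 1 else 0 with he
  have hsum : ∑ k ∈ Ks, s k + σ' = ∑ k ∈ Ks ∪ U, (e k + c k) * s k := by
    have e1 : ∑ k ∈ Ks ∪ U, e k * s k = ∑ k ∈ Ks, s k := by
      rw [← sum_subset (subset_union_left : Ks ⊆ Ks ∪ U)]
      · apply sum_congr rfl
        intro k hk
        rw [he]; simp [hk]
      · intro k _ hk
        rw [he]; simp [hk]
    have e2 : ∑ k ∈ Ks ∪ U, c k * s k = ∑ k ∈ U, c k * s k := by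
      symm
      apply sum_subset subset_union_right
      intro k _ hk
      rw [h1 k hk, zero_mul]
    rw [h3, ← e1, ← e2, ← sum_add_distrib]
    exact sum_congr rfl fun k _ => by ring
  have hN1 : ∑ k ∈ Ks ∪ U, |e k| = h := by
    rw [← sum_subset (subset_union_left : Ks ⊆ Ks ∪ U)]
    · rw [← hKs, card_eq_sum_ones]
      push_cast
      apply sum_congr rfl
      intro k hk
      rw [he]; simp [hk]
    · intro k _ hk
      rw [he]; simp [hk]
  have hN2 : ∑ k ∈ Ks ∪ U, |c k| ≤ h := by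
    have : ∑ k ∈ Ks ∪ U, |c k| = ∑ k ∈ U, |c k| := by
      symm
      apply sum_subset subset_union_right
      intro k _ hk
      rw [h1 k hk, abs_zero]
    rw [this]; exact h2
  have h0 := coeff_zero hpos hgrow (Ks ∪ U) (fun k => e k + c k) (by
    calc ∑ k ∈ Ks ∪ U, |e k + c k| ≤ ∑ k ∈ Ks ∪ U, (|e k| + |c k|) :=
          sum_le_sum fun k _ => abs_add_le _ _
      _ = h + ∑ k ∈ Ks ∪ U, |c k| := by rw [sum_add_distrib, hN1]
      _ ≤ _ := by linarith) k0 (by rw [← hsum]; exact hy)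
  -- the coefficients on `Ks` are all `-1`
  have hcK : ∀ k ∈ Ks, c k = -1 := by
    intro k hk
    have := h0 k (mem_union_left _ hk) (hk0 k hk)
    have he1 : e k = 1 := by rw [he]; simp [hk]
    rw [he1] at this
    linarith
  have hrest : ∀ k ∈ Ks ∪ U, k ∉ Ks → c k = 0 := by
    intro k hk hkK
    by_contra hne
    have h4 : ∑ j ∈ insert k Ks, |c j| ≤ ∑ j ∈ Ks ∪ U, |c j| := by
      apply sum_le_sum_of_subset_of_nonneg
      · intro j hj
        rcases mem_insert.1 hj with rfl | hj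
        · exact hk
        · exact mem_union_left _ hj
      · intros; exact abs_nonneg _
    rw [sum_insert hkK] at h4
    have h5 : ∑ j ∈ Ks, |c j| = h := by
      rw [← hKs, card_eq_sum_ones]
      push_cast
      apply sum_congr rfl
      intro j hj
      rw [hcK j hj]; simp
    have h6 : 1 ≤ |c k| := Int.one_le_abs hne
    linarith
  rw [hsum]
  apply sum_eq_zero
  intro k hk
  by_cases hkK : k ∈ Ks
  · have he1 : e k = 1 := by rw [he]; simp [hkK]
    rw [he1, hcK k hkK]; ring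
  · have he1 : e k = 0 := by rw [he]; simp [hkK]
    rw [he1, hrest k hk hkK]; ring

end Q248.Trans
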