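import Mathlib

/-!
Auxiliary results for MP_7aef23: a symmetric set of residues of prescribed order.
-/

namespace Q248.Trans

open Finset

/-- base-`B` digits -/
theorem exists_digits (B : ℕ) (hB : 0 < B) : ∀ (h y : ℕ), y < B ^ h →
    ∃ d : ℕ → ℕ, (∀ i, d i < B) ∧ y = ∑ i ∈ range h, d i * B ^ i := by
  intro h
  induction h with
  | zero =>
    intro y hy
    refine ⟨fun _ => 0, fun _ => hB, ?_⟩
    simp at hy
    simp [hy]
  | succ h ih =>
    intro y hy
    obtain ⟨d, hd, hsum⟩ := ih (y % B ^ h) (Nat.mod_lt _ (by positivity))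
    refine ⟨fun i => if i = h then y / B ^ h else d i, ?_, ?_⟩
    · intro i
      dsimp only
      split_ifs
      · rw [Nat.div_lt_iff_lt_mul (by positivity)]
        rw [pow_succ] at hy
        linarith [mul_comm (B ^ h) B]
      · exact hd i
    · rw [sum_range_succ]
      have h1 : ∑ i ∈ range h, (if i = h then y / B ^ h else d i) * B ^ i =
          ∑ i ∈ range h, d i * B ^ i := by
        apply sum_congr rfl
        intro i hi
        rw [mem_range] at hi
        rw [if_neg hi.ne]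
      dsimp only
      rw [h1, ← hsum, if_pos rfl]
      have := Nat.mod_add_div y (B ^ h)
      rw [mul_comm (B ^ h)] at this
      exact this.symm

/-- Sums of few terms `d B ^ i` avoid the multiples of the repunit. -/
theorem not_sum {h B K w : ℕ} (hK : h ≤ K) (hK1 : 1 ≤ K) (hw : 1 ≤ w) (hB : 2 * (K * w) + h < B)
    (l : List (ℤ × ℕ)) (hl : l.length < h) (hd : ∀ u ∈ l, |u.1| ≤ (B : ℤ) ∧ u.2 < h)
    (hdiv : ((B : ℤ) ^ h) ∣ (K * w : ℤ) * ∑ i ∈ range h, (B : ℤ) ^ i -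
      (l.map (fun u => u.1 * (B : ℤ) ^ u.2)).sum) : False := by
  have hB2 : 2 ≤ B := by nlinarith
  have hBpos : (0 : ℤ) < B := by exact_mod_cast (by omega : 0 < B)
  -- an unused index
  obtain ⟨i0, hi0, hnot⟩ : ∃ i0 < h, ∀ u ∈ l, u.2 ≠ i0 := by
    by_contra hcon
    push Not at hcon
    have hsub : range h ⊆ (l.map Prod.snd).toFinset := by
      intro i hi
      rw [mem_range] at hi
      obtain ⟨u, hu, hui⟩ := hcon i hi
      rw [List.mem_toFinset, List.mem_map]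
      exact ⟨u, hu, hui⟩
    have h1 := card_le_card hsub
    rw [card_range] at h1
    have h2 := (l.map Prod.snd).toFinset_card_le
    rw [List.length_map] at h2
    omega
  -- reduce modulo `B ^ (i0 + 1)`
  have hlist : ∀ l' : List (ℤ × ℕ), (∀ u ∈ l', |u.1| ≤ (B : ℤ) ∧ u.2 < h) →
      (∀ u ∈ l', u.2 ≠ i0) → ∃ z : ℤ, |z| ≤ l'.length * (B : ℤ) ^ i0 ∧
        ((B : ℤ) ^ (i0 + 1)) ∣ (l'.map (fun u => u.1 * (B : ℤ) ^ u.2)).sum - z := by
    intro l'
    induction l' with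
    | nil =>
      intro _ _
      exact ⟨0, by simp, by simp⟩
    | cons u l' ih =>
      intro h1 h2
      obtain ⟨z, hz, hzd⟩ := ih (fun v hv => h1 v (List.mem_cons_of_mem _ hv))
        (fun v hv => h2 v (List.mem_cons_of_mem _ hv))
      obtain ⟨g1, _⟩ := h1 u List.mem_cons_self
      have g2 := h2 u List.mem_cons_self
      rcases Nat.lt_or_ge u.2 i0 with hlt | hge
      · refine ⟨u.1 * (B : ℤ) ^ u.2 + z, ?_, ?_⟩
        · have h3 : |u.1 * (B : ℤ) ^ u.2| ≤ (B : ℤ) ^ i0 := by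
            rw [abs_mul, abs_of_nonneg (pow_nonneg hBpos.le u.2)]
            calc |u.1| * (B : ℤ) ^ u.2 ≤ B * (B : ℤ) ^ u.2 := by gcongr
              _ = (B : ℤ) ^ (u.2 + 1) := by ring
              _ ≤ (B : ℤ) ^ i0 := pow_le_pow_right₀ (by omega) hlt
          calc |u.1 * (B : ℤ) ^ u.2 + z| ≤ |u.1 * (B : ℤ) ^ u.2| + |z| := abs_add_le _ _
            _ ≤ (B : ℤ) ^ i0 + l'.length * (B : ℤ) ^ i0 := add_le_add h3 hz
            _ = _ := by rw [List.length_cons]; push_cast; ring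
        · rw [List.map_cons, List.sum_cons]
          have : u.1 * (B : ℤ) ^ u.2 + (l'.map (fun u => u.1 * (B : ℤ) ^ u.2)).sum -
            (u.1 * (B : ℤ) ^ u.2 + z) = (l'.map (fun u => u.1 * (B : ℤ) ^ u.2)).sum - z := by ring
          rw [this]
          exact hzd
      · refine ⟨z, ?_, ?_⟩
        · refine hz.trans ?_
          rw [List.length_cons]
          push_cast
          nlinarith [pow_nonneg hBpos.le i0]
        · rw [List.map_cons, List.sum_cons]
          have : u.1 * (B : ℤ) ^ u.2 + (l'.map (fun u => u.1 * (B : ℤ) ^ u.2)).sum - z =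
            u.1 * (B : ℤ) ^ u.2 + ((l'.map (fun u => u.1 * (B : ℤ) ^ u.2)).sum - z) := by ring
          rw [this]
          exact dvd_add ((pow_dvd_pow _ (by omega)).mul_left _) hzd
  obtain ⟨z, hz, hzd⟩ := hlist l hd hnot
  -- the repunit part
  have hrep : ((B : ℤ) ^ (i0 + 1)) ∣ ∑ i ∈ range h, (B : ℤ) ^ i - ∑ i ∈ range (i0 + 1), (B : ℤ) ^ i := by
    rw [← sum_range_add_sum_Ico _ (show i0 + 1 ≤ h by omega), add_sub_cancel_left]
    apply dvd_sum
    intro i hi
    rw [mem_Ico] at hi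
    exact pow_dvd_pow _ hi.1
  have hfin : ((B : ℤ) ^ (i0 + 1)) ∣ (K * w : ℤ) * ∑ i ∈ range (i0 + 1), (B : ℤ) ^ i - z := by
    have h1 : ((B : ℤ) ^ (i0 + 1)) ∣ (K * w : ℤ) * ∑ i ∈ range h, (B : ℤ) ^ i -
      (l.map (fun u => u.1 * (B : ℤ) ^ u.2)).sum := (pow_dvd_pow _ (by omega)).trans hdiv
    have h2 := hrep.mul_left (K * w : ℤ)
    have h3 := dvd_sub (dvd_add h1 hzd) h2
    have e : (K * w : ℤ) * ∑ i ∈ range h, (B : ℤ) ^ i -
      (l.map (fun u => u.1 * (B : ℤ) ^ u.2)).sum + ((l.map (fun u => u.1 * (B : ℤ) ^ u.2)).sum - z) -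
      (K * w : ℤ) * (∑ i ∈ range h, (B : ℤ) ^ i - ∑ i ∈ range (i0 + 1), (B : ℤ) ^ i) =
      (K * w : ℤ) * ∑ i ∈ range (i0 + 1), (B : ℤ) ^ i - z := by ring
    rwa [e] at h3
  -- bounds for the repunit
  have hlow : (B : ℤ) ^ i0 ≤ ∑ i ∈ range (i0 + 1), (B : ℤ) ^ i := by
    rw [sum_range_succ]
    have : 0 ≤ ∑ i ∈ range i0, (B : ℤ) ^ i := sum_nonneg fun i _ => pow_nonneg hBpos.le i
    linarith
  have hup : ∀ j : ℕ, ∑ i ∈ range (j + 1), (B : ℤ) ^ i ≤ 2 * (B : ℤ) ^ j := by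
    intro j
    induction j with
    | zero => simp
    | succ j ih =>
      rw [sum_range_succ]
      have : 2 * (B : ℤ) ^ j ≤ (B : ℤ) ^ (j + 1) := by
        rw [pow_succ, mul_comm]
        gcongr
        exact_mod_cast hB2
      linarith
  have hup0 := hup i0
  have hpow : 0 < (B : ℤ) ^ i0 := pow_pos hBpos _
  have hzl := abs_le.1 hz
  have hlen : (l.length : ℤ) < h := by exact_mod_cast hl
  have hKw : (h : ℤ) ≤ K * w := by
    have : h ≤ K * w := hK.trans (Nat.le_mul_of_pos_right _ hw)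
    exact_mod_cast this
  have hpos : 0 < (K * w : ℤ) * ∑ i ∈ range (i0 + 1), (B : ℤ) ^ i - z := by
    have h1 : (K * w : ℤ) * (B : ℤ) ^ i0 ≤ (K * w : ℤ) * ∑ i ∈ range (i0 + 1), (B : ℤ) ^ i := by
      gcongr
    have h2 : (l.length : ℤ) * (B : ℤ) ^ i0 < (K * w : ℤ) * (B : ℤ) ^ i0 := by
      apply mul_lt_mul_of_pos_right _ hpow
      linarith
    linarith [hzl.2]
  have hlt : (K * w : ℤ) * ∑ i ∈ range (i0 + 1), (B : ℤ) ^ i - z < (B : ℤ) ^ (i0 + 1) := by
    have h1 : (K * w : ℤ) * ∑ i ∈ range (i0 + 1), (B : ℤ) ^ i ≤ (K * w : ℤ) * (2 * (B : ℤ) ^ i0) := by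
      gcongr
    have h2 : -z ≤ (l.length : ℤ) * (B : ℤ) ^ i0 := by linarith [hzl.1]
    have h3 : (2 * (K * w : ℤ) + h) * (B : ℤ) ^ i0 < B * (B : ℤ) ^ i0 := by
      apply mul_lt_mul_of_pos_right _ hpow
      exact_mod_cast hB
    have h4 : (l.length : ℤ) * (B : ℤ) ^ i0 ≤ h * (B : ℤ) ^ i0 := by gcongr
    rw [pow_succ]
    nlinarith
  exact absurd (Int.le_of_dvd hpos hfin) (not_le.2 hlt)

/-- The residues. -/
theorem exists_V (h : ℕ) (W : Finset ℕ) (hW : ∀ w ∈ W, 0 < w) :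
    ∃ m : ℕ, 0 < m ∧ ∃ V : Set (ZMod m), (0 : ZMod m) ∈ V ∧ (∀ v ∈ V, -v ∈ V) ∧
      (∀ x : ZMod m, ∃ l : List (ZMod m), l.length = h ∧ (∀ v ∈ l, v ∈ V) ∧ l.sum = x) ∧
      ∀ w ∈ W, ∀ l : List (ZMod m), l.length < h → (∀ v ∈ l, v ∈ V) → l.sum ≠ (w : ZMod m) := by
  rcases Nat.eq_zero_or_pos h with rfl | hpos
  · refine ⟨1, one_pos, Set.univ, trivial, fun _ _ => trivial, ?_, ?_⟩
    · intro x
      exact ⟨[], rfl, by simp, Subsingleton.elim _ _⟩
    · intro w _ l hl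
      exact absurd hl (Nat.not_lt_zero _)
  · obtain ⟨M, hM⟩ : ∃ M : ℕ, ∀ w ∈ W, w ≤ M := ⟨W.sup id, fun w hw => le_sup (f := id) hw⟩
    obtain ⟨B, hBdef⟩ : ∃ B : ℕ, B = 1 + h * (2 * M + h) := ⟨_, rfl⟩
    have hBpos : 0 < B := by omega
    have hB1 : 2 * (h * M) + h < B := by rw [hBdef]; nlinarith
    have hcop1 : Nat.Coprime h B := by
      rw [hBdef, Nat.coprime_comm]
      simp
    obtain ⟨c, hc⟩ : ∃ c : ℕ, c = h * ∑ i ∈ range h, B ^ i := ⟨_, rfl⟩
    have hcopR : Nat.Coprime (∑ i ∈ range h, B ^ i) B := by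
      obtain ⟨h', rfl⟩ : ∃ h', h = h' + 1 := ⟨h - 1, by omega⟩
      rw [sum_range_succ']
      have : B ∣ ∑ i ∈ range h', B ^ (i + 1) := by
        apply dvd_sum
        intro i _
        exact dvd_pow_self _ (by omega)
      obtain ⟨e, he⟩ := this
      rw [he, pow_zero]
      simp
    have hcop : Nat.Coprime c (B ^ h) := by
      apply Nat.Coprime.pow_right
      rw [hc]
      exact Nat.Coprime.mul_left hcop1 hcopR
    have hNZ : NeZero (B ^ h) := ⟨(pow_pos hBpos h).ne'⟩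
    obtain ⟨u, hu⟩ := (ZMod.isUnit_iff_coprime c (B ^ h)).2 hcop
    refine ⟨B ^ h, pow_pos hBpos h, {v | ∃ d : ℤ, ∃ i < h, |d| ≤ (B : ℤ) ∧
      (c : ZMod (B ^ h)) * v = ((d * (B : ℤ) ^ i : ℤ) : ZMod (B ^ h))}, ?_, ?_, ?_, ?_⟩
    · exact ⟨0, 0, hpos, by simp, by simp⟩
    · rintro v ⟨d, i, hi, hd, hv⟩
      exact ⟨-d, i, hi, by rwa [abs_neg], by rw [mul_neg, hv]; push_cast; ring⟩
    · intro x
      obtain ⟨d, hd, hy⟩ := exists_digits B hBpos h ((c : ZMod (B ^ h)) * x).val (ZMod.val_lt _)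
      refine ⟨(List.range h).map (fun i => (↑u⁻¹ : ZMod (B ^ h)) * ((d i * B ^ i : ℕ) : ZMod (B ^ h))),
        by simp, ?_, ?_⟩
      · intro v hv
        obtain ⟨i, hi, rfl⟩ := List.mem_map.1 hv
        refine ⟨d i, i, List.mem_range.1 hi, ?_, ?_⟩
        · rw [abs_of_nonneg (by positivity)]
          exact_mod_cast (hd i).le
        · rw [← hu, ← mul_assoc, u.mul_inv, one_mul]
          push_cast
          ring
      · have h1 : ((List.range h).map (fun i => (↑u⁻¹ : ZMod (B ^ h)) *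
            ((d i * B ^ i : ℕ) : ZMod (B ^ h)))).sum = ∑ i ∈ range h, (↑u⁻¹ : ZMod (B ^ h)) *
            ((d i * B ^ i : ℕ) : ZMod (B ^ h)) := by
          rw [← Multiset.sum_coe, ← Multiset.map_coe]
          rfl
        rw [h1, ← mul_sum, ← Nat.cast_sum, ← hy, ZMod.natCast_zmod_val, ← hu, ← mul_assoc,
          u.inv_mul, one_mul]
    · intro w hw l hl hlV hsum
      -- lift the list
      have hlift : ∀ l' : List (ZMod (B ^ h)), (∀ v ∈ l', ∃ d : ℤ, ∃ i < h, |d| ≤ (B : ℤ) ∧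
          (c : ZMod (B ^ h)) * v = ((d * (B : ℤ) ^ i : ℤ) : ZMod (B ^ h))) →
          ∃ L : List (ℤ × ℕ), L.length = l'.length ∧ (∀ u ∈ L, |u.1| ≤ (B : ℤ) ∧ u.2 < h) ∧
            (c : ZMod (B ^ h)) * l'.sum =
              (((L.map (fun u => u.1 * (B : ℤ) ^ u.2)).sum : ℤ) : ZMod (B ^ h)) := by
        intro l'
        induction l' with
        | nil => intro _; exact ⟨[], rfl, by simp, by simp⟩
        | cons v l' ih =>
          intro hv
          obtain ⟨L, h1, h2, h3⟩ := ih (fun v' hv' => hv v' (List.mem_cons_of_mem _ hv'))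
          obtain ⟨d, i, hi, hd, hvd⟩ := hv v List.mem_cons_self
          refine ⟨(d, i) :: L, by simp [h1], ?_, ?_⟩
          · intro u hu
            rcases List.mem_cons.1 hu with rfl | hu
            · exact ⟨hd, hi⟩
            · exact h2 u hu
          · rw [List.sum_cons, mul_add, h3, hvd, List.map_cons, List.sum_cons]
            push_cast
            ring
      obtain ⟨L, h1, h2, h3⟩ := hlift l hlV
      rw [hsum] at h3
      have hw1 := hW w hw
      have hwM := hM w hw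
      apply not_sum (h := h) (B := B) (K := h) (w := w) le_rfl hpos hw1 ?_ L (by omega) h2 ?_
      · have : h * w ≤ h * M := Nat.mul_le_mul_left _ hwM
        omega
      · have h4 : (((h * w : ℤ) * ∑ i ∈ range h, (B : ℤ) ^ i -
            (L.map (fun u => u.1 * (B : ℤ) ^ u.2)).sum : ℤ) : ZMod (B ^ h)) = 0 := by
          rw [Int.cast_sub, ← h3, hc]
          push_cast
          ring
        rw [ZMod.intCast_zmod_eq_zero_iff_dvd] at h4
        exact_mod_cast h4

end Q248.Trans
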